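import Mathlib

/-!
Hausdorff measures with a power of the logarithm as the gauge function: the upper bound
-/

set_option autoImplicit false

open MeasureTheory Filter Topology Set
open scoped ENNReal NNReal

namespace Pool.Agent.D0H48.LD

/-- the gauge function `(log (1 / r)) ^ (-s)` -/
noncomputable def gauge (s : ℝ) (r : ℝ≥0∞) : ℝ≥0∞ :=
  ENNReal.ofReal (Real.log (1 / r.toReal) ^ (-s))

theorem gauge_zero_eq {s : ℝ} (hs : 0 < s) : gauge s 0 = 0 := by
  unfold gauge
  rw [ENNReal.toReal_zero, div_zero, Real.log_zero, Real.zero_rpow (by linarith), ENNReal.ofReal_zero]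

theorem gauge_le {s : ℝ} (hs : 0 < s) {d : ℝ≥0∞} {r : ℝ} (hr : 0 < r) (hr1 : r < 1)
    (hd : d ≤ ENNReal.ofReal r) : gauge s d ≤ ENNReal.ofReal (Real.log (1 / r) ^ (-s)) := by
  have hdt : d.toReal ≤ r := ENNReal.toReal_le_of_le_ofReal hr.le hd
  rcases eq_or_lt_of_le (ENNReal.toReal_nonneg (a := d)) with h0 | h0
  · have h1 : gauge s d = 0 := by
      unfold gauge
      rw [← h0, div_zero, Real.log_zero, Real.zero_rpow (by linarith), ENNReal.ofReal_zero]
    rw [h1]
    exact bot_le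
  · unfold gauge
    apply ENNReal.ofReal_le_ofReal
    have h1 : 0 < Real.log (1 / r) := Real.log_pos (by rw [lt_div_iff₀ hr]; linarith)
    have h2 : Real.log (1 / r) ≤ Real.log (1 / d.toReal) :=
      Real.log_le_log (by positivity) (one_div_le_one_div_of_le h0 hdt)
    rw [Real.rpow_neg h1.le, Real.rpow_neg (h1.le.trans h2)]
    exact inv_anti₀ (Real.rpow_pos_of_pos h1 _) (Real.rpow_le_rpow h1.le h2 hs.le)

theorem ediam_ball_le (c : ℝ) {r : ℝ} (_hr : 0 ≤ r) :
    Metric.ediam (Metric.closedBall c r) ≤ ENNReal.ofReal (2 * r) := by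
  apply Metric.ediam_le
  intro x hx y hy
  rw [edist_dist]
  apply ENNReal.ofReal_le_ofReal
  have h1 := dist_triangle_right x y c
  rw [Metric.mem_closedBall] at hx hy
  linarith

/-- The set of the `ξ` with infinitely many approximations `y p`, `|y p - ξ| ≤ A q ^ (-n)`, where
`p = (n, m)` and there are at most `D n` numbers `m` for every `n`. -/
theorem gauge_null {F : Set ℝ} {S : ℝ → Set (ℕ × ℕ)} {q A s : ℝ} (hq : 1 < q) (hA : 0 < A)
    (hs : 0 < s) (I : ℕ → Finset ℕ) (hsum : Summable fun n : ℕ => ((I n).card : ℝ) * ((n : ℝ)) ^ (-s))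
    (y : ℕ × ℕ → ℝ) (hS : ∀ ξ ∈ F, ∀ p ∈ S ξ, p.2 ∈ I p.1 ∧ |y p - ξ| * q ^ p.1 ≤ A)
    (hinf : ∀ ξ ∈ F, (S ξ).Infinite) : Measure.mkMetric (gauge s) F = 0 := by
  have hlq : 0 < Real.log q := Real.log_pos hq
  have hq0 : 0 < q := by linarith
  obtain ⟨κ, hκ⟩ : ∃ κ : ℝ, κ = Real.log q / 2 := ⟨_, rfl⟩
  have hκ0 : 0 < κ := by rw [hκ]; positivity
  -- the covers
  obtain ⟨t, ht⟩ : ∃ t : (N : ℕ) → (Σ n : ℕ, (I (N + n) : Set ℕ)) → Set ℝ,
      t = fun N i => Metric.closedBall (y (N + i.1, i.2)) (A * (q ^ (N + i.1))⁻¹) := ⟨_, rfl⟩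
  have hrad : ∀ N : ℕ, ∀ n : ℕ, A * (q ^ (N + n))⁻¹ ≤ A * (q ^ N)⁻¹ := by
    intro N n
    apply mul_le_mul_of_nonneg_left _ hA.le
    apply inv_anti₀ (by positivity)
    exact pow_le_pow_right₀ hq.le (by omega)
  have htend : Tendsto (fun N : ℕ => ENNReal.ofReal (2 * (A * (q ^ N)⁻¹))) atTop (𝓝 0) := by
    rw [← ENNReal.ofReal_zero]
    apply ENNReal.tendsto_ofReal
    have h1 : Tendsto (fun N : ℕ => (q ^ N)⁻¹) atTop (𝓝 0) :=
      (tendsto_pow_atTop_atTop_of_one_lt hq).inv_tendsto_atTop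
    have h2 := (h1.const_mul A).const_mul 2
    simpa using h2
  have hmain := Measure.mkMetric_le_liminf_tsum (X := ℝ) F
    (fun N : ℕ => ENNReal.ofReal (2 * (A * (q ^ N)⁻¹))) htend t
    (Eventually.of_forall fun N i => by
      rw [ht]
      refine (ediam_ball_le _ (by positivity)).trans (ENNReal.ofReal_le_ofReal ?_)
      have := hrad N i.1
      linarith)
    (Eventually.of_forall fun N => by
      intro ξ hξ
      -- an element of `S ξ` with a large first coordinate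
      have h1 : ({p ∈ S ξ | p.1 < N} : Set (ℕ × ℕ)).Finite := by
        refine (((Finset.range N).finite_toSet.biUnion fun n _ =>
          ((I n).finite_toSet.image fun m => (n, m)))).subset ?_
        rintro p ⟨hp, hpN⟩
        obtain ⟨h2, -⟩ := hS ξ hξ p hp
        simp only [Set.mem_iUnion]
        refine ⟨p.1, by simpa using hpN, p.2, h2, rfl⟩
      obtain ⟨p, hp, hpN⟩ : ∃ p ∈ S ξ, ¬ p.1 < N := by
        by_contra hcon
        push Not at hcon
        exact hinf ξ hξ (h1.subset fun p hp => ⟨hp, hcon p hp⟩)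
      obtain ⟨h2, h3⟩ := hS ξ hξ p hp
      rw [not_lt] at hpN
      obtain ⟨n, hn⟩ := Nat.exists_eq_add_of_le hpN
      rw [Set.mem_iUnion]
      obtain ⟨p1, p2⟩ := p
      simp only at hn h2 h3
      subst hn
      refine ⟨⟨n, ⟨p2, h2⟩⟩, ?_⟩
      rw [ht]
      simp only [Metric.mem_closedBall]
      rw [dist_comm, Real.dist_eq]
      have hqp : 0 < q ^ (N + n) := by positivity
      rw [← div_eq_mul_inv, le_div_iff₀ hqp]
      exact h3)
    (gauge s)
  -- the sums
  obtain ⟨f, hf⟩ : ∃ f : ℕ → ℝ, f = fun n => ((I n).card : ℝ) * (κ ^ (-s) * (n : ℝ) ^ (-s)) := ⟨_, rfl⟩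
  have hfsum : Summable f := by
    rw [hf]
    have := hsum.mul_left (κ ^ (-s))
    refine this.congr fun n => ?_
    ring
  have hf0 : ∀ n, 0 ≤ f n := fun n => by rw [hf]; positivity
  have htail : Tendsto (fun N : ℕ => ENNReal.ofReal (∑' n, f (N + n))) atTop (𝓝 0) := by
    rw [← ENNReal.ofReal_zero]
    apply ENNReal.tendsto_ofReal
    have := tendsto_sum_nat_add f
    refine this.congr fun N => ?_
    exact tsum_congr fun n => by rw [add_comm]
  -- `q ^ n` is large
  obtain ⟨N₀, hN₀⟩ : ∃ N₀ : ℕ, ∀ n : ℕ, N₀ ≤ n → 2 * A ≤ Real.exp (κ * n) ∧ 1 ≤ n := by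
    have h1 : Tendsto (fun n : ℕ => Real.exp (κ * n)) atTop atTop :=
      Real.tendsto_exp_atTop.comp (tendsto_natCast_atTop_atTop.const_mul_atTop hκ0)
    obtain ⟨N₁, h2⟩ := eventually_atTop.1 ((h1.eventually_ge_atTop (2 * A)).and (eventually_ge_atTop 1))
    exact ⟨N₁, h2⟩
  have hgauge : ∀ n : ℕ, N₀ ≤ n → ∀ z : ℝ,
      gauge s (Metric.ediam (Metric.closedBall z (A * (q ^ n)⁻¹))) ≤
        ENNReal.ofReal (κ ^ (-s) * (n : ℝ) ^ (-s)) := by
    intro n hn z
    obtain ⟨h1, h2⟩ := hN₀ n hn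
    have hn0 : (0 : ℝ) < n := by exact_mod_cast h2
    have hqn : q ^ n = Real.exp (2 * κ * n) := by
      rw [hκ, mul_div_cancel₀ _ (two_ne_zero), mul_comm, ← Real.log_pow, Real.exp_log (by positivity)]
    have h3 : 2 * (A * (q ^ n)⁻¹) ≤ Real.exp (-(κ * n)) := by
      rw [hqn, ← Real.exp_neg]
      calc 2 * (A * Real.exp (-(2 * κ * n))) = (2 * A) * Real.exp (-(2 * κ * n)) := by ring
        _ ≤ Real.exp (κ * n) * Real.exp (-(2 * κ * n)) :=
          mul_le_mul_of_nonneg_right h1 (Real.exp_pos _).le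
        _ = Real.exp (-(κ * n)) := by rw [← Real.exp_add]; congr 1; ring
    have h4 : Real.exp (-(κ * n)) < 1 := by
      rw [Real.exp_lt_one_iff]
      have : 0 < κ * n := by positivity
      linarith
    have h5 := gauge_le hs (Real.exp_pos (-(κ * n))) h4
      ((ediam_ball_le z (r := A * (q ^ n)⁻¹) (by positivity)).trans (ENNReal.ofReal_le_ofReal h3))
    refine h5.trans (ENNReal.ofReal_le_ofReal (le_of_eq ?_))
    rw [Real.exp_neg, one_div, inv_inv, Real.log_exp, Real.mul_rpow hκ0.le hn0.le]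
  have hle : ∀ᶠ N : ℕ in atTop, (∑' i, gauge s (Metric.ediam (t N i))) ≤
      ENNReal.ofReal (∑' n, f (N + n)) := by
    filter_upwards [eventually_ge_atTop N₀] with N hN
    rw [ENNReal.tsum_sigma', ENNReal.ofReal_tsum_of_nonneg (fun n => hf0 _)
      ((summable_nat_add_iff N).2 hfsum |>.congr fun n => by rw [add_comm])]
    refine ENNReal.tsum_le_tsum fun n => ?_
    rw [tsum_fintype]
    refine (Finset.sum_le_card_nsmul _ _ (ENNReal.ofReal (κ ^ (-s) * ((N + n : ℕ) : ℝ) ^ (-s)))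
      (fun m _ => by
        rw [ht]
        exact hgauge (N + n) (by omega) _)).trans (le_of_eq ?_)
    rw [hf]
    simp only [Finset.card_univ, nsmul_eq_mul]
    rw [ENNReal.ofReal_mul (Nat.cast_nonneg _), ENNReal.ofReal_natCast]
    congr 2
    simp
  refine le_antisymm (hmain.trans ?_) bot_le
  rw [← htail.liminf_eq]
  exact liminf_le_liminf hle

end Pool.Agent.D0H48.LD
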