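import Mathlib
import Pool.Agent.D0H48.LD.Gauge

/-!
Hausdorff measures with a power of the logarithm as the gauge function: the lower bound
-/

set_option autoImplicit false

open MeasureTheory Filter Topology Set
open scoped ENNReal NNReal

namespace Pool.Agent.D0H48.LD

/-- the number of separated points of an interval -/
theorem card_separated {ι : Type*} (A : Finset ι) (z : ι → ℝ) {δ ℓ x₀ : ℝ} (hδ : 0 < δ) (hℓ : 0 ≤ ℓ)
    (hz : ∀ a ∈ A, x₀ ≤ z a ∧ z a ≤ x₀ + ℓ)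
    (hsep : ∀ a ∈ A, ∀ b ∈ A, a ≠ b → δ ≤ |z a - z b|) : (A.card : ℝ) ≤ ℓ / δ + 1 := by
  have h1 : A.card ≤ (Finset.range (⌊ℓ / δ⌋₊ + 1)).card := by
    apply Finset.card_le_card_of_injOn (fun a => ⌊(z a - x₀) / δ⌋₊)
    · intro a ha
      obtain ⟨h2, h3⟩ := hz a ha
      have : ⌊(z a - x₀) / δ⌋₊ ≤ ⌊ℓ / δ⌋₊ := Nat.floor_le_floor (by
        apply div_le_div_of_nonneg_right _ hδ.le
        linarith)
      simp only [Finset.coe_range, Set.mem_Iio]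
      omega
    · intro a ha b hb hab
      by_contra hne
      have h2 := hsep a ha b hb hne
      obtain ⟨ha1, -⟩ := hz a ha
      obtain ⟨hb1, -⟩ := hz b hb
      have hab' : ⌊(z a - x₀) / δ⌋₊ = ⌊(z b - x₀) / δ⌋₊ := hab
      have f1 := Nat.floor_le (show 0 ≤ (z a - x₀) / δ from div_nonneg (by linarith) hδ.le)
      have f2 := Nat.lt_floor_add_one ((z a - x₀) / δ)
      have f3 := Nat.floor_le (show 0 ≤ (z b - x₀) / δ from div_nonneg (by linarith) hδ.le)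
      have f4 := Nat.lt_floor_add_one ((z b - x₀) / δ)
      rw [hab'] at f1 f2
      have h3 : |(z a - x₀) / δ - (z b - x₀) / δ| < 1 := by
        rw [abs_lt]
        constructor <;> linarith
      have h4 : (z a - x₀) / δ - (z b - x₀) / δ = (z a - z b) / δ := by ring
      rw [h4, abs_div, abs_of_pos hδ, div_lt_one hδ] at h3
      linarith
  rw [Finset.card_range] at h1
  have h2 : (⌊ℓ / δ⌋₊ : ℝ) ≤ ℓ / δ := Nat.floor_le (by positivity)
  have h3 : (A.card : ℝ) ≤ (⌊ℓ / δ⌋₊ : ℝ) + 1 := by exact_mod_cast h1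
  linarith

/-- `r (log (1 / r)) ^ s` is increasing for small `r` -/
theorem mono_aux {s r ρ : ℝ} (hs : 0 < s) (hr : 0 < r) (hrρ : r ≤ ρ) (hρ : s ≤ Real.log (1 / ρ)) :
    r / ρ ≤ Real.log (1 / r) ^ (-s) * Real.log (1 / ρ) ^ s := by
  have hρ0 : 0 < ρ := by linarith
  obtain ⟨S, hS⟩ : ∃ S : ℝ, S = Real.log (1 / ρ) := ⟨_, rfl⟩
  obtain ⟨R, hR⟩ : ∃ R : ℝ, R = Real.log (1 / r) := ⟨_, rfl⟩
  have hSR : S ≤ R := by
    rw [hS, hR]
    exact Real.log_le_log (by positivity) (one_div_le_one_div_of_le hr hrρ)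
  rw [← hS] at hρ ⊢
  rw [← hR]
  have hS0 : 0 < S := by linarith
  have hR0 : 0 < R := by linarith
  have hrR : r = Real.exp (-R) := by
    rw [hR, one_div, Real.log_inv, neg_neg, Real.exp_log hr]
  have hρS : ρ = Real.exp (-S) := by
    rw [hS, one_div, Real.log_inv, neg_neg, Real.exp_log hρ0]
  rw [hrR, hρS, ← Real.exp_sub, Real.rpow_neg hR0.le, inv_mul_eq_div, ← Real.div_rpow hS0.le hR0.le,
    Real.rpow_def_of_pos (by positivity), Real.exp_le_exp]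
  -- `-R + S ≤ log (S / R) s`
  have h1 : Real.log (R / S) ≤ R / S - 1 := Real.log_le_sub_one_of_pos (by positivity)
  have h2 : Real.log (S / R) = -Real.log (R / S) := by
    rw [← Real.log_inv, inv_div]
  rw [h2]
  have h3 : Real.log (R / S) * s ≤ (R / S - 1) * s := mul_le_mul_of_nonneg_right h1 hs.le
  have h4 : (R / S - 1) * s ≤ R - S := by
    have h5 : R / S - 1 = (R - S) / S := by field_simp
    rw [h5, div_mul_eq_mul_div, div_le_iff₀ hS0]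
    have : 0 ≤ R - S := by linarith
    nlinarith
  linarith

/-- a level of the Cantor set -/
structure Lev where
  /-- the number of intervals -/
  P : ℕ
  /-- the parameter -/
  Q : ℕ
  /-- the centres -/
  z : ℕ → ℝ
  /-- the radius -/
  ρ : ℝ
  /-- the distances of the centres -/
  δ : ℝ

/-- the level is in `[u, v]` -/
def Valid (u v : ℝ) (L : Lev) : Prop :=
  1 ≤ L.P ∧ 0 < L.ρ ∧ 4 * L.ρ ≤ L.δ ∧ (∀ a, a < L.P → u ≤ L.z a - L.ρ ∧ L.z a + L.ρ ≤ v) ∧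
    ∀ a b, a < L.P → b < L.P → a ≠ b → L.δ ≤ |L.z a - L.z b|

/-- the next level -/
def Step (𝓠 : Set ℕ) (F : ℕ → Set ℝ) (c lam s : ℝ) (t : ℕ) (L L' : Lev) : Prop :=
  ∃ M : ℕ, 1 ≤ M ∧ L'.P = L.P * M ∧ L'.Q ∈ 𝓠 ∧ L.Q < L'.Q ∧ L'.ρ = Real.exp (-(lam * L'.Q)) ∧
    L'.δ = c / (L'.Q : ℝ) ^ t ∧ (∀ a, a < L'.P → L'.z a ∈ F L'.Q ∧ |L'.z a - L.z (a / M)| ≤ L.ρ / 2) ∧
    L'.ρ ≤ L.ρ / 2 ∧ L'.δ ≤ L.δ / 2 ∧ (lam * L'.Q) ^ s ≤ L'.P ∧ s ≤ lam * L'.Q ∧
    c * L.ρ * (L'.Q : ℝ) ^ t ≤ 2 * M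

theorem exists_step {u v : ℝ} (𝓠 : Set ℕ) (h𝓠 : 𝓠.Infinite) (F : ℕ → Set ℝ) {c lam s : ℝ} {t : ℕ}
    (hc : 0 < c) (hlam : 0 < lam) (hs : 0 < s) (hst : s < t)
    (hF : ∀ x y : ℝ, u ≤ x → x < y → y ≤ v → ∃ Q₀ : ℕ, ∀ Q ∈ 𝓠, Q₀ ≤ Q → ∃ G : Finset ℝ,
      (∀ z ∈ G, z ∈ F Q ∧ x ≤ z ∧ z ≤ y) ∧ c * (y - x) * (Q : ℝ) ^ t ≤ G.card ∧
      ∀ z ∈ G, ∀ z' ∈ G, z ≠ z' → c / (Q : ℝ) ^ t ≤ |z - z'|)
    (L : Lev) (hL : Valid u v L) : ∃ L' : Lev, Valid u v L' ∧ Step 𝓠 F c lam s t L L' := by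
  classical
  obtain ⟨P, Q₁, z, ρ, δ⟩ := L
  obtain ⟨hP, hρ, hρδ, hz, hsep⟩ := hL
  simp only at hP hρ hρδ hz hsep
  -- the thresholds of the intervals
  have h1 : ∀ a : ℕ, ∃ Q₀ : ℕ, a < P → ∀ Q ∈ 𝓠, Q₀ ≤ Q → ∃ G : Finset ℝ,
      (∀ w ∈ G, w ∈ F Q ∧ z a - ρ / 2 ≤ w ∧ w ≤ z a + ρ / 2) ∧ c * ρ * (Q : ℝ) ^ t ≤ G.card ∧
      ∀ w ∈ G, ∀ w' ∈ G, w ≠ w' → c / (Q : ℝ) ^ t ≤ |w - w'| := by
    intro a
    by_cases ha : a < P
    · obtain ⟨h2, h3⟩ := hz a ha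
      obtain ⟨Q₀, hQ₀⟩ := hF (z a - ρ / 2) (z a + ρ / 2) (by linarith) (by linarith) (by linarith)
      refine ⟨Q₀, fun _ Q hQ hQQ => ?_⟩
      obtain ⟨G, hG1, hG2, hG3⟩ := hQ₀ Q hQ hQQ
      refine ⟨G, hG1, ?_, hG3⟩
      have h4 : z a + ρ / 2 - (z a - ρ / 2) = ρ := by ring
      rwa [h4] at hG2
    · exact ⟨0, fun h => absurd h ha⟩
  choose Q₀ hQ₀ using h1
  -- the limits
  have ht0 : 1 ≤ t := by
    rcases Nat.eq_zero_or_pos t with h | h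
    · rw [h] at hst
      norm_num at hst
      linarith
    · exact h
  have hts : 0 < (t : ℝ) - s := by linarith
  have hQt : Tendsto (fun Q : ℕ => (Q : ℝ)) atTop atTop := tendsto_natCast_atTop_atTop
  have hQpow : Tendsto (fun Q : ℕ => (Q : ℝ) ^ t) atTop atTop :=
    (tendsto_pow_atTop (by omega)).comp hQt
  have l1 : Tendsto (fun Q : ℕ => Real.exp (-(lam * Q))) atTop (𝓝 0) :=
    Real.tendsto_exp_neg_atTop_nhds_zero.comp (hQt.const_mul_atTop hlam)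
  have l2 : Tendsto (fun Q : ℕ => c / (Q : ℝ) ^ t) atTop (𝓝 0) := hQpow.const_div_atTop c
  have l3 : Tendsto (fun Q : ℕ => (Q : ℝ) ^ t * Real.exp (-(lam * Q))) atTop (𝓝 0) := by
    have := (Real.tendsto_pow_mul_exp_neg_atTop_nhds_zero t).comp (hQt.const_mul_atTop hlam)
    have h2 := this.const_mul ((lam ^ t)⁻¹)
    rw [mul_zero] at h2
    refine h2.congr fun Q => ?_
    simp only [Function.comp_apply]
    rw [mul_pow, ← mul_assoc, ← mul_assoc, inv_mul_cancel₀ (by positivity), one_mul]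
  have l4 : Tendsto (fun Q : ℕ => (Q : ℝ) ^ ((t : ℝ) - s)) atTop atTop :=
    (tendsto_rpow_atTop hts).comp hQt
  have ev : ∀ᶠ Q : ℕ in atTop, Real.exp (-(lam * Q)) ≤ ρ / 2 ∧ c / (Q : ℝ) ^ t ≤ δ / 2 ∧
      4 * ((Q : ℝ) ^ t * Real.exp (-(lam * Q))) ≤ c ∧ 2 * lam ^ s / (c * ρ) ≤ (Q : ℝ) ^ ((t : ℝ) - s) ∧
      2 ≤ c * ρ * (Q : ℝ) ^ t ∧ s ≤ lam * Q ∧ 1 ≤ Q ∧ Q₁ < Q ∧ ∀ a ∈ Finset.range P, Q₀ a ≤ Q := by
    have e1 := l1.eventually (ge_mem_nhds (show (0 : ℝ) < ρ / 2 by positivity))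
    have e2 := l2.eventually (ge_mem_nhds (show (0 : ℝ) < δ / 2 by linarith))
    have e3 := l3.eventually (ge_mem_nhds (show (0 : ℝ) < c / 4 by positivity))
    have e4 := l4.eventually_ge_atTop (2 * lam ^ s / (c * ρ))
    have e5 := (hQpow.const_mul_atTop (show 0 < c * ρ by positivity)).eventually_ge_atTop 2
    have e6 := (hQt.const_mul_atTop hlam).eventually_ge_atTop s
    have e7 : ∀ᶠ Q : ℕ in atTop, ∀ a ∈ Finset.range P, Q₀ a ≤ Q :=
      (Finset.eventually_all _).2 fun a _ => eventually_ge_atTop _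
    filter_upwards [e1, e2, e3, e4, e5, e6, e7, eventually_ge_atTop 1, eventually_gt_atTop Q₁] with
      Q g1 g2 g3 g4 g5 g6 g7 g8 g9
    exact ⟨g1, g2, by linarith, g4, g5, g6, g8, g9, g7⟩
  obtain ⟨Q₂, hQ₂⟩ := eventually_atTop.1 ev
  obtain ⟨Q, hQ𝓠, hQQ⟩ := h𝓠.exists_gt Q₂
  obtain ⟨g1, g2, g3, g4, g5, g6, g7, g8, g9⟩ := hQ₂ Q hQQ.le
  have hQ0 : (0 : ℝ) < Q := by exact_mod_cast g7
  have hQt0 : (0 : ℝ) < (Q : ℝ) ^ t := by positivity
  -- the number of children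
  obtain ⟨M, hM⟩ : ∃ M : ℕ, M = ⌊c * ρ * (Q : ℝ) ^ t⌋₊ := ⟨_, rfl⟩
  have hM1 : (M : ℝ) ≤ c * ρ * (Q : ℝ) ^ t := by rw [hM]; exact Nat.floor_le (by positivity)
  have hM2 : c * ρ * (Q : ℝ) ^ t < M + 1 := by rw [hM]; exact Nat.lt_floor_add_one _
  have hM3 : 1 ≤ M := by
    have : (1 : ℝ) < M := by linarith
    have h5 : 1 < M := by exact_mod_cast this
    omega
  have hM0 : (0 : ℝ) < M := by exact_mod_cast hM3
  have h2 : ∀ a : ℕ, ∃ e : ℕ → ℝ, a < P → (∀ i, i < M → e i ∈ F Q ∧ |e i - z a| ≤ ρ / 2) ∧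
      ∀ i j, i < M → j < M → i ≠ j → c / (Q : ℝ) ^ t ≤ |e i - e j| := by
    intro a
    by_cases ha : a < P
    · obtain ⟨G, hG1, hG2, hG3⟩ := hQ₀ a ha Q hQ𝓠 (g9 a (Finset.mem_range.2 ha))
      have hMG : M ≤ G.card := by
        have : (M : ℝ) ≤ G.card := hM1.trans hG2
        exact_mod_cast this
      refine ⟨fun i => if h : i < G.card then (G.equivFin.symm ⟨i, h⟩ : ℝ) else 0, fun _ => ⟨?_, ?_⟩⟩
      · intro i hi
        have hi' : i < G.card := by omega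
        simp only [dif_pos hi']
        obtain ⟨h5, h6, h7⟩ := hG1 _ (G.equivFin.symm ⟨i, hi'⟩).2
        refine ⟨h5, ?_⟩
        rw [abs_le]
        constructor <;> linarith
      · intro i j hi hj hij
        have hi' : i < G.card := by omega
        have hj' : j < G.card := by omega
        simp only [dif_pos hi', dif_pos hj']
        refine hG3 _ (G.equivFin.symm ⟨i, hi'⟩).2 _ (G.equivFin.symm ⟨j, hj'⟩).2 ?_
        intro h
        have h5 := G.equivFin.symm.injective (Subtype.ext h)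
        rw [Fin.mk.injEq] at h5
        exact hij h5
    · exact ⟨fun _ => 0, fun h => absurd h ha⟩
  choose e he using h2
  have hdiv : ∀ a, a < P * M → a / M < P := fun a ha => Nat.div_lt_of_lt_mul (by rwa [mul_comm])
  have hmod : ∀ a, a % M < M := fun a => Nat.mod_lt _ hM3
  refine ⟨⟨P * M, Q, fun a => e (a / M) (a % M), Real.exp (-(lam * Q)), c / (Q : ℝ) ^ t⟩,
    ⟨?_, ?_, ?_, ?_, ?_⟩, ⟨M, hM3, rfl, hQ𝓠, g8, rfl, rfl, ?_, g1, g2, ?_, g6, ?_⟩⟩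
  · exact Nat.mul_pos hP hM3
  · exact Real.exp_pos _
  · simp only
    rw [le_div_iff₀ hQt0]
    linarith
  · intro a ha
    simp only
    have ha' := hdiv a ha
    obtain ⟨h5, h6⟩ := hz _ ha'
    obtain ⟨-, h7⟩ := (he _ ha').1 _ (hmod a)
    rw [abs_le] at h7
    constructor <;> linarith
  · intro a b ha hb hab
    simp only
    have ha' := hdiv a ha
    have hb' := hdiv b hb
    by_cases hdd : a / M = b / M
    · have hmm : a % M ≠ b % M := by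
        intro h
        apply hab
        rw [← Nat.div_add_mod a M, ← Nat.div_add_mod b M, hdd, h]
      rw [hdd]
      exact (he _ hb').2 _ _ (hmod a) (hmod b) hmm
    · have h5 := hsep _ _ ha' hb' hdd
      obtain ⟨-, h6⟩ := (he _ ha').1 _ (hmod a)
      obtain ⟨-, h7⟩ := (he _ hb').1 _ (hmod b)
      have h8 : |z (a / M) - z (b / M)| ≤ |e (a / M) (a % M) - z (a / M)| +
          |e (a / M) (a % M) - e (b / M) (b % M)| + |e (b / M) (b % M) - z (b / M)| := by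
        have h9 : z (a / M) - z (b / M) = -(e (a / M) (a % M) - z (a / M)) +
          (e (a / M) (a % M) - e (b / M) (b % M)) + (e (b / M) (b % M) - z (b / M)) := by ring
        rw [h9]
        refine (abs_add_le _ _).trans ?_
        refine add_le_add_left ((abs_add_le _ _).trans ?_) _ |>.trans (le_of_eq rfl)
        rw [abs_neg]
      linarith
  · intro a ha
    simp only
    exact (he _ (hdiv a ha)).1 _ (hmod a)
  · -- `(lam Q) ^ s ≤ P M`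
    simp only
    have h5 : (lam * (Q : ℝ)) ^ s = lam ^ s * (Q : ℝ) ^ s := Real.mul_rpow hlam.le hQ0.le
    have h6 : (Q : ℝ) ^ t = (Q : ℝ) ^ ((t : ℝ) - s) * (Q : ℝ) ^ s := by
      rw [← Real.rpow_add hQ0, sub_add_cancel, Real.rpow_natCast]
    have h7 : 2 * lam ^ s ≤ c * ρ * (Q : ℝ) ^ ((t : ℝ) - s) := by
      rw [div_le_iff₀ (by positivity)] at g4
      linarith
    have h8 : 2 * (lam ^ s * (Q : ℝ) ^ s) ≤ c * ρ * (Q : ℝ) ^ t := by
      rw [h6]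
      have : 0 < (Q : ℝ) ^ s := Real.rpow_pos_of_pos hQ0 _
      nlinarith
    have h9 : c * ρ * (Q : ℝ) ^ t ≤ 2 * M := by linarith
    have h10 : (M : ℝ) ≤ ((P * M : ℕ) : ℝ) := by
      have : M ≤ P * M := Nat.le_mul_of_pos_left M hP
      exact_mod_cast this
    rw [h5]
    linarith
  · simp only
    linarith

end Pool.Agent.D0H48.LD
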