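import Mathlib
import Pool.Agent.D0H48.LD.Cantor

/-!
The lower bound with the critical exponent
-/

set_option autoImplicit false

open MeasureTheory Filter Topology Set
open scoped ENNReal NNReal

namespace Pool.Agent.D0H48.LD

theorem lacunary_sum {q : ℕ → ℝ} (hq0 : ∀ j, 0 < q j) (hq2 : ∀ j, 2 * q j ≤ q (j + 1)) {t : ℕ}
    (ht : 1 ≤ t) (S : Finset ℕ) {X : ℝ} (hX : 0 < X) (hS : ∀ j ∈ S, X ≤ q j) :
    ∑ j ∈ S, 1 / q j ^ t ≤ 2 / X ^ t := by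
  rcases S.eq_empty_or_nonempty with he | hne
  · rw [he, Finset.sum_empty]
    positivity
  obtain ⟨j₀, hj₀⟩ : ∃ j₀, j₀ = S.min' hne := ⟨_, rfl⟩
  have hj₀S : j₀ ∈ S := by rw [hj₀]; exact S.min'_mem hne
  have hge : ∀ j ∈ S, j₀ ≤ j := fun j hj => by rw [hj₀]; exact S.min'_le j hj
  have hpow : ∀ i : ℕ, 2 ^ i * q j₀ ≤ q (j₀ + i) := by
    intro i
    induction i with
    | zero => simp
    | succ i ih =>
      have := hq2 (j₀ + i)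
      rw [pow_succ]
      have h2 : j₀ + (i + 1) = j₀ + i + 1 := by ring
      rw [h2]
      linarith
  have h1 : ∀ j ∈ S, 1 / q j ^ t ≤ (1 / 2 : ℝ) ^ (j - j₀) * (1 / X ^ t) := by
    intro j hj
    obtain ⟨i, rfl⟩ := Nat.exists_eq_add_of_le (hge j hj)
    have h2 : 2 ^ i * X ≤ q (j₀ + i) :=
      (mul_le_mul_of_nonneg_left (hS j₀ hj₀S) (by positivity)).trans (hpow i)
    have h3 : (2 ^ i * X) ^ t ≤ q (j₀ + i) ^ t := pow_le_pow_left₀ (by positivity) h2 t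
    have h4 : (2 : ℝ) ^ i * X ^ t ≤ (2 ^ i * X) ^ t := by
      rw [mul_pow]
      apply mul_le_mul_of_nonneg_right _ (by positivity)
      have h5 : (1 : ℝ) ≤ 2 ^ i := one_le_pow₀ (by norm_num)
      calc (2 : ℝ) ^ i = (2 ^ i) ^ 1 := (pow_one _).symm
        _ ≤ (2 ^ i) ^ t := pow_le_pow_right₀ h5 ht
    rw [Nat.add_sub_cancel_left]
    calc 1 / q (j₀ + i) ^ t ≤ 1 / ((2 : ℝ) ^ i * X ^ t) :=
          one_div_le_one_div_of_le (by positivity) (h4.trans h3)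
      _ = (1 / 2 : ℝ) ^ i * (1 / X ^ t) := by
          rw [one_div_pow]
          field_simp
  refine (Finset.sum_le_sum h1).trans ?_
  rw [← Finset.sum_mul]
  have h2 : ∑ j ∈ S, (1 / 2 : ℝ) ^ (j - j₀) ≤ 2 := by
    have hinj : Set.InjOn (fun j => j - j₀) (S : Set ℕ) := by
      intro a ha b hb hab
      have h3 := hge a ha
      have h4 := hge b hb
      have hab' : a - j₀ = b - j₀ := hab
      omega
    rw [← Finset.sum_image (f := fun i => (1 / 2 : ℝ) ^ i) hinj]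
    refine (summable_geometric_two.sum_le_tsum _ fun i _ => by positivity).trans ?_
    rw [tsum_geometric_two]
  calc (∑ j ∈ S, (1 / 2 : ℝ) ^ (j - j₀)) * (1 / X ^ t) ≤ 2 * (1 / X ^ t) :=
        mul_le_mul_of_nonneg_right h2 (by positivity)
    _ = 2 / X ^ t := by ring

theorem exp_half_le (t : ℕ) {R : ℝ} (hR : 0 < R) :
    Real.exp (-(R / 2)) ≤ 2 ^ t * (t.factorial : ℝ) * (1 / R ^ t) := by
  have h1 := Real.pow_div_factorial_le_exp (R / 2) (by positivity) t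
  have h2 : 0 < (R / 2) ^ t / (t.factorial : ℝ) := by positivity
  rw [Real.exp_neg]
  calc (Real.exp (R / 2))⁻¹ ≤ ((R / 2) ^ t / (t.factorial : ℝ))⁻¹ := inv_anti₀ h2 h1
    _ = 2 ^ t * (t.factorial : ℝ) * (1 / R ^ t) := by
        rw [div_pow]
        field_simp

/-- an interval in `[u, v]`, given by its centre and its radius -/
def Ok (u v : ℝ) (J : ℝ × ℝ) : Prop := 0 < J.2 ∧ u ≤ J.1 - J.2 ∧ J.1 + J.2 ≤ v

/-- the data for the children of an interval -/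
structure Kids (u v : ℝ) (𝓠 : Set ℕ) (F : ℕ → Set ℝ) (c lam : ℝ) (t : ℕ) (B : ℝ) (J : ℝ × ℝ) (n : ℕ)
    (Q : ℕ → ℕ) (G : ℕ → Finset ℝ) : Prop where
  n1 : 1 ≤ n
  nB : B ≤ n * (c * J.2)
  Qm : ∀ j, Q j ∈ 𝓠
  Q1 : ∀ j, 1 ≤ Q j
  Q2 : ∀ j, 2 * Q j ≤ Q (j + 1)
  QJ : ∀ j, 1 / J.2 ≤ Q j
  r1 : ∀ j, Real.exp (-(lam * Q j)) ≤ J.2 / 2
  r2 : ∀ j, 4 * Real.exp (-(lam * Q j)) ≤ c / (Q j : ℝ) ^ t
  G1 : ∀ j, ∀ w ∈ G j, w ∈ F (Q j) ∧ |w - J.1| ≤ J.2 / 2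
  G2 : ∀ j, c * J.2 * (Q j : ℝ) ^ t ≤ (G j).card
  G3 : ∀ j, ∀ w ∈ G j, ∀ w' ∈ G j, w ≠ w' → c / (Q j : ℝ) ^ t ≤ |w - w'|

theorem exists_kids {u v : ℝ} (𝓠 : Set ℕ) (h𝓠 : 𝓠.Infinite) (F : ℕ → Set ℝ) {c lam : ℝ} {t : ℕ}
    (hc : 0 < c) (hlam : 0 < lam) (ht : 1 ≤ t)
    (hF : ∀ x y : ℝ, u ≤ x → x < y → y ≤ v → ∃ Q₀ : ℕ, ∀ Q ∈ 𝓠, Q₀ ≤ Q → ∃ G : Finset ℝ,
      (∀ z ∈ G, z ∈ F Q ∧ x ≤ z ∧ z ≤ y) ∧ c * (y - x) * (Q : ℝ) ^ t ≤ G.card ∧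
      ∀ z ∈ G, ∀ z' ∈ G, z ≠ z' → c / (Q : ℝ) ^ t ≤ |z - z'|) (B : ℝ)
    (J : ℝ × ℝ) (hJ : Ok u v J) : ∃ n Q G, Kids u v 𝓠 F c lam t B J n Q G := by
  classical
  obtain ⟨z, ρ⟩ := J
  obtain ⟨hρ, h1, h2⟩ := hJ
  simp only at hρ h1 h2
  obtain ⟨Q₀, hQ₀⟩ := hF (z - ρ / 2) (z + ρ / 2) (by linarith) (by linarith) (by linarith)
  have hQt : Tendsto (fun Q : ℕ => (Q : ℝ)) atTop atTop := tendsto_natCast_atTop_atTop
  have l1 : Tendsto (fun Q : ℕ => Real.exp (-(lam * Q))) atTop (𝓝 0) :=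
    Real.tendsto_exp_neg_atTop_nhds_zero.comp (hQt.const_mul_atTop hlam)
  have l3 : Tendsto (fun Q : ℕ => (Q : ℝ) ^ t * Real.exp (-(lam * Q))) atTop (𝓝 0) := by
    have := (Real.tendsto_pow_mul_exp_neg_atTop_nhds_zero t).comp (hQt.const_mul_atTop hlam)
    have h2 := this.const_mul ((lam ^ t)⁻¹)
    rw [mul_zero] at h2
    refine h2.congr fun Q => ?_
    simp only [Function.comp_apply]
    rw [mul_pow, ← mul_assoc, ← mul_assoc, inv_mul_cancel₀ (by positivity), one_mul]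
  have ev : ∀ᶠ Q : ℕ in atTop, Real.exp (-(lam * Q)) ≤ ρ / 2 ∧
      4 * ((Q : ℝ) ^ t * Real.exp (-(lam * Q))) ≤ c ∧ 1 / ρ ≤ Q ∧ 1 ≤ Q ∧ Q₀ ≤ Q := by
    have e1 := l1.eventually (ge_mem_nhds (show (0 : ℝ) < ρ / 2 by positivity))
    have e3 := l3.eventually (ge_mem_nhds (show (0 : ℝ) < c / 4 by positivity))
    filter_upwards [e1, e3, hQt.eventually_ge_atTop (1 / ρ), eventually_ge_atTop 1,
      eventually_ge_atTop Q₀] with Q g1 g2 g3 g4 g5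
    exact ⟨g1, by linarith, g3, g4, g5⟩
  obtain ⟨Q₁, hQ₁⟩ := eventually_atTop.1 ev
  have hnext : ∀ N : ℕ, ∃ Q ∈ 𝓠, N < Q := fun N => h𝓠.exists_gt N
  choose next hn1 hn2 using hnext
  obtain ⟨Q, hQ⟩ : ∃ Q : ℕ → ℕ, Q = fun j => Nat.rec (next Q₁) (fun _ q => next (2 * q + Q₁)) j :=
    ⟨_, rfl⟩
  have hQ0 : Q 0 = next Q₁ := by subst hQ; rfl
  have hQs : ∀ j, Q (j + 1) = next (2 * Q j + Q₁) := fun j => by subst hQ; rfl
  have hQm : ∀ j, Q j ∈ 𝓠 := by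
    intro j
    rcases j with _ | j
    · rw [hQ0]; exact hn1 _
    · rw [hQs]; exact hn1 _
  have hQge : ∀ j, Q₁ ≤ Q j := by
    intro j
    rcases j with _ | j
    · rw [hQ0]; exact (hn2 _).le
    · rw [hQs]
      have := hn2 (2 * Q j + Q₁)
      omega
  have hG : ∀ j, ∃ G : Finset ℝ, (∀ w ∈ G, w ∈ F (Q j) ∧ z - ρ / 2 ≤ w ∧ w ≤ z + ρ / 2) ∧
      c * (z + ρ / 2 - (z - ρ / 2)) * (Q j : ℝ) ^ t ≤ G.card ∧
      ∀ w ∈ G, ∀ w' ∈ G, w ≠ w' → c / (Q j : ℝ) ^ t ≤ |w - w'| := fun j =>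
    hQ₀ (Q j) (hQm j) (hQ₁ _ (hQge j)).2.2.2.2
  choose G hG1 hG2 hG3 using hG
  obtain ⟨n, hn⟩ := exists_nat_ge (max 1 (B / (c * ρ)))
  have hn1' : (1 : ℝ) ≤ n := (le_max_left _ _).trans hn
  have hnB : B / (c * ρ) ≤ n := (le_max_right _ _).trans hn
  refine ⟨n, Q, G, ?_⟩
  constructor
  · exact_mod_cast hn1'
  · rw [div_le_iff₀ (by positivity)] at hnB
    exact hnB
  · exact hQm
  · exact fun j => (hQ₁ _ (hQge j)).2.2.2.1
  · intro j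
    rw [hQs]
    have := hn2 (2 * Q j + Q₁)
    omega
  · exact fun j => (hQ₁ _ (hQge j)).2.2.1
  · exact fun j => (hQ₁ _ (hQge j)).1
  · intro j
    have h3 := (hQ₁ _ (hQge j)).2.1
    have h4 : 1 ≤ Q j := (hQ₁ _ (hQge j)).2.2.2.1
    have h5 : (0 : ℝ) < Q j := by exact_mod_cast h4
    rw [le_div_iff₀ (by positivity)]
    linarith
  · intro j w hw
    obtain ⟨h3, h4, h5⟩ := hG1 j w hw
    refine ⟨h3, ?_⟩
    simp only
    rw [abs_le]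
    constructor <;> linarith
  · intro j
    have h3 := hG2 j
    have h4 : z + ρ / 2 - (z - ρ / 2) = ρ := by ring
    rw [h4] at h3
    exact h3
  · exact hG3

/-- the average over the children -/
noncomputable def avg (lam : ℝ) (n : ℕ) (Q : ℕ → ℕ) (G : ℕ → Finset ℝ) (f : ℝ × ℝ → ℝ) : ℝ :=
  ∑ j ∈ Finset.range n, ∑ w ∈ G j, (1 / ((n : ℝ) * (G j).card)) * f (w, Real.exp (-(lam * Q j)))

section kids

variable {u v : ℝ} {𝓠 : Set ℕ} {F : ℕ → Set ℝ} {c lam : ℝ} {t : ℕ} {B : ℝ} {J : ℝ × ℝ} {n : ℕ}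
    {Q : ℕ → ℕ} {G : ℕ → Finset ℝ}

theorem Kids.card_pos (h : Kids u v 𝓠 F c lam t B J n Q G) (hc : 0 < c) (hJ : Ok u v J) (j : ℕ) :
    (0 : ℝ) < (G j).card := by
  have h1 := h.G2 j
  have h2 : (0 : ℝ) < Q j := by exact_mod_cast h.Q1 j
  have h3 := hJ.1
  have h4 : 0 < c * J.2 * (Q j : ℝ) ^ t := by positivity
  linarith

theorem Kids.ok (h : Kids u v 𝓠 F c lam t B J n Q G) (hJ : Ok u v J) {j : ℕ} {w : ℝ} (hw : w ∈ G j) :
    Ok u v (w, Real.exp (-(lam * Q j))) := by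
  obtain ⟨-, h1⟩ := h.G1 j w hw
  have h2 := h.r1 j
  obtain ⟨h3, h4, h5⟩ := hJ
  rw [abs_le] at h1
  refine ⟨Real.exp_pos _, ?_, ?_⟩
  · simp only
    linarith
  · simp only
    linarith

theorem Kids.sub (h : Kids u v 𝓠 F c lam t B J n Q G) {j : ℕ} {w : ℝ} (hw : w ∈ G j) :
    Metric.closedBall w (Real.exp (-(lam * Q j))) ⊆ Metric.closedBall J.1 J.2 := by
  intro x hx
  rw [Metric.mem_closedBall] at hx ⊢
  obtain ⟨-, h1⟩ := h.G1 j w hw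
  have h2 := h.r1 j
  rw [← Real.dist_eq] at h1
  have := dist_triangle x w J.1
  linarith

theorem Kids.avg_mono (_h : Kids u v 𝓠 F c lam t B J n Q G) {f g : ℝ × ℝ → ℝ}
    (hfg : ∀ j, ∀ w ∈ G j, f (w, Real.exp (-(lam * Q j))) ≤ g (w, Real.exp (-(lam * Q j)))) :
    avg lam n Q G f ≤ avg lam n Q G g := by
  unfold avg
  refine Finset.sum_le_sum fun j _ => Finset.sum_le_sum fun w hw => ?_
  exact mul_le_mul_of_nonneg_left (hfg j w hw) (by positivity)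

theorem Kids.avg_const (h : Kids u v 𝓠 F c lam t B J n Q G) (hc : 0 < c) (hJ : Ok u v J) (a : ℝ) :
    avg lam n Q G (fun _ => a) = a := by
  unfold avg
  have hn : (0 : ℝ) < n := by exact_mod_cast h.n1
  have h1 : ∀ j ∈ Finset.range n, ∑ w ∈ G j, (1 / ((n : ℝ) * (G j).card)) * a = a / n := by
    intro j _
    have h2 := h.card_pos hc hJ j
    rw [Finset.sum_const, nsmul_eq_mul]
    field_simp
  rw [Finset.sum_congr rfl h1, Finset.sum_const, Finset.card_range, nsmul_eq_mul]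
  field_simp

theorem Kids.avg_congr (h : Kids u v 𝓠 F c lam t B J n Q G) {f g : ℝ × ℝ → ℝ}
    (hfg : ∀ j, ∀ w ∈ G j, f (w, Real.exp (-(lam * Q j))) = g (w, Real.exp (-(lam * Q j)))) :
    avg lam n Q G f = avg lam n Q G g :=
  le_antisymm (h.avg_mono fun j w hw => (hfg j w hw).le) (h.avg_mono fun j w hw => (hfg j w hw).ge)

end kids

end Pool.Agent.D0H48.LD
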