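import Mathlib
import Pool.Agent.D0H48.LD.Crit

/-!
The lower bound with the critical exponent
-/

set_option autoImplicit false

open MeasureTheory Filter Topology Set
open scoped ENNReal NNReal

namespace Pool.Agent.D0H48.LD

open Classical in
/-- the proportion of the intervals of depth `d` below `J` which meet `U` -/
noncomputable def T (lam : ℝ) (n : ℝ × ℝ → ℕ) (Q : ℝ × ℝ → ℕ → ℕ) (G : ℝ × ℝ → ℕ → Finset ℝ)
    (U : Set ℝ) : ℕ → ℝ × ℝ → ℝ
  | 0, J => if (Metric.closedBall J.1 J.2 ∩ U).Nonempty then 1 else 0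
  | d + 1, J => avg lam (n J) (Q J) (G J) (T lam n Q G U d)

section tree

variable {u v : ℝ} {𝓠 : Set ℕ} {F : ℕ → Set ℝ} {c lam : ℝ} {t : ℕ} {B : ℝ}
    {n : ℝ × ℝ → ℕ} {Q : ℝ × ℝ → ℕ → ℕ} {G : ℝ × ℝ → ℕ → Finset ℝ}

theorem T_mem (hK : ∀ J, Ok u v J → Kids u v 𝓠 F c lam t B J (n J) (Q J) (G J)) (hc : 0 < c)
    (U : Set ℝ) (d : ℕ) : ∀ J, Ok u v J → 0 ≤ T lam n Q G U d J ∧ T lam n Q G U d J ≤ 1 := by
  classical
  induction d with
  | zero =>
    intro J _
    unfold T
    split_ifs <;> norm_num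
  | succ d ih =>
    intro J hJ
    unfold T
    have h := hK J hJ
    constructor
    · rw [← h.avg_const hc hJ 0]
      exact h.avg_mono fun j w hw => (ih _ (h.ok hJ hw)).1
    · rw [← h.avg_const hc hJ 1]
      exact h.avg_mono fun j w hw => (ih _ (h.ok hJ hw)).2

theorem T_empty (hK : ∀ J, Ok u v J → Kids u v 𝓠 F c lam t B J (n J) (Q J) (G J)) (hc : 0 < c)
    (U : Set ℝ) (d : ℕ) : ∀ J, Ok u v J → ¬ (Metric.closedBall J.1 J.2 ∩ U).Nonempty →
      T lam n Q G U d J = 0 := by
  classical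
  induction d with
  | zero =>
    intro J _ hne
    unfold T
    rw [if_neg hne]
  | succ d ih =>
    intro J hJ hne
    unfold T
    have h := hK J hJ
    rw [← h.avg_const hc hJ 0]
    refine h.avg_congr fun j w hw => ih _ (h.ok hJ hw) fun ⟨x, hx1, hx2⟩ => hne ⟨x, h.sub hw hx1, hx2⟩

theorem T_full (hK : ∀ J, Ok u v J → Kids u v 𝓠 F c lam t B J (n J) (Q J) (G J)) (hc : 0 < c)
    (U : Set ℝ) (d : ℕ) : ∀ J, Ok u v J → Metric.closedBall J.1 J.2 ⊆ U → T lam n Q G U d J = 1 := by
  classical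
  induction d with
  | zero =>
    intro J hJ hsub
    unfold T
    rw [if_pos ⟨J.1, Metric.mem_closedBall_self hJ.1.le, hsub (Metric.mem_closedBall_self hJ.1.le)⟩]
  | succ d ih =>
    intro J hJ hsub
    unfold T
    have h := hK J hJ
    rw [← h.avg_const hc hJ 1]
    exact h.avg_congr fun j w hw => ih _ (h.ok hJ hw) ((h.sub hw).trans hsub)

theorem T_anti (hK : ∀ J, Ok u v J → Kids u v 𝓠 F c lam t B J (n J) (Q J) (G J)) (hc : 0 < c)
    (U : Set ℝ) (d : ℕ) : ∀ J, Ok u v J → T lam n Q G U (d + 1) J ≤ T lam n Q G U d J := by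
  classical
  induction d with
  | zero =>
    intro J hJ
    by_cases hne : (Metric.closedBall J.1 J.2 ∩ U).Nonempty
    · have h1 : T lam n Q G U 0 J = 1 := by
        unfold T
        rw [if_pos hne]
      rw [h1]
      exact (T_mem hK hc U 1 J hJ).2
    · rw [T_empty hK hc U _ J hJ hne, T_empty hK hc U _ J hJ hne]
  | succ d ih =>
    intro J hJ
    have h := hK J hJ
    have h1 : T lam n Q G U (d + 1 + 1) J = avg lam (n J) (Q J) (G J) (T lam n Q G U (d + 1)) := rfl
    have h2 : T lam n Q G U (d + 1) J = avg lam (n J) (Q J) (G J) (T lam n Q G U d) := rfl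
    rw [h1, h2]
    exact h.avg_mono fun j w hw => ih _ (h.ok hJ hw)

/-- the estimate for one scale -/
theorem scale_le (hK : ∀ J, Ok u v J → Kids u v 𝓠 F c lam t B J (n J) (Q J) (G J)) (hc : 0 < c)
    (U : Set ℝ) (d : ℕ) {r : ℝ} (hr0 : 0 < r) (hU : ∀ p ∈ U, ∀ q ∈ U, |p - q| ≤ r)
    (J : ℝ × ℝ) (hJ : Ok u v J) (j : ℕ) {τ : ℝ} (hτ0 : 0 ≤ τ)
    (hτ : ∀ w ∈ G J j, T lam n Q G U d (w, Real.exp (-(lam * Q J j))) ≤ τ) :
    ∑ w ∈ G J j, (1 / ((n J : ℝ) * (G J j).card)) * T lam n Q G U d (w, Real.exp (-(lam * Q J j))) ≤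
      1 / n J * (6 / c ^ 2 * (r / J.2) + 1 / (c * J.2) * (τ * (1 / (Q J j : ℝ) ^ t))) := by
  classical
  have h := hK J hJ
  have hn0 : (0 : ℝ) < n J := by exact_mod_cast h.n1
  have hρ : 0 < J.2 := hJ.1
  have hG0 := h.card_pos hc hJ j
  have hq0 : (0 : ℝ) < Q J j := by exact_mod_cast h.Q1 j
  have hqt : (0 : ℝ) < (Q J j : ℝ) ^ t := by positivity
  obtain ⟨ρ', hρ'⟩ : ∃ ρ' : ℝ, ρ' = Real.exp (-(lam * Q J j)) := ⟨_, rfl⟩
  have hρ'0 : 0 < ρ' := by rw [hρ']; exact Real.exp_pos _
  obtain ⟨δ, hδ⟩ : ∃ δ : ℝ, δ = c / (Q J j : ℝ) ^ t := ⟨_, rfl⟩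
  have hδ0 : 0 < δ := by rw [hδ]; positivity
  have h4 : 4 * ρ' ≤ δ := by rw [hρ', hδ]; exact h.r2 j
  rw [← hρ'] at hτ ⊢
  -- the intervals which meet `U`
  obtain ⟨A, hA⟩ : ∃ A : Finset ℝ, A = (G J j).filter fun w => (Metric.closedBall w ρ' ∩ U).Nonempty :=
    ⟨_, rfl⟩
  have hAG : A ⊆ G J j := by rw [hA]; exact Finset.filter_subset _ _
  have hAdist : ∀ a ∈ A, ∀ b ∈ A, |a - b| ≤ r + 2 * ρ' := by
    intro a ha b hb
    rw [hA, Finset.mem_filter] at ha hb
    obtain ⟨-, x, hx1, hx2⟩ := ha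
    obtain ⟨-, y, hy1, hy2⟩ := hb
    have h5 := hU x hx2 y hy2
    rw [Metric.mem_closedBall, Real.dist_eq] at hx1 hy1
    have h6 : a - b = -(x - a) + (x - y) + (y - b) := by ring
    rw [h6]
    refine (abs_add_le _ _).trans ?_
    have h7 := abs_add_le (-(x - a)) (x - y)
    rw [abs_neg] at h7
    linarith
  have hsum : ∑ w ∈ G J j, T lam n Q G U d (w, ρ') = ∑ w ∈ A, T lam n Q G U d (w, ρ') := by
    symm
    apply Finset.sum_subset hAG
    intro w hw hwA
    apply T_empty hK hc U d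
    · have := h.ok hJ hw
      rwa [← hρ'] at this
    · intro hne
      apply hwA
      rw [hA, Finset.mem_filter]
      exact ⟨hw, hne⟩
  rw [← Finset.mul_sum, hsum]
  have hnn : ∀ w ∈ A, 0 ≤ T lam n Q G U d (w, ρ') ∧ T lam n Q G U d (w, ρ') ≤ 1 := by
    intro w hw
    apply T_mem hK hc U d
    have := h.ok hJ (hAG hw)
    rwa [← hρ'] at this
  have hG2 := h.G2 j
  -- the sum is at most `card G` times the bound
  have hkey : ∑ w ∈ A, T lam n Q G U d (w, ρ') ≤
      6 * r * (Q J j : ℝ) ^ t / c + τ := by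
    rcases le_or_gt δ (2 * r) with h5 | h5
    · have h6 : ∑ w ∈ A, T lam n Q G U d (w, ρ') ≤ A.card := by
        refine (Finset.sum_le_card_nsmul _ _ 1 fun w hw => (hnn w hw).2).trans (le_of_eq ?_)
        rw [nsmul_eq_mul, mul_one]
      have h7 : (A.card : ℝ) ≤ 6 * r / δ := by
        rcases A.eq_empty_or_nonempty with he | ⟨a₀, ha₀⟩
        · rw [he, Finset.card_empty, Nat.cast_zero]
          positivity
        · have h8 := card_separated A (fun w => w) (δ := δ) (ℓ := 2 * (r + 2 * ρ'))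
            (x₀ := a₀ - (r + 2 * ρ')) hδ0 (by positivity) (by
              intro a ha
              have h2 := hAdist a ha a₀ ha₀
              rw [abs_le] at h2
              constructor <;> linarith) (by
              intro a ha b hb hab
              rw [hδ]
              exact h.G3 j a (hAG ha) b (hAG hb) hab)
          refine h8.trans ?_
          rw [div_add_one hδ0.ne', div_le_div_iff_of_pos_right hδ0]
          linarith
      have h8 : 6 * r / δ = 6 * r * (Q J j : ℝ) ^ t / c := by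
        rw [hδ]
        field_simp
      rw [h8] at h7
      linarith
    · have h6 : A.card ≤ 1 := by
        rw [Finset.card_le_one]
        intro a ha b hb
        by_contra hne
        have h7 := hAdist a ha b hb
        have h8 := h.G3 j a (hAG ha) b (hAG hb) hne
        rw [← hδ] at h8
        linarith
      have h7 : ∑ w ∈ A, T lam n Q G U d (w, ρ') ≤ τ := by
        refine (Finset.sum_le_card_nsmul _ _ τ fun w hw => hτ w (hAG hw)).trans ?_
        rw [nsmul_eq_mul]
        have h8 : (A.card : ℝ) ≤ 1 := by exact_mod_cast h6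
        nlinarith
      have h8 : 0 ≤ 6 * r * (Q J j : ℝ) ^ t / c := by positivity
      linarith
  have h5 : 1 / ((n J : ℝ) * (G J j).card) ≤ 1 / (n J * (c * J.2 * (Q J j : ℝ) ^ t)) := by
    apply one_div_le_one_div_of_le (by positivity)
    exact mul_le_mul_of_nonneg_left hG2 hn0.le
  have h6 : 0 ≤ 6 * r * (Q J j : ℝ) ^ t / c + τ := by positivity
  calc 1 / ((n J : ℝ) * (G J j).card) * ∑ w ∈ A, T lam n Q G U d (w, ρ')
      ≤ 1 / ((n J : ℝ) * (G J j).card) * (6 * r * (Q J j : ℝ) ^ t / c + τ) :=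
        mul_le_mul_of_nonneg_left hkey (by positivity)
    _ ≤ 1 / (n J * (c * J.2 * (Q J j : ℝ) ^ t)) * (6 * r * (Q J j : ℝ) ^ t / c + τ) :=
        mul_le_mul_of_nonneg_right h5 h6
    _ = 1 / n J * (6 / c ^ 2 * (r / J.2) + 1 / (c * J.2) * (τ * (1 / (Q J j : ℝ) ^ t))) := by
        field_simp

/-- the constant -/
noncomputable def C3 (c lam κ : ℝ) (t : ℕ) : ℝ :=
  2 * lam ^ t + 6 / c ^ 2 * (2 * (2 ^ t * lam ^ t) + 2 * (2 ^ t * (t.factorial : ℝ)) + 2 * κ)

/-- the bound for the proportion -/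
theorem T_le {κ : ℝ} (hκ : 0 < κ) (hlam : 0 < lam) (ht : 1 ≤ t)
    (hB : B = max (C3 c lam κ t / (6 / c ^ 2 * κ)) 4)
    (hK : ∀ J, Ok u v J → Kids u v 𝓠 F c lam t B J (n J) (Q J) (G J)) (hc : 0 < c)
    (U : Set ℝ) {r : ℝ} (hr0 : 0 < r) (hr1 : r < 1) (hU : ∀ p ∈ U, ∀ q ∈ U, |p - q| ≤ r) (d : ℕ) :
    ∀ J, Ok u v J → T lam n Q G U d J ≤
      6 / c ^ 2 * (r / J.2 + κ * (1 / Real.log (1 / r) ^ t)) + (1 / 2) ^ d := by
  classical
  obtain ⟨R, hR⟩ : ∃ R : ℝ, R = Real.log (1 / r) := ⟨_, rfl⟩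
  have hR0 : 0 < R := by rw [hR]; exact Real.log_pos (by rw [lt_div_iff₀ hr0]; linarith)
  have hrR : r = Real.exp (-R) := by
    rw [hR, one_div, Real.log_inv, neg_neg, Real.exp_log hr0]
  rw [← hR]
  obtain ⟨h, hh⟩ : ∃ h : ℝ, h = 1 / R ^ t := ⟨_, rfl⟩
  have hh0 : 0 < h := by rw [hh]; positivity
  rw [← hh]
  obtain ⟨A, hA⟩ : ∃ A : ℝ, A = 6 / c ^ 2 := ⟨_, rfl⟩
  have hA0 : 0 < A := by rw [hA]; positivity
  rw [← hA]
  induction d with
  | zero =>
    intro J hJ
    have h1 := (T_mem hK hc U 0 J hJ).2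
    have h2 := hJ.1
    have h3 : 0 ≤ A * (r / J.2 + κ * h) := by positivity
    rw [pow_zero]
    linarith
  | succ d ih =>
    intro J hJ
    have hk := hK J hJ
    have hρ : 0 < J.2 := hJ.1
    have hn0 : (0 : ℝ) < n J := by exact_mod_cast hk.n1
    have hq1 : ∀ j, (1 : ℝ) ≤ Q J j := fun j => by exact_mod_cast hk.Q1 j
    have hq0 : ∀ j, (0 : ℝ) < Q J j := fun j => by have := hq1 j; linarith
    have hq2 : ∀ j, 2 * (Q J j : ℝ) ≤ Q J (j + 1) := fun j => by exact_mod_cast hk.Q2 j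
    have hT : T lam n Q G U (d + 1) J = ∑ j ∈ Finset.range (n J), ∑ w ∈ G J j,
        (1 / ((n J : ℝ) * (G J j).card)) * T lam n Q G U d (w, Real.exp (-(lam * Q J j))) := rfl
    -- the bound for the children
    obtain ⟨τ, hτ⟩ : ∃ τ : ℕ → ℝ, τ = fun j => (if R / lam ≤ Q J j then (1 : ℝ) else 0) +
        A * (if R / (2 * lam) ≤ Q J j then (1 : ℝ) else 0) +
        (A * Real.exp (-(R / 2)) + A * κ * h + (1 / 2) ^ d) := ⟨_, rfl⟩
    have hτ0 : ∀ j, 0 ≤ τ j := by
      intro j
      rw [hτ]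
      simp only
      have h1 : (0 : ℝ) ≤ if R / lam ≤ Q J j then (1 : ℝ) else 0 := by split_ifs <;> norm_num
      have h2 : (0 : ℝ) ≤ if R / (2 * lam) ≤ Q J j then (1 : ℝ) else 0 := by split_ifs <;> norm_num
      have h3 : 0 ≤ A * (if R / (2 * lam) ≤ Q J j then (1 : ℝ) else 0) := mul_nonneg hA0.le h2
      have h4 : 0 ≤ A * Real.exp (-(R / 2)) + A * κ * h + (1 / 2) ^ d := by positivity
      linarith
    have hτT : ∀ j, ∀ w ∈ G J j, T lam n Q G U d (w, Real.exp (-(lam * Q J j))) ≤ τ j := by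
      intro j w hw
      rw [hτ]
      simp only
      have h2 : (0 : ℝ) ≤ if R / (2 * lam) ≤ Q J j then (1 : ℝ) else 0 := by split_ifs <;> norm_num
      have h3 : 0 ≤ A * (if R / (2 * lam) ≤ Q J j then (1 : ℝ) else 0) := mul_nonneg hA0.le h2
      have hpos : 0 ≤ A * Real.exp (-(R / 2)) + A * κ * h + (1 / 2) ^ d := by positivity
      by_cases h1 : R / lam ≤ Q J j
      · rw [if_pos h1]
        have h4 := (T_mem hK hc U d _ (hk.ok hJ hw)).2
        linarith
      · rw [if_neg h1, zero_add]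
        have h4 := ih _ (hk.ok hJ hw)
        simp only at h4
        have h5 : r / Real.exp (-(lam * Q J j)) ≤
            (if R / (2 * lam) ≤ Q J j then (1 : ℝ) else 0) + Real.exp (-(R / 2)) := by
          have h6 : r / Real.exp (-(lam * Q J j)) = Real.exp (lam * Q J j - R) := by
            rw [hrR, ← Real.exp_sub]
            congr 1
            ring
          rw [h6]
          rw [not_le, lt_div_iff₀ hlam] at h1
          by_cases h7 : R / (2 * lam) ≤ Q J j
          · rw [if_pos h7]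
            have h8 : Real.exp (lam * Q J j - R) ≤ 1 := by
              rw [Real.exp_le_one_iff]
              linarith
            have := Real.exp_pos (-(R / 2))
            linarith
          · rw [if_neg h7, zero_add]
            apply Real.exp_le_exp.2
            rw [not_le, lt_div_iff₀ (by positivity)] at h7
            linarith
        have h6 : A * (r / Real.exp (-(lam * Q J j)) + κ * h) ≤
            A * (((if R / (2 * lam) ≤ Q J j then (1 : ℝ) else 0) + Real.exp (-(R / 2))) + κ * h) :=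
          mul_le_mul_of_nonneg_left (by linarith) hA0.le
        have h7 : A * (((if R / (2 * lam) ≤ Q J j then (1 : ℝ) else 0) + Real.exp (-(R / 2))) + κ * h) =
            A * (if R / (2 * lam) ≤ Q J j then (1 : ℝ) else 0) +
              (A * Real.exp (-(R / 2)) + A * κ * h) := by ring
        rw [h7] at h6
        linarith
    -- the sum of the bounds
    have hl1 : ∑ j ∈ Finset.range (n J), (if R / lam ≤ Q J j then (1 : ℝ) else 0) *
        (1 / (Q J j : ℝ) ^ t) ≤ 2 * lam ^ t * h := by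
      have h1 : ∑ j ∈ Finset.range (n J), (if R / lam ≤ Q J j then (1 : ℝ) else 0) *
          (1 / (Q J j : ℝ) ^ t) = ∑ j ∈ (Finset.range (n J)).filter (fun j => R / lam ≤ Q J j),
          1 / (Q J j : ℝ) ^ t := by
        rw [Finset.sum_filter]
        refine Finset.sum_congr rfl fun j _ => ?_
        split_ifs <;> ring
      rw [h1]
      refine (lacunary_sum hq0 hq2 ht _ (X := R / lam) (by positivity)
        (fun j hj => (Finset.mem_filter.1 hj).2)).trans (le_of_eq ?_)
      rw [hh, div_pow]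
      field_simp
    have hl2 : ∑ j ∈ Finset.range (n J), (if R / (2 * lam) ≤ Q J j then (1 : ℝ) else 0) *
        (1 / (Q J j : ℝ) ^ t) ≤ 2 * (2 ^ t * lam ^ t) * h := by
      have h1 : ∑ j ∈ Finset.range (n J), (if R / (2 * lam) ≤ Q J j then (1 : ℝ) else 0) *
          (1 / (Q J j : ℝ) ^ t) = ∑ j ∈ (Finset.range (n J)).filter (fun j => R / (2 * lam) ≤ Q J j),
          1 / (Q J j : ℝ) ^ t := by
        rw [Finset.sum_filter]
        refine Finset.sum_congr rfl fun j _ => ?_
        split_ifs <;> ring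
      rw [h1]
      refine (lacunary_sum hq0 hq2 ht _ (X := R / (2 * lam)) (by positivity)
        (fun j hj => (Finset.mem_filter.1 hj).2)).trans (le_of_eq ?_)
      rw [hh, div_pow, mul_pow]
      field_simp
    have hl3 : ∑ j ∈ Finset.range (n J), 1 / (Q J j : ℝ) ^ t ≤ 2 := by
      have := lacunary_sum hq0 hq2 ht (Finset.range (n J)) (X := 1) one_pos (fun j _ => hq1 j)
      rw [one_pow, div_one] at this
      exact this
    have hexp := exp_half_le t hR0
    rw [← hh] at hexp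
    have hsum : ∑ j ∈ Finset.range (n J), τ j * (1 / (Q J j : ℝ) ^ t) ≤
        C3 c lam κ t * h + 2 * (1 / 2) ^ d := by
      have h1 : ∑ j ∈ Finset.range (n J), τ j * (1 / (Q J j : ℝ) ^ t) =
          ∑ j ∈ Finset.range (n J), (if R / lam ≤ Q J j then (1 : ℝ) else 0) * (1 / (Q J j : ℝ) ^ t) +
          A * ∑ j ∈ Finset.range (n J), (if R / (2 * lam) ≤ Q J j then (1 : ℝ) else 0) *
            (1 / (Q J j : ℝ) ^ t) +
          (A * Real.exp (-(R / 2)) + A * κ * h + (1 / 2) ^ d) *
            ∑ j ∈ Finset.range (n J), 1 / (Q J j : ℝ) ^ t := by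
        rw [Finset.mul_sum, Finset.mul_sum, ← Finset.sum_add_distrib, ← Finset.sum_add_distrib]
        refine Finset.sum_congr rfl fun j _ => ?_
        rw [hτ]
        ring
      rw [h1]
      have h2 := mul_le_mul_of_nonneg_left hl2 hA0.le
      have h3 : (A * Real.exp (-(R / 2)) + A * κ * h + (1 / 2) ^ d) *
            ∑ j ∈ Finset.range (n J), 1 / (Q J j : ℝ) ^ t ≤
          (A * (2 ^ t * (t.factorial : ℝ) * h) + A * κ * h + (1 / 2) ^ d) * 2 := by
        apply mul_le_mul _ hl3 (Finset.sum_nonneg fun j _ => by have := hq0 j; positivity)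
          (by positivity)
        have := mul_le_mul_of_nonneg_left hexp hA0.le
        linarith
      have h4 : C3 c lam κ t * h + 2 * (1 / 2) ^ d = 2 * lam ^ t * h + A * (2 * (2 ^ t * lam ^ t) * h) +
          (A * (2 ^ t * (t.factorial : ℝ) * h) + A * κ * h + (1 / 2) ^ d) * 2 := by
        unfold C3
        rw [← hA]
        ring
      rw [h4]
      linarith
    -- the conclusion
    have hC30 : 0 < C3 c lam κ t := by unfold C3; positivity
    have hncρ : 0 < (n J : ℝ) * (c * J.2) := by positivity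
    have hB1 : C3 c lam κ t ≤ (n J * (c * J.2)) * (A * κ) := by
      have h1 : C3 c lam κ t / (6 / c ^ 2 * κ) ≤ n J * (c * J.2) := by
        refine le_trans ?_ hk.nB
        rw [hB]
        exact le_max_left _ _
      rw [← hA, div_le_iff₀ (by positivity)] at h1
      exact h1
    have hB2 : 4 ≤ (n J : ℝ) * (c * J.2) := by
      refine le_trans ?_ hk.nB
      rw [hB]
      exact le_max_right _ _
    rw [hT]
    calc ∑ j ∈ Finset.range (n J), ∑ w ∈ G J j,
        (1 / ((n J : ℝ) * (G J j).card)) * T lam n Q G U d (w, Real.exp (-(lam * Q J j)))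
        ≤ ∑ j ∈ Finset.range (n J), 1 / n J * (A * (r / J.2) +
            1 / (c * J.2) * (τ j * (1 / (Q J j : ℝ) ^ t))) := by
          refine Finset.sum_le_sum fun j _ => ?_
          rw [hA]
          exact scale_le hK hc U d hr0 hU J hJ j (hτ0 j) (hτT j)
      _ = A * (r / J.2) + 1 / (n J * (c * J.2)) * ∑ j ∈ Finset.range (n J),
            τ j * (1 / (Q J j : ℝ) ^ t) := by
          rw [← Finset.mul_sum, Finset.sum_add_distrib, Finset.sum_const, Finset.card_range,
            nsmul_eq_mul, ← Finset.mul_sum]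
          field_simp
      _ ≤ A * (r / J.2) + 1 / (n J * (c * J.2)) * (C3 c lam κ t * h + 2 * (1 / 2) ^ d) := by
          have := mul_le_mul_of_nonneg_left hsum (show 0 ≤ 1 / ((n J : ℝ) * (c * J.2)) by positivity)
          linarith
      _ ≤ A * (r / J.2 + κ * h) + (1 / 2) ^ (d + 1) := by
          have h1 : 1 / ((n J : ℝ) * (c * J.2)) * (C3 c lam κ t * h) ≤ A * κ * h := by
            rw [one_div, inv_mul_le_iff₀ hncρ]
            calc C3 c lam κ t * h ≤ (n J * (c * J.2)) * (A * κ) * h :=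
                  mul_le_mul_of_nonneg_right hB1 hh0.le
              _ = n J * (c * J.2) * (A * κ * h) := by ring
          have h2 : 1 / ((n J : ℝ) * (c * J.2)) * (2 * (1 / 2) ^ d) ≤ (1 / 2) ^ (d + 1) := by
            rw [one_div, inv_mul_le_iff₀ hncρ, pow_succ]
            have : (0 : ℝ) < (1 / 2) ^ d := by positivity
            nlinarith
          have h3 : A * (r / J.2 + κ * h) = A * (r / J.2) + A * κ * h := by ring
          rw [h3, mul_add]
          linarith

end tree

end Pool.Agent.D0H48.LD
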