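import Mathlib
import Pool.Agent.D0H48.LD.Gauge
import Pool.Agent.D0H48.LD.Crit2

/-!
The lower bound with the critical exponent
-/

set_option autoImplicit false

open MeasureTheory Filter Topology Set
open scoped ENNReal NNReal

namespace Pool.Agent.D0H48.LD

/-- the limit of the proportions -/
noncomputable def Tinf (lam : ℝ) (n : ℝ × ℝ → ℕ) (Q : ℝ × ℝ → ℕ → ℕ) (G : ℝ × ℝ → ℕ → Finset ℝ)
    (U : Set ℝ) (J : ℝ × ℝ) : ℝ := ⨅ d, T lam n Q G U d J

section tree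

variable {u v : ℝ} {𝓠 : Set ℕ} {F : ℕ → Set ℝ} {c lam : ℝ} {t : ℕ} {B : ℝ}
    {n : ℝ × ℝ → ℕ} {Q : ℝ × ℝ → ℕ → ℕ} {G : ℝ × ℝ → ℕ → Finset ℝ}

theorem tendsto_T (hK : ∀ J, Ok u v J → Kids u v 𝓠 F c lam t B J (n J) (Q J) (G J)) (hc : 0 < c)
    (U : Set ℝ) (J : ℝ × ℝ) (hJ : Ok u v J) :
    Tendsto (fun d => T lam n Q G U d J) atTop (𝓝 (Tinf lam n Q G U J)) :=
  tendsto_atTop_ciInf (antitone_nat_of_succ_le fun d => T_anti hK hc U d J hJ)
    ⟨0, by rintro x ⟨d, rfl⟩; exact (T_mem hK hc U d J hJ).1⟩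

theorem Tinf_nonneg (hK : ∀ J, Ok u v J → Kids u v 𝓠 F c lam t B J (n J) (Q J) (G J)) (hc : 0 < c)
    (U : Set ℝ) (J : ℝ × ℝ) (hJ : Ok u v J) : 0 ≤ Tinf lam n Q G U J :=
  ge_of_tendsto' (tendsto_T hK hc U J hJ) fun d => (T_mem hK hc U d J hJ).1

theorem Tinf_full (hK : ∀ J, Ok u v J → Kids u v 𝓠 F c lam t B J (n J) (Q J) (G J)) (hc : 0 < c)
    (U : Set ℝ) (J : ℝ × ℝ) (hJ : Ok u v J) (hsub : Metric.closedBall J.1 J.2 ⊆ U) :
    Tinf lam n Q G U J = 1 := by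
  have h := tendsto_T hK hc U J hJ
  have h2 : (fun d => T lam n Q G U d J) = fun _ => 1 := funext fun d => T_full hK hc U d J hJ hsub
  rw [h2] at h
  exact (tendsto_nhds_unique h tendsto_const_nhds)

theorem Tinf_avg (hK : ∀ J, Ok u v J → Kids u v 𝓠 F c lam t B J (n J) (Q J) (G J)) (hc : 0 < c)
    (U : Set ℝ) (J : ℝ × ℝ) (hJ : Ok u v J) :
    Tinf lam n Q G U J = avg lam (n J) (Q J) (G J) (Tinf lam n Q G U) := by
  have h1 := (tendsto_add_atTop_iff_nat 1).2 (tendsto_T hK hc U J hJ)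
  refine tendsto_nhds_unique h1 ?_
  have hk := hK J hJ
  show Tendsto (fun d => avg lam (n J) (Q J) (G J) (T lam n Q G U d)) atTop _
  unfold avg
  refine tendsto_finsetSum _ fun j _ => tendsto_finsetSum _ fun w hw => ?_
  exact (tendsto_T hK hc U _ (hk.ok hJ hw)).const_mul _

theorem Tinf_le {κ : ℝ} (hκ : 0 < κ) (hlam : 0 < lam) (ht : 1 ≤ t)
    (hB : B = max (C3 c lam κ t / (6 / c ^ 2 * κ)) 4)
    (hK : ∀ J, Ok u v J → Kids u v 𝓠 F c lam t B J (n J) (Q J) (G J)) (hc : 0 < c)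
    (U : Set ℝ) {r : ℝ} (hr0 : 0 < r) (hr1 : r < 1) (hU : ∀ p ∈ U, ∀ q ∈ U, |p - q| ≤ r)
    (J : ℝ × ℝ) (hJ : Ok u v J) : Tinf lam n Q G U J ≤
      6 / c ^ 2 * (r / J.2 + κ * (1 / Real.log (1 / r) ^ t)) := by
  have h1 := tendsto_T hK hc U J hJ
  have h2 : Tendsto (fun d : ℕ => 6 / c ^ 2 * (r / J.2 + κ * (1 / Real.log (1 / r) ^ t)) +
      (1 / 2 : ℝ) ^ d) atTop (𝓝 (6 / c ^ 2 * (r / J.2 + κ * (1 / Real.log (1 / r) ^ t)) + 0)) :=
    (tendsto_pow_atTop_nhds_zero_of_lt_one (by norm_num) (by norm_num)).const_add _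
  rw [add_zero] at h2
  exact le_of_tendsto_of_tendsto' h1 h2 fun d => T_le hκ hlam ht hB hK hc U hr0 hr1 hU d J hJ

/-- the potential of a cover -/
noncomputable def Phi (lam : ℝ) (n : ℝ × ℝ → ℕ) (Q : ℝ × ℝ → ℕ → ℕ) (G : ℝ × ℝ → ℕ → Finset ℝ)
    (U : ℕ → Set ℝ) (J : ℝ × ℝ) : ℝ≥0∞ := ∑' i, ENNReal.ofReal (Tinf lam n Q G (U i) J)

theorem Phi_child (hK : ∀ J, Ok u v J → Kids u v 𝓠 F c lam t B J (n J) (Q J) (G J)) (hc : 0 < c)
    (U : ℕ → Set ℝ) (J : ℝ × ℝ) (hJ : Ok u v J) (hPhi : Phi lam n Q G U J < 1) :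
    ∃ j, ∃ w ∈ G J j, Phi lam n Q G U (w, Real.exp (-(lam * Q J j))) < 1 := by
  by_contra hcon
  push Not at hcon
  have hk := hK J hJ
  have h1 : Phi lam n Q G U J = ∑ j ∈ Finset.range (n J), ∑ w ∈ G J j,
      ENNReal.ofReal (1 / ((n J : ℝ) * (G J j).card)) *
        Phi lam n Q G U (w, Real.exp (-(lam * Q J j))) := by
    unfold Phi
    have h2 : ∀ i, ENNReal.ofReal (Tinf lam n Q G (U i) J) = ∑ j ∈ Finset.range (n J), ∑ w ∈ G J j,
        ENNReal.ofReal (1 / ((n J : ℝ) * (G J j).card)) *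
          ENNReal.ofReal (Tinf lam n Q G (U i) (w, Real.exp (-(lam * Q J j)))) := by
      intro i
      rw [Tinf_avg hK hc (U i) J hJ]
      unfold avg
      have hnn : ∀ j, ∀ w ∈ G J j, 0 ≤ 1 / ((n J : ℝ) * (G J j).card) *
          Tinf lam n Q G (U i) (w, Real.exp (-(lam * Q J j))) := fun j w hw =>
        mul_nonneg (by positivity) (Tinf_nonneg hK hc _ _ (hk.ok hJ hw))
      have e1 := ENNReal.ofReal_sum_of_nonneg (s := Finset.range (n J))
        (f := fun j => ∑ w ∈ G J j, 1 / ((n J : ℝ) * (G J j).card) *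
          Tinf lam n Q G (U i) (w, Real.exp (-(lam * Q J j))))
        (fun j _ => Finset.sum_nonneg fun w hw => hnn j w hw)
      rw [e1]
      refine Finset.sum_congr rfl fun j _ => ?_
      rw [ENNReal.ofReal_sum_of_nonneg fun w hw => hnn j w hw]
      refine Finset.sum_congr rfl fun w _ => ?_
      rw [ENNReal.ofReal_mul (by positivity)]
    simp only [h2]
    rw [Summable.tsum_finsetSum fun j _ => ENNReal.summable]
    refine Finset.sum_congr rfl fun j _ => ?_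
    rw [Summable.tsum_finsetSum fun j _ => ENNReal.summable]
    refine Finset.sum_congr rfl fun w _ => ?_
    rw [ENNReal.tsum_mul_left]
  have h3 : (1 : ℝ≥0∞) = ∑ j ∈ Finset.range (n J), ∑ w ∈ G J j,
      ENNReal.ofReal (1 / ((n J : ℝ) * (G J j).card)) := by
    have h4 := hk.avg_const hc hJ 1
    unfold avg at h4
    simp only [mul_one] at h4
    have hnn : ∀ j, ∀ w ∈ G J j, 0 ≤ 1 / ((n J : ℝ) * (G J j).card) := fun j w _ => by positivity
    have e1 := ENNReal.ofReal_sum_of_nonneg (s := Finset.range (n J))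
        (f := fun j => ∑ w ∈ G J j, 1 / ((n J : ℝ) * (G J j).card))
        (fun j _ => Finset.sum_nonneg fun w hw => hnn j w hw)
    calc (1 : ℝ≥0∞) = ENNReal.ofReal 1 := ENNReal.ofReal_one.symm
      _ = ENNReal.ofReal (∑ j ∈ Finset.range (n J), ∑ w ∈ G J j,
          1 / ((n J : ℝ) * (G J j).card)) := by rw [h4]
      _ = _ := by
        rw [e1]
        exact Finset.sum_congr rfl fun j _ => ENNReal.ofReal_sum_of_nonneg fun w hw => hnn j w hw
  have h5 : (1 : ℝ≥0∞) ≤ Phi lam n Q G U J := by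
    rw [h1, h3]
    refine Finset.sum_le_sum fun j _ => Finset.sum_le_sum fun w hw => ?_
    calc ENNReal.ofReal (1 / ((n J : ℝ) * (G J j).card)) =
        ENNReal.ofReal (1 / ((n J : ℝ) * (G J j).card)) * 1 := (mul_one _).symm
      _ ≤ _ := by gcongr; exact hcon j w hw
  exact absurd hPhi (not_lt.2 h5)

/-- the potential of a cover of `E` is at least one -/
theorem one_le_Phi (hK : ∀ J, Ok u v J → Kids u v 𝓠 F c lam t B J (n J) (Q J) (G J)) (hc : 0 < c)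
    (E : Set ℝ)
    (hE : ∀ x : ℝ, u ≤ x → x ≤ v → (∀ k : ℕ, ∃ Q ∈ 𝓠, k ≤ Q ∧ ∃ z ∈ F Q, |x - z| ≤
      Real.exp (-(lam * Q))) → x ∈ E)
    (U : ℕ → Set ℝ) (hUo : ∀ i, IsOpen (U i)) (hcov : E ∩ Icc u v ⊆ ⋃ i, U i)
    (J₀ : ℝ × ℝ) (hJ₀ : Ok u v J₀) : 1 ≤ Phi lam n Q G U J₀ := by
  by_contra hcon
  rw [not_le] at hcon
  -- the nested intervals
  have hstep : ∀ J : {J : ℝ × ℝ // Ok u v J ∧ Phi lam n Q G U J < 1},
      ∃ J' : {J : ℝ × ℝ // Ok u v J ∧ Phi lam n Q G U J < 1}, ∃ j, ∃ w ∈ G J.1 j,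
        J'.1 = (w, Real.exp (-(lam * Q J.1 j))) := by
    rintro ⟨J, hJ1, hJ2⟩
    obtain ⟨j, w, hw, h1⟩ := Phi_child hK hc U J hJ1 hJ2
    exact ⟨⟨_, (hK J hJ1).ok hJ1 hw, h1⟩, j, w, hw, rfl⟩
  choose next hnext using hstep
  let Js : ℕ → {J : ℝ × ℝ // Ok u v J ∧ Phi lam n Q G U J < 1} := fun k =>
    Nat.rec ⟨J₀, hJ₀, hcon⟩ (fun _ J => next J) k
  have hJs : ∀ k, ∃ j, ∃ w ∈ G (Js k).1 j, (Js (k + 1)).1 = (w, Real.exp (-(lam * Q (Js k).1 j))) :=
    fun k => hnext (Js k)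
  obtain ⟨z, hz⟩ : ∃ z : ℕ → ℝ, z = fun k => (Js k).1.1 := ⟨_, rfl⟩
  obtain ⟨ρ, hρ⟩ : ∃ ρ : ℕ → ℝ, ρ = fun k => (Js k).1.2 := ⟨_, rfl⟩
  have hok : ∀ k, Ok u v (z k, ρ k) := fun k => by rw [hz, hρ]; exact (Js k).2.1
  have hphi : ∀ k, Phi lam n Q G U (z k, ρ k) < 1 := fun k => by rw [hz, hρ]; exact (Js k).2.2
  have hρ0 : ∀ k, 0 < ρ k := fun k => (hok k).1
  have hnx : ∀ k, ∃ q ∈ 𝓠, 1 / ρ k ≤ q ∧ z (k + 1) ∈ F q ∧ ρ (k + 1) = Real.exp (-(lam * q)) ∧
      |z (k + 1) - z k| ≤ ρ k / 2 ∧ ρ (k + 1) ≤ ρ k / 2 := by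
    intro k
    obtain ⟨j, w, hw, h1⟩ := hJs k
    have hk := hK (Js k).1 (Js k).2.1
    have h2 : z (k + 1) = w := by rw [hz]; simp only; rw [h1]
    have h3 : ρ (k + 1) = Real.exp (-(lam * Q (Js k).1 j)) := by rw [hρ]; simp only; rw [h1]
    have h4 : ρ k = (Js k).1.2 := by rw [hρ]
    have h5 : z k = (Js k).1.1 := by rw [hz]
    refine ⟨Q (Js k).1 j, hk.Qm j, ?_, ?_, h3, ?_, ?_⟩
    · rw [h4]; exact hk.QJ j
    · rw [h2]; exact (hk.G1 j w hw).1
    · rw [h2, h4, h5]; exact (hk.G1 j w hw).2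
    · rw [h3, h4]; exact hk.r1 j
  have hz1 : ∀ k, |z (k + 1) - z k| ≤ ρ k / 2 := fun k => by
    obtain ⟨q, -, -, -, -, h, -⟩ := hnx k
    exact h
  have hρ1 : ∀ k, ρ (k + 1) ≤ ρ k / 2 := fun k => by
    obtain ⟨q, -, -, -, -, -, h⟩ := hnx k
    exact h
  have hρk : ∀ k, ρ k ≤ ρ 0 * (1 / 2) ^ k := by
    intro k
    induction k with
    | zero => simp
    | succ k ih =>
      have := hρ1 k
      rw [pow_succ]
      linarith
  have hρlim : Tendsto ρ atTop (𝓝 0) := by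
    refine squeeze_zero (fun k => (hρ0 k).le) hρk ?_
    have := (tendsto_pow_atTop_nhds_zero_of_lt_one (show (0 : ℝ) ≤ 1 / 2 by norm_num)
      (by norm_num)).const_mul (ρ 0)
    simpa using this
  have hz2 : ∀ k j, |z (k + j) - z k| ≤ ρ k - ρ (k + j) := by
    intro k j
    induction j with
    | zero => simp
    | succ j ih =>
      have h1 := hz1 (k + j)
      have h2 := hρ1 (k + j)
      have h3 : |z (k + (j + 1)) - z k| ≤ |z (k + j + 1) - z (k + j)| + |z (k + j) - z k| := by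
        have : z (k + (j + 1)) - z k = (z (k + j + 1) - z (k + j)) + (z (k + j) - z k) := by
          rw [← add_assoc]
          ring
        rw [this]
        exact abs_add_le _ _
      have h4 : ρ (k + (j + 1)) = ρ (k + j + 1) := by rw [add_assoc]
      rw [h4]
      linarith
  obtain ⟨x, hx⟩ : ∃ x, Tendsto z atTop (𝓝 x) := by
    apply cauchySeq_tendsto_of_complete
    refine cauchySeq_of_le_geometric (1 / 2) (ρ 0) (by norm_num) fun k => ?_
    rw [dist_comm, Real.dist_eq]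
    have h1 := hz1 k
    have h2 := hρk k
    have h3 := hρ0 k
    linarith
  have hxz : ∀ k, |x - z k| ≤ ρ k := by
    intro k
    have h1 : Tendsto (fun j => |z (k + j) - z k|) atTop (𝓝 |x - z k|) := by
      have h2 : Tendsto (fun j => z (k + j)) atTop (𝓝 x) := by
        have := (tendsto_add_atTop_iff_nat (f := z) k).2 hx
        refine this.congr fun j => ?_
        rw [add_comm]
      exact (h2.sub_const _).abs
    refine le_of_tendsto h1 (Eventually.of_forall fun j => ?_)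
    have h2 := hz2 k j
    have h3 := hρ0 (k + j)
    linarith
  have hxE : x ∈ E ∩ Icc u v := by
    have h1 := hxz 0
    obtain ⟨-, h2, h3⟩ := hok 0
    simp only at h2 h3
    rw [abs_le] at h1
    have h4 : u ≤ x := by linarith [h1.1]
    have h5 : x ≤ v := by linarith [h1.2]
    refine ⟨hE x h4 h5 fun K => ?_, h4, h5⟩
    obtain ⟨k, hk⟩ := (hρlim.eventually (ge_mem_nhds (show (0 : ℝ) < 1 / ((K : ℝ) + 1) by
      positivity))).exists
    obtain ⟨q, hq1, hq2, hq3, hq4, -, -⟩ := hnx k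
    refine ⟨q, hq1, ?_, z (k + 1), hq3, ?_⟩
    · have h6 : (K : ℝ) + 1 ≤ 1 / ρ k := by
        rw [le_div_iff₀ (hρ0 k)]
        rw [le_div_iff₀ (by positivity)] at hk
        linarith
      have h7 : (K : ℝ) ≤ q := by linarith
      exact_mod_cast h7
    · rw [← hq4]
      exact hxz (k + 1)
  obtain ⟨i, hi⟩ := mem_iUnion.1 (hcov hxE)
  obtain ⟨ε, hε, hball⟩ := Metric.isOpen_iff.1 (hUo i) x hi
  obtain ⟨k, hk⟩ := (hρlim.eventually (ge_mem_nhds (show (0 : ℝ) < ε / 3 by positivity))).exists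
  have hsub : Metric.closedBall (z k) (ρ k) ⊆ U i := by
    intro y hy
    apply hball
    rw [Metric.mem_closedBall] at hy
    rw [Metric.mem_ball]
    have h1 := hxz k
    rw [← Real.dist_eq] at h1
    have h2 := dist_triangle_right y x (z k)
    linarith
  have h1 := Tinf_full hK hc (U i) (z k, ρ k) (hok k) hsub
  have h2 : (1 : ℝ≥0∞) ≤ Phi lam n Q G U (z k, ρ k) := by
    unfold Phi
    refine le_trans ?_ (ENNReal.le_tsum i)
    rw [h1, ENNReal.ofReal_one]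
  exact absurd (hphi k) (not_lt.2 h2)

end tree

/-- the lower bound with the critical exponent -/
theorem gauge_top_crit {u v : ℝ} (huv : u < v) (𝓠 : Set ℕ) (h𝓠 : 𝓠.Infinite) (F : ℕ → Set ℝ)
    {c lam : ℝ} {t : ℕ} (hc : 0 < c) (hlam : 0 < lam) (ht : 1 ≤ t)
    (hF : ∀ x y : ℝ, u ≤ x → x < y → y ≤ v → ∃ Q₀ : ℕ, ∀ Q ∈ 𝓠, Q₀ ≤ Q → ∃ G : Finset ℝ,
      (∀ z ∈ G, z ∈ F Q ∧ x ≤ z ∧ z ≤ y) ∧ c * (y - x) * (Q : ℝ) ^ t ≤ G.card ∧
      ∀ z ∈ G, ∀ z' ∈ G, z ≠ z' → c / (Q : ℝ) ^ t ≤ |z - z'|) (E : Set ℝ)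
    (hE : ∀ x : ℝ, u ≤ x → x ≤ v → (∀ k : ℕ, ∃ Q ∈ 𝓠, k ≤ Q ∧ ∃ z ∈ F Q, |x - z| ≤
      Real.exp (-(lam * Q))) → x ∈ E) :
    Measure.mkMetric (gauge t) (E ∩ Icc u v) = ⊤ := by
  classical
  refine ENNReal.eq_top_of_forall_nnreal_le fun K => ?_
  obtain ⟨A, hA⟩ : ∃ A : ℝ, A = 6 / c ^ 2 := ⟨_, rfl⟩
  have hA0 : 0 < A := by rw [hA]; positivity
  obtain ⟨κ, hκ⟩ : ∃ κ : ℝ, κ = 1 / (8 * A * (K + 1)) := ⟨_, rfl⟩
  have hK0 : (0 : ℝ) ≤ K := K.2
  have hκ0 : 0 < κ := by rw [hκ]; positivity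
  -- the tree
  obtain ⟨B, hB⟩ : ∃ B : ℝ, B = max (C3 c lam κ t / (6 / c ^ 2 * κ)) 4 := ⟨_, rfl⟩
  have hkids : ∀ J : ℝ × ℝ, ∃ (n : ℕ) (Q : ℕ → ℕ) (G : ℕ → Finset ℝ), Ok u v J →
      Kids u v 𝓠 F c lam t B J n Q G := by
    intro J
    by_cases hJ : Ok u v J
    · obtain ⟨n, Q, G, h⟩ := exists_kids 𝓠 h𝓠 F hc hlam ht hF B J hJ
      exact ⟨n, Q, G, fun _ => h⟩
    · exact ⟨0, fun _ => 0, fun _ => ∅, fun h => absurd h hJ⟩
  choose n Q G hKids using hkids
  obtain ⟨ρ₀, hρ₀⟩ : ∃ ρ₀ : ℝ, ρ₀ = (v - u) / 2 := ⟨_, rfl⟩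
  have hρ₀0 : 0 < ρ₀ := by rw [hρ₀]; linarith
  have hJ₀ : Ok u v ((u + v) / 2, ρ₀) := by
    refine ⟨hρ₀0, ?_, ?_⟩
    · simp only
      rw [hρ₀]
      linarith
    · simp only
      rw [hρ₀]
      linarith
  -- `h`
  obtain ⟨h, hh⟩ : ∃ h : ℝ → ℝ, h = fun r => 1 / Real.log (1 / r) ^ t := ⟨_, rfl⟩
  have hlogtop : Tendsto (fun r : ℝ => Real.log (1 / r)) (𝓝[>] 0) atTop := by
    have h1 : Tendsto (fun r : ℝ => 1 / r) (𝓝[>] 0) atTop := by
      simp only [one_div]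
      exact tendsto_inv_nhdsGT_zero
    exact Real.tendsto_log_atTop.comp h1
  have hh_lim : Tendsto h (𝓝[>] 0) (𝓝 0) := by
    rw [hh]
    exact ((tendsto_pow_atTop (by omega)).comp hlogtop).const_div_atTop 1
  have hr_lim : Tendsto (fun r : ℝ => r * Real.log (1 / r) ^ t) (𝓝[>] 0) (𝓝 0) := by
    have h1 := (Real.tendsto_pow_mul_exp_neg_atTop_nhds_zero t).comp hlogtop
    refine (h1.congr' ?_)
    filter_upwards [self_mem_nhdsWithin] with r hr
    have hr0 : (0 : ℝ) < r := hr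
    simp only [Function.comp_apply]
    rw [one_div, Real.log_inv, neg_neg, Real.exp_log hr0]
    ring
  -- a small `ε`
  obtain ⟨ε, hε0, hε1, hεp⟩ : ∃ ε : ℝ, 0 < ε ∧ ε < 1 / 4 ∧ ∀ r : ℝ, 0 < r → r ≤ ε →
      6 / c ^ 2 * (2 * r / ρ₀ + κ * h (2 * r)) ≤ 4 * A * κ * h r := by
    have e1 := hr_lim.eventually (ge_mem_nhds (show (0 : ℝ) < κ * ρ₀ by positivity))
    have e2 := hlogtop.eventually_ge_atTop (2 * Real.log 2 * t)
    have e3 := hlogtop.eventually_ge_atTop (2 * Real.log 2)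
    obtain ⟨ε, hε, hε2⟩ := (mem_nhdsGT_iff_exists_Ioo_subset).1 (e1.and (e2.and e3))
    obtain ⟨ε', hε', hε'2⟩ := exists_between (show (0 : ℝ) < min ε (1 / 4) from
      lt_min hε (by norm_num))
    refine ⟨ε', hε', hε'2.trans_le (min_le_right _ _), fun r hr0 hr => ?_⟩
    obtain ⟨g1, g2, g3⟩ := hε2 ⟨hr0, lt_of_le_of_lt hr (hε'2.trans_le (min_le_left _ _))⟩
    have hl2 : 0 < Real.log 2 := Real.log_pos (by norm_num)
    obtain ⟨R, hR⟩ : ∃ R : ℝ, R = Real.log (1 / r) := ⟨_, rfl⟩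
    rw [← hR] at g1 g2 g3
    have hR0 : 0 < R := by linarith
    have hR2 : Real.log (1 / (2 * r)) = R - Real.log 2 := by
      rw [hR, one_div, one_div, Real.log_inv, Real.log_inv, Real.log_mul (by norm_num) hr0.ne']
      ring
    have hRl : 0 < R - Real.log 2 := by linarith
    -- `r / ρ₀ ≤ κ h`
    have h1 : r / ρ₀ ≤ κ * h r := by
      rw [hh]
      simp only
      rw [← hR, mul_one_div, div_le_div_iff₀ hρ₀0 (by positivity)]
      linarith
    -- `h (2 r) ≤ 2 h r`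
    have h2 : h (2 * r) ≤ 2 * h r := by
      rw [hh]
      simp only
      rw [← hR, hR2, mul_one_div, div_le_div_iff₀ (by positivity) (by positivity), one_mul]
      -- `R ^ t ≤ 2 (R - log 2) ^ t`
      have h3 : 1 - Real.log 2 / R * t ≤ ((R - Real.log 2) / R) ^ t := by
        have h4 := one_add_mul_le_pow (a := -(Real.log 2 / R)) (by
          have : Real.log 2 / R ≤ 1 := by
            rw [div_le_one hR0]
            linarith
          linarith) t
        have h5 : 1 + -(Real.log 2 / R) = (R - Real.log 2) / R := by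
          field_simp
          ring
        rw [h5] at h4
        linarith
      have h4 : Real.log 2 / R * t ≤ 1 / 2 := by
        rw [div_mul_eq_mul_div, div_le_iff₀ hR0]
        linarith
      have h5 : 1 / 2 ≤ ((R - Real.log 2) / R) ^ t := by linarith
      rw [div_pow, le_div_iff₀ (by positivity)] at h5
      linarith
    rw [← hA]
    have h6 : 2 * r / ρ₀ = 2 * (r / ρ₀) := by ring
    rw [h6]
    have h7 : κ * h (2 * r) ≤ κ * (2 * h r) := mul_le_mul_of_nonneg_left h2 hκ0.le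
    calc A * (2 * (r / ρ₀) + κ * h (2 * r)) ≤ A * (2 * (κ * h r) + κ * (2 * h r)) :=
          mul_le_mul_of_nonneg_left (by linarith) hA0.le
      _ = 4 * A * κ * h r := by ring
  rw [Measure.mkMetric_apply]
  refine le_iSup₂_of_le (ENNReal.ofReal ε) (ENNReal.ofReal_pos.2 hε0) ?_
  refine le_iInf fun s => le_iInf fun hcov => le_iInf fun hdiam => ?_
  by_contra hcon
  rw [not_le] at hcon
  -- the parameters
  have hsmall : ∀ i : ℕ, ∃ r : ℝ, 0 < r ∧ r < 1 ∧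
      6 / c ^ 2 * (r / ρ₀ + κ * h r) ≤ (1 / 4) * (1 / 2) ^ (i + 1) := by
    intro i
    have h1 : Tendsto (fun r : ℝ => 6 / c ^ 2 * (r / ρ₀ + κ * h r)) (𝓝[>] 0) (𝓝 0) := by
      have h2 : Tendsto (fun r : ℝ => r / ρ₀) (𝓝[>] 0) (𝓝 0) := by
        have : Tendsto (fun r : ℝ => r / ρ₀) (𝓝 0) (𝓝 (0 / ρ₀)) := tendsto_id.div_const ρ₀
        rw [zero_div] at this
        exact this.mono_left nhdsWithin_le_nhds
      have h3 := ((h2.add (hh_lim.const_mul κ)).const_mul (6 / c ^ 2))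
      simpa using h3
    have e1 := h1.eventually (ge_mem_nhds (show (0 : ℝ) < (1 / 4) * (1 / 2) ^ (i + 1) by positivity))
    have e2 : ∀ᶠ r : ℝ in 𝓝[>] 0, 0 < r := self_mem_nhdsWithin
    have e3 : ∀ᶠ r : ℝ in 𝓝[>] (0 : ℝ), r < 1 :=
      nhdsWithin_le_nhds (gt_mem_nhds (show (0 : ℝ) < 1 by norm_num))
    obtain ⟨r, hr1, hr2, hr3⟩ := (e1.and (e2.and e3)).exists
    exact ⟨r, hr2, hr3, hr1⟩
  choose σ hσ0 hσ1 hσ2 using hsmall
  obtain ⟨D, hD⟩ : ∃ D : ℕ → ℝ, D = fun i => (Metric.ediam (s i)).toReal := ⟨_, rfl⟩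
  have hD0 : ∀ i, 0 ≤ D i := fun i => by rw [hD]; exact ENNReal.toReal_nonneg
  have hDε : ∀ i, D i ≤ ε := fun i => by
    rw [hD]
    exact ENNReal.toReal_le_of_le_ofReal hε0.le (hdiam i)
  have hDfin : ∀ i, Metric.ediam (s i) ≠ ⊤ := fun i =>
    ne_top_of_le_ne_top ENNReal.ofReal_ne_top (hdiam i)
  have hDist : ∀ i, ∀ p ∈ s i, ∀ q ∈ s i, |p - q| ≤ D i := by
    intro i p hp q hq
    rw [← Real.dist_eq, hD, dist_edist]
    exact ENNReal.toReal_mono (hDfin i) (Metric.edist_le_ediam_of_mem hp hq)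
  obtain ⟨r, hr⟩ : ∃ r : ℕ → ℝ, r = fun i => if 0 < D i then 2 * D i else σ i := ⟨_, rfl⟩
  have hr0 : ∀ i, 0 < r i := by
    intro i
    rw [hr]
    simp only
    split_ifs with h1
    · linarith
    · exact hσ0 i
  have hr1 : ∀ i, r i < 1 := by
    intro i
    rw [hr]
    simp only
    split_ifs with h1
    · have := hDε i
      linarith
    · exact hσ1 i
  obtain ⟨U, hU⟩ : ∃ U : ℕ → Set ℝ, U = fun i => Metric.thickening ((r i - D i) / 2) (s i) := ⟨_, rfl⟩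
  have hrD : ∀ i, D i < r i := by
    intro i
    rw [hr]
    simp only
    split_ifs with h1
    · linarith
    · have := hσ0 i
      linarith
  have hUo : ∀ i, IsOpen (U i) := fun i => by rw [hU]; exact Metric.isOpen_thickening
  have hUr : ∀ i, ∀ p ∈ U i, ∀ q ∈ U i, |p - q| ≤ r i := by
    intro i p hp q hq
    rw [hU] at hp hq
    rw [Metric.mem_thickening_iff] at hp hq
    obtain ⟨p', hp', hp2⟩ := hp
    obtain ⟨q', hq', hq2⟩ := hq
    rw [Real.dist_eq] at hp2 hq2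
    have h1 := hDist i p' hp' q' hq'
    have h2 : p - q = (p - p') + (p' - q') + (q' - q) := by ring
    rw [h2]
    refine (abs_add_le _ _).trans ?_
    have h3 := abs_add_le (p - p') (p' - q')
    rw [abs_sub_comm q' q]
    linarith
  have hsU : ∀ i, s i ⊆ U i := fun i => by
    rw [hU]
    exact Metric.self_subset_thickening (by have := hrD i; linarith) _
  have hcovU : E ∩ Icc u v ⊆ ⋃ i, U i := hcov.trans (iUnion_mono hsU)
  have h1 := one_le_Phi hKids hc E hE U hUo hcovU _ hJ₀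
  -- the bound for the potential
  have h2 : Phi lam n Q G U ((u + v) / 2, ρ₀) ≤ ENNReal.ofReal (4 * A * κ) *
      (∑' i, ⨆ _ : (s i).Nonempty, gauge t (Metric.ediam (s i))) +
      ∑' i : ℕ, ENNReal.ofReal ((1 / 4) * (1 / 2) ^ (i + 1)) := by
    unfold Phi
    rw [← ENNReal.tsum_mul_left, ← ENNReal.tsum_add]
    refine ENNReal.tsum_le_tsum fun i => ?_
    have h3 := Tinf_le hκ0 hlam ht hB hKids hc (U i) (hr0 i) (hr1 i) (hUr i) _ hJ₀
    simp only at h3
    by_cases hDi : 0 < D i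
    · have hri : r i = 2 * D i := by rw [hr]; simp only; rw [if_pos hDi]
      rw [hri] at h3
      have h4 := hεp (D i) hDi (hDε i)
      rw [hh] at h4
      simp only at h4
      have hne : (s i).Nonempty := by
        by_contra hemp
        rw [Set.not_nonempty_iff_eq_empty] at hemp
        rw [hD] at hDi
        simp only at hDi
        rw [hemp, Metric.ediam_empty, ENNReal.toReal_zero] at hDi
        exact lt_irrefl _ hDi
      refine le_trans ?_ le_self_add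
      rw [iSup_pos hne]
      unfold gauge
      rw [← ENNReal.ofReal_mul (by positivity)]
      apply ENNReal.ofReal_le_ofReal
      refine h3.trans (h4.trans (le_of_eq ?_))
      have hDi' : (Metric.ediam (s i)).toReal = D i := by rw [hD]
      rw [hDi', Real.rpow_neg (Real.log_nonneg (by
        rw [le_div_iff₀ hDi]
        have := hDε i
        linarith)), Real.rpow_natCast, one_div]
    · have hri : r i = σ i := by rw [hr]; simp only; rw [if_neg hDi]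
      rw [hri] at h3
      have h4 := hσ2 i
      rw [hh] at h4
      simp only at h4
      refine le_trans ?_ le_add_self
      exact ENNReal.ofReal_le_ofReal (h3.trans h4)
  have h3 : ∑' i : ℕ, ENNReal.ofReal ((1 / 4) * (1 / 2) ^ (i + 1)) = ENNReal.ofReal (1 / 4) := by
    have hs : Summable fun i : ℕ => (1 / 4 : ℝ) * (1 / 2) ^ (i + 1) := by
      apply Summable.mul_left
      exact (summable_nat_add_iff 1).2 summable_geometric_two
    rw [← ENNReal.ofReal_tsum_of_nonneg (fun i => by positivity) hs, tsum_mul_left]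
    congr 1
    have h4 : ∑' i : ℕ, (1 / 2 : ℝ) ^ (i + 1) = 1 := by
      have h5 : ∀ i : ℕ, (1 / 2 : ℝ) ^ (i + 1) = (1 / 2) ^ i * (1 / 2) := fun i => pow_succ _ _
      simp only [h5]
      rw [tsum_mul_right, tsum_geometric_two]
      norm_num
    rw [h4, mul_one]
  have h4 : ENNReal.ofReal (4 * A * κ) *
      (∑' i, ⨆ _ : (s i).Nonempty, gauge t (Metric.ediam (s i))) ≤ ENNReal.ofReal (1 / 2) := by
    calc ENNReal.ofReal (4 * A * κ) * (∑' i, ⨆ _ : (s i).Nonempty, gauge t (Metric.ediam (s i)))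
        ≤ ENNReal.ofReal (4 * A * κ) * (K : ℝ≥0∞) := by gcongr
      _ = ENNReal.ofReal (4 * A * κ * K) := by
          rw [← ENNReal.ofReal_coe_nnreal, ← ENNReal.ofReal_mul (by positivity)]
      _ ≤ ENNReal.ofReal (1 / 2) := by
          apply ENNReal.ofReal_le_ofReal
          rw [hκ]
          have h5 : 4 * A * (1 / (8 * A * ((K : ℝ) + 1))) * K = K / (K + 1) / 2 := by
            field_simp
            ring
          rw [h5]
          have h6 : (K : ℝ) / (K + 1) ≤ 1 := by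
            rw [div_le_one (by positivity)]
            linarith
          linarith
  have h5 : (1 : ℝ≥0∞) ≤ ENNReal.ofReal (3 / 4) := by
    calc (1 : ℝ≥0∞) ≤ _ := h1
      _ ≤ _ := h2
      _ ≤ ENNReal.ofReal (1 / 2) + ENNReal.ofReal (1 / 4) := add_le_add h4 h3.le
      _ = ENNReal.ofReal (3 / 4) := by
          rw [← ENNReal.ofReal_add (by norm_num) (by norm_num)]
          norm_num
  have h6 : ENNReal.ofReal (3 / 4) < 1 := by
    rw [← ENNReal.ofReal_one]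
    exact (ENNReal.ofReal_lt_ofReal_iff one_pos).2 (by norm_num)
  exact absurd h5 (not_le.2 h6)

end Pool.Agent.D0H48.LD
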