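import Mathlib
import Pool.Agent.D0H48.LD.Cantor

/-!
The number of fractions with denominators of a given size in an interval
-/

set_option autoImplicit false

open Filter Topology Set

namespace Pool.Agent.D0H48.LD

theorem card_mult (g : ℕ) (hg : 1 ≤ g) (A : Finset ℕ) {α β : ℝ} (hαβ : α ≤ β)
    (hA : ∀ m ∈ A, g ∣ m ∧ α ≤ m ∧ (m : ℝ) ≤ β) : (A.card : ℝ) ≤ (β - α) / g + 1 := by
  refine card_separated A (fun m => (m : ℝ)) (x₀ := α) (by positivity) (by linarith) ?_ ?_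
  · intro m hm
    obtain ⟨-, h1, h2⟩ := hA m hm
    constructor
    · exact h1
    · linarith
  · intro a ha b hb hab
    obtain ⟨⟨a', rfl⟩, -, -⟩ := hA a ha
    obtain ⟨⟨b', rfl⟩, -, -⟩ := hA b hb
    have hab' : a' ≠ b' := fun h => hab (by rw [h])
    have h1 : (1 : ℝ) ≤ |(a' : ℝ) - b'| := by
      have h2 : (a' : ℤ) - b' ≠ 0 := sub_ne_zero.2 (by exact_mod_cast hab')
      have h3 : 1 ≤ |(a' : ℤ) - b'| := Int.one_le_abs h2
      exact_mod_cast h3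
    push_cast
    rw [← mul_sub, abs_mul, Nat.abs_cast]
    have : (0 : ℝ) ≤ g := Nat.cast_nonneg g
    nlinarith

theorem sum_sq (N : ℕ) : ∑ g ∈ Finset.Icc 5 N, (1 : ℝ) / (g : ℝ) ^ 2 ≤ 1 / 4 := by
  have h : ∀ N : ℕ, 4 ≤ N → ∑ g ∈ Finset.Icc 5 N, (1 : ℝ) / (g : ℝ) ^ 2 ≤ 1 / 4 - 1 / N := by
    intro N hN
    induction N, hN using Nat.le_induction with
    | base => norm_num
    | succ N hN ih =>
      rw [Finset.sum_Icc_succ_top (by omega)]
      have hN0 : (0 : ℝ) < N := by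
        have : 0 < N := by omega
        exact_mod_cast this
      have h1 : (1 : ℝ) / ((N + 1 : ℕ) : ℝ) ^ 2 ≤ 1 / N - 1 / ((N + 1 : ℕ) : ℝ) := by
        push_cast
        rw [div_sub_div _ _ hN0.ne' (by positivity), div_le_div_iff₀ (by positivity) (by positivity)]
        nlinarith
      linarith
  rcases Nat.lt_or_ge N 4 with h1 | h1
  · have : Finset.Icc 5 N = ∅ := Finset.Icc_eq_empty_of_lt (by omega)
    rw [this, Finset.sum_empty]
    norm_num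
  · have h2 := h N h1
    have h3 : (0 : ℝ) ≤ 1 / N := by positivity
    linarith

theorem sum_inv (N : ℕ) {τ : ℝ} (hτ : 0 < τ) :
    ∑ g ∈ Finset.Icc 5 N, (1 : ℝ) / (g : ℝ) ≤ τ * N / 4 + 1 / (4 * τ) := by
  have h1 : ∀ g ∈ Finset.Icc 5 N, (1 : ℝ) / (g : ℝ) ≤ τ / 4 + (1 / τ) * (1 / (g : ℝ) ^ 2) := by
    intro g hg
    rw [Finset.mem_Icc] at hg
    have hg0 : (0 : ℝ) < g := by
      have : 0 < g := by omega
      exact_mod_cast this
    have h2 : τ / 4 + (1 / τ) * (1 / (g : ℝ) ^ 2) - 1 / g = (τ * g - 2) ^ 2 / (4 * τ * g ^ 2) := by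
      field_simp
      ring
    have h3 : 0 ≤ (τ * g - 2) ^ 2 / (4 * τ * (g : ℝ) ^ 2) := by positivity
    linarith
  refine (Finset.sum_le_sum h1).trans ?_
  rw [Finset.sum_add_distrib, ← Finset.mul_sum, Finset.sum_const, nsmul_eq_mul]
  have h2 := sum_sq N
  have h3 : ((Finset.Icc 5 N).card : ℝ) ≤ N := by
    rw [Nat.card_Icc]
    have : N + 1 - 5 ≤ N := by omega
    exact_mod_cast this
  have h4 : ((Finset.Icc 5 N).card : ℝ) * (τ / 4) ≤ N * (τ / 4) :=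
    mul_le_mul_of_nonneg_right h3 (by positivity)
  have h5 : (1 / τ) * ∑ g ∈ Finset.Icc 5 N, (1 : ℝ) / (g : ℝ) ^ 2 ≤ (1 / τ) * (1 / 4) :=
    mul_le_mul_of_nonneg_left h2 (by positivity)
  have h6 : (1 / τ) * (1 / 4) = 1 / (4 * τ) := by
    field_simp
  linarith

/-- the fractions with denominators between `Q` and `2 Q` -/
theorem farey {x y : ℝ} (hx : 0 ≤ x) (hxy : x < y) : ∃ Q₀ : ℕ, ∀ Q : ℕ, Q₀ ≤ Q →
    ∃ G : Finset ℝ, (∀ w ∈ G, x ≤ w ∧ w ≤ y ∧ ∃ n m : ℕ, Q < n ∧ n ≤ 2 * Q ∧ w = (m : ℝ) / n) ∧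
      (y - x) / 16 * (Q : ℝ) ^ 2 ≤ G.card ∧
      ∀ w ∈ G, ∀ w' ∈ G, w ≠ w' → 1 / (4 * (Q : ℝ) ^ 2) ≤ |w - w'| := by
  classical
  obtain ⟨d, hd⟩ : ∃ d : ℝ, d = y - x := ⟨_, rfl⟩
  have hd0 : 0 < d := by linarith
  obtain ⟨K, hK⟩ : ∃ K : ℝ, K = (1 + 2 * d) ^ 2 / d + 2 := ⟨_, rfl⟩
  have hK0 : 0 < K := by rw [hK]; positivity
  obtain ⟨Q₀, hQ₀⟩ := exists_nat_ge (8 * (K + 1) / d)
  refine ⟨Q₀ + 1, fun Q hQ => ?_⟩
  have hQ1 : 1 ≤ Q := by omega
  have hQ0 : (0 : ℝ) < Q := by exact_mod_cast hQ1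
  have hQK : 8 * (K + 1) ≤ d * Q := by
    have h1 : (Q₀ : ℝ) ≤ Q := by
      have : Q₀ ≤ Q := by omega
      exact_mod_cast this
    rw [div_le_iff₀ hd0] at hQ₀
    nlinarith
  obtain ⟨A, hA⟩ : ∃ A : ℕ → Finset ℕ, A = fun n : ℕ => Finset.Icc ⌈(n : ℝ) * x⌉₊ ⌊(n : ℝ) * y⌋₊ := ⟨_, rfl⟩
  have hAmem : ∀ n m, m ∈ A n ↔ (n : ℝ) * x ≤ m ∧ (m : ℝ) ≤ n * y := by
    intro n m
    rw [hA]
    simp only [Finset.mem_Icc]
    rw [Nat.ceil_le, Nat.le_floor_iff (by have : (0 : ℝ) ≤ n := Nat.cast_nonneg n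
                                          have : 0 ≤ y := by linarith
                                          positivity)]
  obtain ⟨T, hT⟩ : ∃ T : Finset (Σ _ : ℕ, ℕ), T = (Finset.Ioc Q (2 * Q)).sigma A := ⟨_, rfl⟩
  have hTmem : ∀ p, p ∈ T ↔ (Q < p.1 ∧ p.1 ≤ 2 * Q) ∧ p.2 ∈ A p.1 := by
    intro p
    rw [hT, Finset.mem_sigma, Finset.mem_Ioc]
  -- the number of pairs
  have hTcard : (Q : ℝ) * (Q * d - 1) ≤ T.card := by
    rw [hT, Finset.card_sigma]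
    push_cast
    have h1 : ∀ n ∈ Finset.Ioc Q (2 * Q), (Q : ℝ) * d - 1 ≤ ((A n).card : ℝ) := by
      intro n hn
      rw [Finset.mem_Ioc] at hn
      rw [hA]
      simp only
      rw [Nat.card_Icc]
      have hnQ : (Q : ℝ) ≤ n := by exact_mod_cast hn.1.le
      have h2 : (n : ℝ) * y < ⌊(n : ℝ) * y⌋₊ + 1 := Nat.lt_floor_add_one _
      have h3 : (⌈(n : ℝ) * x⌉₊ : ℝ) < n * x + 1 := Nat.ceil_lt_add_one (by positivity)
      have h4 : ((⌊(n : ℝ) * y⌋₊ : ℝ) + 1) - ⌈(n : ℝ) * x⌉₊ ≤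
          ((⌊(n : ℝ) * y⌋₊ + 1 - ⌈(n : ℝ) * x⌉₊ : ℕ) : ℝ) := by
        have h5 : ⌊(n : ℝ) * y⌋₊ + 1 ≤ (⌊(n : ℝ) * y⌋₊ + 1 - ⌈(n : ℝ) * x⌉₊) + ⌈(n : ℝ) * x⌉₊ := by
          omega
        have h6 : ((⌊(n : ℝ) * y⌋₊ : ℝ) + 1) ≤
            ((⌊(n : ℝ) * y⌋₊ + 1 - ⌈(n : ℝ) * x⌉₊ : ℕ) : ℝ) + ⌈(n : ℝ) * x⌉₊ := by
          exact_mod_cast h5
        linarith
      have h7 : (Q : ℝ) * d ≤ n * d := mul_le_mul_of_nonneg_right hnQ hd0.le
      have h8 : (n : ℝ) * d = n * y - n * x := by rw [hd]; ring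
      linarith
    have h2 := Finset.card_nsmul_le_sum _ _ _ h1
    rw [Nat.card_Ioc, nsmul_eq_mul] at h2
    have h3 : 2 * Q - Q = Q := by omega
    rw [h3] at h2
    exact h2
  -- the pairs with a large common divisor
  obtain ⟨B, hB⟩ : ∃ B : Finset (Σ _ : ℕ, ℕ), B = T.filter fun p => 5 ≤ Nat.gcd p.1 p.2 := ⟨_, rfl⟩
  have hBcard : (B.card : ℝ) ≤ ∑ g ∈ Finset.Icc 5 (2 * Q), ((Q : ℝ) / g + 1) * (2 * Q * d / g + 1) := by
    have hsub : B ⊆ (Finset.Icc 5 (2 * Q)).biUnion fun g =>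
        ((Finset.Ioc Q (2 * Q)).filter fun n => g ∣ n).sigma fun n => (A n).filter fun m => g ∣ m := by
      intro p hp
      rw [hB, Finset.mem_filter, hTmem] at hp
      obtain ⟨⟨⟨h1, h2⟩, h3⟩, h4⟩ := hp
      rw [Finset.mem_biUnion]
      refine ⟨Nat.gcd p.1 p.2, ?_, ?_⟩
      · rw [Finset.mem_Icc]
        exact ⟨h4, (Nat.le_of_dvd (by omega) (Nat.gcd_dvd_left _ _)).trans h2⟩
      · rw [Finset.mem_sigma, Finset.mem_filter, Finset.mem_filter, Finset.mem_Ioc]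
        exact ⟨⟨⟨h1, h2⟩, Nat.gcd_dvd_left _ _⟩, h3, Nat.gcd_dvd_right _ _⟩
    have h1 : (B.card : ℝ) ≤ ∑ g ∈ Finset.Icc 5 (2 * Q),
        ((((Finset.Ioc Q (2 * Q)).filter fun n => g ∣ n).sigma fun n =>
          (A n).filter fun m => g ∣ m).card : ℝ) := by
      exact_mod_cast (Finset.card_le_card hsub).trans Finset.card_biUnion_le
    refine h1.trans (Finset.sum_le_sum fun g hg => ?_)
    rw [Finset.mem_Icc] at hg
    have hg1 : 1 ≤ g := by omega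
    have hg0 : (0 : ℝ) < g := by exact_mod_cast hg1
    rw [Finset.card_sigma]
    push_cast
    have h2 : ∀ n ∈ (Finset.Ioc Q (2 * Q)).filter fun n => g ∣ n,
        ((((A n).filter fun m => g ∣ m).card : ℕ) : ℝ) ≤ 2 * Q * d / g + 1 := by
      intro n hn
      rw [Finset.mem_filter, Finset.mem_Ioc] at hn
      have hn2 : (n : ℝ) ≤ 2 * Q := by exact_mod_cast hn.1.2
      have hn0 : (0 : ℝ) ≤ n := Nat.cast_nonneg n
      have h3 := card_mult g hg1 ((A n).filter fun m => g ∣ m) (α := n * x) (β := n * y)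
        (mul_le_mul_of_nonneg_left hxy.le hn0) (by
          intro m hm
          rw [Finset.mem_filter, hAmem] at hm
          exact ⟨hm.2, hm.1.1, hm.1.2⟩)
      refine h3.trans ?_
      have h4 : ((n : ℝ) * y - n * x) / g ≤ 2 * Q * d / g := by
        apply div_le_div_of_nonneg_right _ hg0.le
        have : (n : ℝ) * y - n * x = n * d := by rw [hd]; ring
        rw [this]
        exact mul_le_mul_of_nonneg_right hn2 hd0.le
      linarith
    have h3 := Finset.sum_le_card_nsmul _ _ _ h2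
    rw [nsmul_eq_mul] at h3
    refine h3.trans ?_
    apply mul_le_mul_of_nonneg_right _ (by positivity)
    have h4 := card_mult g hg1 ((Finset.Ioc Q (2 * Q)).filter fun n => g ∣ n) (α := Q) (β := 2 * Q)
      (by linarith) (by
        intro n hn
        rw [Finset.mem_filter, Finset.mem_Ioc] at hn
        refine ⟨hn.2, by exact_mod_cast hn.1.1.le, by exact_mod_cast hn.1.2⟩)
    have h5 : (2 * (Q : ℝ) - Q) / g = Q / g := by
      congr 1
      ring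
    rwa [h5] at h4
  have hBle : (B.card : ℝ) ≤ (Q : ℝ) ^ 2 * d / 2 + (Q : ℝ) ^ 2 * d / 8 + K * Q := by
    refine hBcard.trans ?_
    have h1 : ∀ g ∈ Finset.Icc 5 (2 * Q), ((Q : ℝ) / g + 1) * (2 * Q * d / g + 1) =
        2 * Q ^ 2 * d * (1 / (g : ℝ) ^ 2) + (Q + 2 * Q * d) * (1 / (g : ℝ)) + 1 := by
      intro g hg
      rw [Finset.mem_Icc] at hg
      have hg0 : (g : ℝ) ≠ 0 := by
        have : g ≠ 0 := by omega
        exact_mod_cast this
      field_simp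
      ring
    rw [Finset.sum_congr rfl h1, Finset.sum_add_distrib, Finset.sum_add_distrib, ← Finset.mul_sum,
      ← Finset.mul_sum, Finset.sum_const, nsmul_eq_mul, mul_one]
    have h2 := sum_sq (2 * Q)
    have h3 := sum_inv (2 * Q) (τ := d / (4 * (1 + 2 * d))) (by positivity)
    have h4 : ((Finset.Icc 5 (2 * Q)).card : ℝ) ≤ 2 * Q := by
      rw [Nat.card_Icc]
      have : 2 * Q + 1 - 5 ≤ 2 * Q := by omega
      exact_mod_cast this
    have h5 : 2 * (Q : ℝ) ^ 2 * d * ∑ g ∈ Finset.Icc 5 (2 * Q), (1 : ℝ) / (g : ℝ) ^ 2 ≤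
        2 * (Q : ℝ) ^ 2 * d * (1 / 4) := mul_le_mul_of_nonneg_left h2 (by positivity)
    have h6 : ((Q : ℝ) + 2 * Q * d) * ∑ g ∈ Finset.Icc 5 (2 * Q), (1 : ℝ) / (g : ℝ) ≤
        ((Q : ℝ) + 2 * Q * d) * (d / (4 * (1 + 2 * d)) * ((2 * Q : ℕ) : ℝ) / 4 +
          1 / (4 * (d / (4 * (1 + 2 * d))))) := mul_le_mul_of_nonneg_left h3 (by positivity)
    have h7 : ((Q : ℝ) + 2 * Q * d) * (d / (4 * (1 + 2 * d)) * ((2 * Q : ℕ) : ℝ) / 4 +
          1 / (4 * (d / (4 * (1 + 2 * d))))) = (Q : ℝ) ^ 2 * d / 8 + (K - 2) * Q := by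
      rw [hK]
      push_cast
      field_simp
      ring
    linarith
  obtain ⟨T', hT'⟩ : ∃ T' : Finset (Σ _ : ℕ, ℕ), T' = T.filter fun p => ¬ 5 ≤ Nat.gcd p.1 p.2 := ⟨_, rfl⟩
  have hT'card : (Q : ℝ) ^ 2 * d / 4 ≤ T'.card := by
    have h1 : B.card + T'.card = T.card := by
      rw [hB, hT']
      exact Finset.card_filter_add_card_filter_not _
    have h2 : (B.card : ℝ) + T'.card = T.card := by exact_mod_cast h1
    nlinarith
  -- the fractions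
  obtain ⟨f, hf⟩ : ∃ f : (Σ _ : ℕ, ℕ) → ℝ, f = fun p => (p.2 : ℝ) / p.1 := ⟨_, rfl⟩
  have hfib : T'.card ≤ 4 * (T'.image f).card := by
    refine Finset.card_le_mul_card_image T' 4 fun w hw => ?_
    have h1 : (T'.filter fun p => f p = w).card ≤ (Finset.Icc 1 4).card := by
      apply Finset.card_le_card_of_injOn (fun p => Nat.gcd p.1 p.2)
      · intro p hp
        rw [Finset.mem_coe, Finset.mem_filter, hT', Finset.mem_filter, hTmem] at hp
        obtain ⟨⟨⟨⟨h1, h2⟩, -⟩, h3⟩, -⟩ := hp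
        rw [Finset.mem_coe, Finset.mem_Icc]
        have : 0 < Nat.gcd p.1 p.2 := Nat.gcd_pos_of_pos_left _ (by omega)
        change 1 ≤ Nat.gcd p.1 p.2 ∧ Nat.gcd p.1 p.2 ≤ 4
        omega
      · intro p hp p' hp' hpp
        rw [Finset.mem_coe, Finset.mem_filter, hT', Finset.mem_filter, hTmem] at hp hp'
        obtain ⟨⟨⟨⟨h1, -⟩, -⟩, -⟩, h2⟩ := hp
        obtain ⟨⟨⟨⟨h1', -⟩, -⟩, -⟩, h2'⟩ := hp'
        have hpp' : Nat.gcd p.1 p.2 = Nat.gcd p'.1 p'.2 := hpp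
        have hp0 : 0 < p.1 := by omega
        have hp0' : 0 < p'.1 := by omega
        have h3 : p.2 * p'.1 = p'.2 * p.1 := by
          have h4 : (p.2 : ℝ) / p.1 = (p'.2 : ℝ) / p'.1 := by
            rw [hf] at h2 h2'
            simp only at h2 h2'
            rw [h2, h2']
          rw [div_eq_div_iff (by positivity) (by positivity)] at h4
          exact_mod_cast h4
        -- `p.1 gcd' = p'.1 gcd`
        have h5 : p.1 * Nat.gcd p'.1 p'.2 = p'.1 * Nat.gcd p.1 p.2 := by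
          rw [← Nat.gcd_mul_left, ← Nat.gcd_mul_left]
          congr 1
          · ring
          · linarith [h3]
        rw [hpp'] at h5
        have hg : 0 < Nat.gcd p'.1 p'.2 := Nat.gcd_pos_of_pos_left _ hp0'
        have h6 : p.1 = p'.1 := Nat.eq_of_mul_eq_mul_right hg h5
        have h7 : p.2 = p'.2 := by
          rw [h6] at h3
          exact Nat.eq_of_mul_eq_mul_right hp0' h3
        exact Sigma.ext h6 (heq_of_eq h7)
    rw [Nat.card_Icc] at h1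
    exact h1
  refine ⟨T'.image f, ?_, ?_, ?_⟩
  · intro w hw
    rw [Finset.mem_image] at hw
    obtain ⟨p, hp, rfl⟩ := hw
    rw [hT', Finset.mem_filter, hTmem, hAmem] at hp
    obtain ⟨⟨⟨h1, h2⟩, h3, h4⟩, -⟩ := hp
    have hp0 : (0 : ℝ) < p.1 := by
      have : 0 < p.1 := by omega
      exact_mod_cast this
    rw [hf]
    simp only
    refine ⟨?_, ?_, p.1, p.2, h1, h2, rfl⟩
    · rw [le_div_iff₀ hp0]
      linarith
    · rw [div_le_iff₀ hp0]
      linarith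
  · have h1 : (T'.card : ℝ) ≤ 4 * ((T'.image f).card : ℝ) := by exact_mod_cast hfib
    rw [← hd]
    linarith
  · intro w hw w' hw' hne
    rw [Finset.mem_image] at hw hw'
    obtain ⟨p, hp, rfl⟩ := hw
    obtain ⟨p', hp', rfl⟩ := hw'
    rw [hT', Finset.mem_filter, hTmem] at hp hp'
    obtain ⟨⟨⟨h1, h2⟩, -⟩, -⟩ := hp
    obtain ⟨⟨⟨h1', h2'⟩, -⟩, -⟩ := hp'
    have hp0 : (0 : ℝ) < p.1 := by
      have : 0 < p.1 := by omega
      exact_mod_cast this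
    have hp0' : (0 : ℝ) < p'.1 := by
      have : 0 < p'.1 := by omega
      exact_mod_cast this
    rw [hf] at hne ⊢
    simp only at hne ⊢
    rw [div_sub_div _ _ hp0.ne' hp0'.ne', abs_div, abs_of_pos (mul_pos hp0 hp0'),
      div_le_div_iff₀ (by positivity) (by positivity)]
    have h3 : (p.2 : ℝ) * p'.1 - p.1 * p'.2 ≠ 0 := by
      intro h
      apply hne
      rw [div_eq_div_iff hp0.ne' hp0'.ne']
      linarith
    have h4 : (1 : ℝ) ≤ |(p.2 : ℝ) * p'.1 - p.1 * p'.2| := by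
      have h5 : (p.2 : ℤ) * p'.1 - p.1 * p'.2 ≠ 0 := by
        intro h
        apply h3
        exact_mod_cast h
      have h6 := Int.one_le_abs h5
      exact_mod_cast h6
    have h5 : (p.1 : ℝ) ≤ 2 * Q := by exact_mod_cast h2
    have h6 : (p'.1 : ℝ) ≤ 2 * Q := by exact_mod_cast h2'
    have h7 : (p.1 : ℝ) * p'.1 ≤ 4 * (Q : ℝ) ^ 2 := by nlinarith
    have h8 : 4 * (Q : ℝ) ^ 2 ≤ |(p.2 : ℝ) * p'.1 - p.1 * p'.2| * (4 * (Q : ℝ) ^ 2) := by
      have : 0 ≤ 4 * (Q : ℝ) ^ 2 := by positivity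
      nlinarith
    linarith

end Pool.Agent.D0H48.LD
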