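import Mathlib
import Pool.Agent.D0H48.LD.Farey

/-!
Bases and dilations with infinitely many near-coincidences
-/

set_option autoImplicit false

open MeasureTheory Filter Topology Set
open scoped ENNReal NNReal

namespace Pool.Agent.D0H48.LD

/-- infinitely many pairs with `|c a ^ n - b ^ m| ≤ X`, for all `X > 0` -/
def Inf (a b c : ℝ) : Prop := ∀ X : ℝ, 0 < X → {p : ℕ × ℕ | |c * a ^ p.1 - b ^ p.2| ≤ X}.Infinite

theorem inf_of_unbounded {S : Set (ℕ × ℕ)} (h : ∀ k : ℕ, ∃ p ∈ S, k ≤ p.1) : S.Infinite := by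
  intro hfin
  obtain ⟨B, hB⟩ := (hfin.image Prod.fst).bddAbove
  obtain ⟨p, hp, hk⟩ := h (B + 1)
  have := hB ⟨p, hp, rfl⟩
  omega

theorem log_gap {x y v : ℝ} (hx : 0 < x) (hxy : x < y) (hyv : y ≤ v) :
    (y - x) / v ≤ Real.log y - Real.log x := by
  have hy : 0 < y := by linarith
  have hv : 0 < v := by linarith
  have h1 : Real.log (x / y) ≤ x / y - 1 := Real.log_le_sub_one_of_pos (by positivity)
  rw [Real.log_div hx.ne' hy.ne'] at h1
  have h2 : (y - x) / v ≤ (y - x) / y := div_le_div_of_nonneg_left (by linarith) hy hyv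
  have h3 : (y - x) / y = 1 - x / y := by field_simp
  linarith

theorem exp_gap {β w w' u : ℝ} (hβ : 0 < β) (hw : u ≤ Real.exp (β * w)) (hw' : u ≤ Real.exp (β * w'))
    (hu : 0 ≤ u) : u * (β * |w - w'|) ≤ |Real.exp (β * w) - Real.exp (β * w')| := by
  have key : ∀ s t : ℝ, u ≤ Real.exp (β * s) → s ≤ t →
      u * (β * |s - t|) ≤ |Real.exp (β * s) - Real.exp (β * t)| := by
    intro s t hs hst
    have h1 : Real.exp (β * t) - Real.exp (β * s) = Real.exp (β * s) * (Real.exp (β * (t - s)) - 1) := by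
      rw [mul_sub, mul_one, ← Real.exp_add]
      congr 2
      ring
    have h2 : β * (t - s) ≤ Real.exp (β * (t - s)) - 1 := by
      have := Real.add_one_le_exp (β * (t - s))
      linarith
    have h3 : 0 ≤ β * (t - s) := mul_nonneg hβ.le (by linarith)
    have h4 : u * (β * (t - s)) ≤ Real.exp (β * s) * (Real.exp (β * (t - s)) - 1) :=
      mul_le_mul hs h2 h3 (Real.exp_pos _).le
    rw [abs_sub_comm s t, abs_of_nonneg (by linarith : (0 : ℝ) ≤ t - s),
      abs_sub_comm (Real.exp (β * s)), abs_of_nonneg (by rw [h1]; linarith [mul_nonneg hu h3]), h1]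
    exact h4
  rcases le_total w w' with h | h
  · exact key w w' hw h
  · rw [abs_sub_comm w, abs_sub_comm (Real.exp (β * w))]
    exact key w' w hw' h

/-- the centres for the bases -/
def FB (b : ℝ) (Q : ℕ) : Set ℝ := {z | ∃ n m : ℕ, Q < n ∧ n ≤ 2 * Q ∧ z = b ^ ((m : ℝ) / n)}

theorem bases_F {b u v : ℝ} (hb : 1 < b) (hu : 1 ≤ u) (huv : u < v) :
    ∃ c : ℝ, 0 < c ∧ ∀ x y : ℝ, u ≤ x → x < y → y ≤ v → ∃ Q₀ : ℕ, ∀ Q ∈ (Ici 1 : Set ℕ), Q₀ ≤ Q →
      ∃ G : Finset ℝ, (∀ z ∈ G, z ∈ FB b Q ∧ x ≤ z ∧ z ≤ y) ∧ c * (y - x) * (Q : ℝ) ^ 2 ≤ G.card ∧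
      ∀ z ∈ G, ∀ z' ∈ G, z ≠ z' → c / (Q : ℝ) ^ 2 ≤ |z - z'| := by
  classical
  have hβ : 0 < Real.log b := Real.log_pos hb
  have hb0 : 0 < b := by linarith
  have hv0 : 0 < v := by linarith
  obtain ⟨c, hc⟩ : ∃ c : ℝ, c = min (1 / (16 * v * Real.log b)) (Real.log b / 4) := ⟨_, rfl⟩
  have hc1 : c ≤ 1 / (16 * v * Real.log b) := by rw [hc]; exact min_le_left _ _
  have hc2 : c ≤ Real.log b / 4 := by rw [hc]; exact min_le_right _ _
  have hc0 : 0 < c := by rw [hc]; exact lt_min (by positivity) (by positivity)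
  refine ⟨c, hc0, fun x y hux hxy hyv => ?_⟩
  have hx0 : 0 < x := by linarith
  have hx1 : 1 ≤ x := by linarith
  have hy0 : 0 < y := by linarith
  obtain ⟨Q₀, hQ₀⟩ := farey (x := Real.log x / Real.log b) (y := Real.log y / Real.log b)
    (div_nonneg (Real.log_nonneg hx1) hβ.le)
    (div_lt_div_of_pos_right (Real.log_lt_log hx0 hxy) hβ)
  refine ⟨Q₀, fun Q hQ1 hQ => ?_⟩
  have hQ1' : 1 ≤ Q := hQ1
  have hQ0 : (0 : ℝ) < Q := by exact_mod_cast hQ1'
  obtain ⟨G, hG1, hG2, hG3⟩ := hQ₀ Q hQ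
  have hrpow : ∀ w : ℝ, b ^ w = Real.exp (Real.log b * w) := fun w => Real.rpow_def_of_pos hb0 w
  have hinj : Function.Injective fun w : ℝ => b ^ w := by
    intro w w' h
    simp only [hrpow] at h
    have := Real.exp_injective h
    exact mul_left_cancel₀ hβ.ne' this
  have hbd : ∀ w ∈ G, x ≤ b ^ w ∧ b ^ w ≤ y := by
    intro w hw
    obtain ⟨h1, h2, -⟩ := hG1 w hw
    rw [div_le_iff₀ hβ] at h1
    rw [le_div_iff₀ hβ] at h2
    rw [hrpow]
    constructor
    · rw [← Real.exp_log hx0]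
      apply Real.exp_le_exp.2
      linarith
    · rw [← Real.exp_log hy0]
      apply Real.exp_le_exp.2
      linarith
  refine ⟨G.image fun w => b ^ w, ?_, ?_, ?_⟩
  · intro z hz
    rw [Finset.mem_image] at hz
    obtain ⟨w, hw, rfl⟩ := hz
    obtain ⟨-, -, n, m, h3, h4, h5⟩ := hG1 w hw
    exact ⟨⟨n, m, h3, h4, by rw [h5]⟩, hbd w hw⟩
  · rw [Finset.card_image_of_injective _ hinj]
    refine le_trans ?_ hG2
    apply mul_le_mul_of_nonneg_right _ (by positivity)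
    have h1 := log_gap hx0 hxy hyv
    calc c * (y - x) ≤ 1 / (16 * v * Real.log b) * (y - x) :=
          mul_le_mul_of_nonneg_right hc1 (by linarith)
      _ = (y - x) / v / Real.log b / 16 := by field_simp
      _ ≤ (Real.log y - Real.log x) / Real.log b / 16 := by
          apply div_le_div_of_nonneg_right _ (by norm_num)
          exact div_le_div_of_nonneg_right h1 hβ.le
      _ = (Real.log y / Real.log b - Real.log x / Real.log b) / 16 := by ring
  · intro z hz z' hz' hne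
    rw [Finset.mem_image] at hz hz'
    obtain ⟨w, hw, rfl⟩ := hz
    obtain ⟨w', hw', rfl⟩ := hz'
    have hww : w ≠ w' := fun h => hne (by rw [h])
    have h1 := hG3 w hw w' hw' hww
    have h2 := (hbd w hw).1
    have h3 := (hbd w' hw').1
    simp only [hrpow] at h2 h3 ⊢
    have h4 := exp_gap hβ (u := 1) (hx1.trans h2) (hx1.trans h3) zero_le_one
    rw [one_mul] at h4
    refine le_trans ?_ h4
    calc c / (Q : ℝ) ^ 2 ≤ (Real.log b / 4) / (Q : ℝ) ^ 2 := div_le_div_of_nonneg_right hc2 (by positivity)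
      _ = Real.log b * (1 / (4 * (Q : ℝ) ^ 2)) := by field_simp
      _ ≤ Real.log b * |w - w'| := mul_le_mul_of_nonneg_left h1 hβ.le

theorem small_aux (lam' : ℝ) : ∀ X : ℝ, 0 < X → ∃ k₀ : ℕ, ∀ Q : ℕ, k₀ ≤ Q →
    2 * (Q : ℝ) * Real.exp (lam' * Q) * Real.exp (-((lam' + 1) * Q)) ≤ X := by
  intro X hX
  have h1 : Tendsto (fun Q : ℕ => (Q : ℝ) ^ 1 * Real.exp (-(Q : ℝ))) atTop (𝓝 0) :=
    (Real.tendsto_pow_mul_exp_neg_atTop_nhds_zero 1).comp tendsto_natCast_atTop_atTop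
  obtain ⟨k₀, hk₀⟩ := eventually_atTop.1 (h1.eventually (ge_mem_nhds (show (0 : ℝ) < X / 2 by positivity)))
  refine ⟨k₀, fun Q hQ => ?_⟩
  have h2 := hk₀ Q hQ
  rw [pow_one] at h2
  have h3 : Real.exp (lam' * Q) * Real.exp (-((lam' + 1) * Q)) = Real.exp (-(Q : ℝ)) := by
    rw [← Real.exp_add]
    congr 1
    ring
  rw [mul_assoc, h3]
  linarith

theorem bases_E {b u v : ℝ} (hb : 1 < b) (hu : 1 ≤ u) (x : ℝ) (hux : u ≤ x) (hxv : x ≤ v)
    (h : ∀ k : ℕ, ∃ Q ∈ (Ici 1 : Set ℕ), k ≤ Q ∧ ∃ z ∈ FB b Q, |x - z| ≤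
      Real.exp (-((2 * Real.log (v + 1) + 1) * Q))) : Inf x b 1 := by
  have hb0 : 0 < b := by linarith
  have hv1 : 1 < v + 1 := by linarith
  have hlv : 0 < Real.log (v + 1) := Real.log_pos hv1
  intro X hX
  apply inf_of_unbounded
  intro k
  obtain ⟨k₀, hk₀⟩ := small_aux (2 * Real.log (v + 1)) X hX
  obtain ⟨Q, hQ1, hQk, z, ⟨n, m, hn1, hn2, hz⟩, hxz⟩ := h (max k k₀)
  have hQk0 : k₀ ≤ Q := (le_max_right _ _).trans hQk
  have hQk1 : k ≤ Q := (le_max_left _ _).trans hQk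
  refine ⟨(n, m), ?_, by simp only; omega⟩
  simp only [mem_ofPred_eq, one_mul]
  have hQ0 : (0 : ℝ) ≤ Q := Nat.cast_nonneg Q
  have hn0 : (n : ℝ) ≠ 0 := by
    have : n ≠ 0 := by omega
    exact_mod_cast this
  have hzn : z ^ n = b ^ m := by
    rw [hz, ← Real.rpow_natCast, ← Real.rpow_mul hb0.le, div_mul_cancel₀ _ hn0, Real.rpow_natCast]
  rw [← hzn]
  have h1 := abs_pow_sub_pow_le x z n
  have he1 : Real.exp (-((2 * Real.log (v + 1) + 1) * Q)) ≤ 1 := by
    rw [Real.exp_le_one_iff]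
    have : 0 ≤ (2 * Real.log (v + 1) + 1) * Q := by positivity
    linarith
  have hz0 : 0 < z := by rw [hz]; exact Real.rpow_pos_of_pos hb0 _
  have hzv : |z| ≤ v + 1 := by
    rw [abs_of_pos hz0]
    have := (abs_le.1 hxz).1
    linarith
  have hxv' : |x| ≤ v + 1 := by
    rw [abs_of_pos (by linarith)]
    linarith
  have hmax : max |x| |z| ≤ v + 1 := max_le hxv' hzv
  have h2 : max |x| |z| ^ (n - 1) ≤ (v + 1) ^ (2 * Q) :=
    (pow_le_pow_left₀ (by positivity) hmax _).trans (pow_le_pow_right₀ hv1.le (by omega))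
  have h3 : (v + 1) ^ (2 * Q) = Real.exp (2 * Real.log (v + 1) * Q) := by
    rw [show 2 * Real.log (v + 1) * Q = ((2 * Q : ℕ) : ℝ) * Real.log (v + 1) by push_cast; ring,
      ← Real.log_pow, Real.exp_log (by positivity)]
  have hn2' : (n : ℝ) ≤ 2 * Q := by exact_mod_cast hn2
  calc |x ^ n - z ^ n| ≤ |x - z| * n * max |x| |z| ^ (n - 1) := h1
    _ ≤ Real.exp (-((2 * Real.log (v + 1) + 1) * Q)) * (2 * Q) * (v + 1) ^ (2 * Q) := by
        apply mul_le_mul _ h2 (by positivity) (by positivity)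
        exact mul_le_mul hxz hn2' (Nat.cast_nonneg _) (Real.exp_pos _).le
    _ = 2 * (Q : ℝ) * Real.exp (2 * Real.log (v + 1) * Q) *
          Real.exp (-((2 * Real.log (v + 1) + 1) * Q)) := by rw [h3]; ring
    _ ≤ X := hk₀ Q hQk0

theorem ici_infinite : (Ici 1 : Set ℕ).Infinite := Set.Ici_infinite 1

end Pool.Agent.D0H48.LD
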