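import Mathlib
import Pool.Agent.D0H48.LD.Low

/-!
Dilations with infinitely many near-coincidences
-/

set_option autoImplicit false

open MeasureTheory Filter Topology Set
open scoped ENNReal NNReal

namespace Pool.Agent.D0H48.LD

/-- the denominators of good rational approximations -/
def QQ (θ : ℝ) : Set ℕ := {q | 1 ≤ q ∧ ∃ p : ℤ, IsCoprime p (q : ℤ) ∧ |θ - p / q| < 1 / (q : ℝ) ^ 2}

theorem QQ_infinite {θ : ℝ} (hθ : Irrational θ) : (QQ θ).Infinite := by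
  intro hfin
  refine Real.infinite_rat_abs_sub_lt_one_div_den_sq_of_irrational hθ ?_
  have h1 : ∀ q ∈ QQ θ, {r : ℚ | r.den = q ∧ |θ - r| < 1}.Finite := by
    intro q _
    refine ((Set.finite_Icc (⌊(q : ℝ) * (θ - 1)⌋) (⌈(q : ℝ) * (θ + 1)⌉)).image
      fun m : ℤ => (m : ℚ) / q).subset ?_
    rintro r ⟨hr1, hr2⟩
    refine ⟨r.num, ?_, ?_⟩
    · have hq0 : (0 : ℝ) < q := by
        rw [← hr1]
        exact_mod_cast r.den_pos
      have h2 : (r : ℝ) = (r.num : ℝ) / q := by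
        rw [← hr1]
        exact_mod_cast (Rat.num_div_den r).symm
      rw [h2, abs_lt] at hr2
      obtain ⟨h3, h4⟩ := hr2
      constructor
      · have h5 : (q : ℝ) * (θ - 1) < r.num := by
          have : θ - 1 < r.num / q := by linarith
          rw [lt_div_iff₀ hq0] at this
          linarith
        have h6 : ((⌊(q : ℝ) * (θ - 1)⌋ : ℤ) : ℝ) ≤ (r.num : ℝ) := (Int.floor_le _).trans h5.le
        exact_mod_cast h6
      · have h5 : (r.num : ℝ) < (q : ℝ) * (θ + 1) := by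
          have : (r.num : ℝ) / q < θ + 1 := by linarith
          rw [div_lt_iff₀ hq0] at this
          linarith
        have h6 : (r.num : ℝ) ≤ ((⌈(q : ℝ) * (θ + 1)⌉ : ℤ) : ℝ) := h5.le.trans (Int.le_ceil _)
        exact_mod_cast h6
    · simp only
      rw [← hr1]
      exact Rat.num_div_den r
  refine (hfin.biUnion h1).subset ?_
  intro r hr
  simp only [mem_iUnion]
  have hd : 1 ≤ r.den := r.den_pos
  have hdR : (1 : ℝ) ≤ r.den := by exact_mod_cast hd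
  have hr' : |θ - r| < 1 / (r.den : ℝ) ^ 2 := hr
  have h2 : (r : ℝ) = (r.num : ℝ) / r.den := by exact_mod_cast (Rat.num_div_den r).symm
  refine ⟨r.den, ⟨hd, r.num, ?_, ?_⟩, rfl, hr'.trans_le ?_⟩
  · rw [Int.isCoprime_iff_gcd_eq_one]
    exact r.reduced
  · rw [← h2]
    exact hr'
  · rw [div_le_one (by positivity)]
    nlinarith

/-- the centres for the dilations -/
def FD (a b : ℝ) (q : ℕ) : Set ℝ := {z | ∃ n m : ℕ, q ≤ n ∧ n < 2 * q ∧ z = b ^ m / a ^ n}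

/-- the points near a multiple of `1 / q` -/
theorem grid {θ : ℝ} {q : ℕ} {p : ℤ} (hq : 1 ≤ q) (hp : IsCoprime p (q : ℤ))
    (hθ : |θ - p / q| < 1 / (q : ℝ) ^ 2) (g : ℤ) :
    ∃ (n : ℕ) (m : ℤ), q ≤ n ∧ n < 2 * q ∧ |((m : ℝ) - n * θ) - g / q| ≤ 2 / q := by
  obtain ⟨α, β, hαβ⟩ := hp
  have hqZ : (0 : ℤ) < q := by exact_mod_cast hq
  have hq0 : (0 : ℝ) < q := by exact_mod_cast hq
  -- `n = q + ((-g α) mod q)`
  obtain ⟨n', hn'⟩ : ∃ n' : ℤ, n' = (-g * α) % q := ⟨_, rfl⟩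
  have h1 : 0 ≤ n' := by rw [hn']; exact Int.emod_nonneg _ hqZ.ne'
  have h2 : n' < q := by rw [hn']; exact Int.emod_lt_of_pos _ hqZ
  obtain ⟨k, hk⟩ : ∃ k : ℤ, -g * α = n' + q * k := ⟨(-g * α) / q, by
    rw [hn']
    exact (Int.emod_add_mul_ediv _ _).symm⟩
  -- `g + n p` is divisible by `q`
  obtain ⟨n, hn⟩ : ∃ n : ℕ, (n : ℤ) = q + n' := ⟨((q : ℤ) + n').toNat, by
    rw [Int.toNat_of_nonneg (by positivity)]⟩
  obtain ⟨m, hm⟩ : ∃ m : ℤ, g + n * p = q * m := by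
    refine ⟨g * β + p - k * p, ?_⟩
    rw [hn]
    have h3 : n' = -g * α - q * k := by linarith
    rw [h3]
    have h4 : g = g * (α * p + β * q) := by rw [hαβ, mul_one]
    linear_combination h4
  refine ⟨n, m, by omega, by omega, ?_⟩
  have hmR : (g : ℝ) + n * p = q * m := by exact_mod_cast hm
  have h5 : ((m : ℝ) - n * θ) - g / q = -(n * (θ - p / q)) := by
    have h6 : (m : ℝ) = (g + n * p) / q := by
      rw [hmR]
      field_simp
    rw [h6]
    field_simp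
    ring
  rw [h5, abs_neg, abs_mul, Nat.abs_cast]
  have hn2 : (n : ℝ) ≤ 2 * q := by
    have : n ≤ 2 * q := by omega
    exact_mod_cast this
  calc (n : ℝ) * |θ - p / q| ≤ 2 * q * (1 / (q : ℝ) ^ 2) :=
        mul_le_mul hn2 hθ.le (abs_nonneg _) (by positivity)
    _ = 2 / q := by field_simp

theorem dil_F {a b u v : ℝ} (ha : 1 < a) (hb : 1 < b) (hu : 0 < u) (huv : u < v) :
    ∃ c : ℝ, 0 < c ∧ ∀ x y : ℝ, u ≤ x → x < y → y ≤ v → ∃ Q₀ : ℕ,
      ∀ Q ∈ QQ (Real.log a / Real.log b), Q₀ ≤ Q →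
      ∃ G : Finset ℝ, (∀ z ∈ G, z ∈ FD a b Q ∧ x ≤ z ∧ z ≤ y) ∧ c * (y - x) * (Q : ℝ) ^ 1 ≤ G.card ∧
      ∀ z ∈ G, ∀ z' ∈ G, z ≠ z' → c / (Q : ℝ) ^ 1 ≤ |z - z'| := by
  classical
  have hβ : 0 < Real.log b := Real.log_pos hb
  have hα : 0 < Real.log a := Real.log_pos ha
  have ha0 : 0 < a := by linarith
  have hb0 : 0 < b := by linarith
  have hv0 : 0 < v := by linarith
  obtain ⟨θ, hθ⟩ : ∃ θ : ℝ, θ = Real.log a / Real.log b := ⟨_, rfl⟩
  have hθ0 : 0 < θ := by rw [hθ]; positivity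
  rw [← hθ]
  obtain ⟨c, hc⟩ : ∃ c : ℝ, c = min (1 / (16 * v * Real.log b)) (4 * u * Real.log b) := ⟨_, rfl⟩
  have hc1 : c ≤ 1 / (16 * v * Real.log b) := by rw [hc]; exact min_le_left _ _
  have hc2 : c ≤ 4 * u * Real.log b := by rw [hc]; exact min_le_right _ _
  have hc0 : 0 < c := by rw [hc]; exact lt_min (by positivity) (by positivity)
  refine ⟨c, hc0, fun x y hux hxy hyv => ?_⟩
  have hx0 : 0 < x := by linarith
  have hy0 : 0 < y := by linarith
  obtain ⟨X, hX⟩ : ∃ X : ℝ, X = Real.log x / Real.log b := ⟨_, rfl⟩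
  obtain ⟨Y, hY⟩ : ∃ Y : ℝ, Y = Real.log y / Real.log b := ⟨_, rfl⟩
  have hXY : X < Y := by
    rw [hX, hY]
    exact div_lt_div_of_pos_right (Real.log_lt_log hx0 hxy) hβ
  have hd : (y - x) / v / Real.log b ≤ Y - X := by
    rw [hX, hY, ← sub_div]
    exact div_le_div_of_nonneg_right (log_gap hx0 hxy hyv) hβ.le
  obtain ⟨Q₀, hQ₀⟩ := exists_nat_ge (max (24 / (Y - X)) (-X / θ))
  refine ⟨Q₀, fun q hq hQq => ?_⟩
  obtain ⟨hq1, p, hp, hpq⟩ := hq
  have hq0 : (0 : ℝ) < q := by exact_mod_cast hq1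
  have hQqR : (Q₀ : ℝ) ≤ q := by exact_mod_cast hQq
  have hq24 : 24 ≤ (Y - X) * q := by
    have h1 : 24 / (Y - X) ≤ q := ((le_max_left _ _).trans hQ₀).trans hQqR
    rw [div_le_iff₀ (by linarith)] at h1
    linarith
  have hqX : 0 ≤ q * θ + X := by
    have h1 : -X / θ ≤ q := ((le_max_right _ _).trans hQ₀).trans hQqR
    rw [div_le_iff₀ hθ0] at h1
    linarith
  -- the points
  have hgrid := fun j : ℤ => grid hq1 hp hpq (8 * j)
  choose n m hn1 hn2 hnm using hgrid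
  obtain ⟨J, hJ⟩ : ∃ J : Finset ℤ, J = Finset.Icc ⌈(q * X + 2) / 8⌉ ⌊(q * Y - 2) / 8⌋ := ⟨_, rfl⟩
  obtain ⟨w, hw⟩ : ∃ w : ℤ → ℝ, w = fun j => (m j : ℝ) - n j * θ := ⟨_, rfl⟩
  have hwj : ∀ j, |w j - ((8 * j : ℤ) : ℝ) / q| ≤ 2 / q := fun j => by rw [hw]; exact hnm j
  have hwJ : ∀ j ∈ J, X ≤ w j ∧ w j ≤ Y := by
    intro j hj
    rw [hJ, Finset.mem_Icc, Int.ceil_le, Int.le_floor] at hj
    obtain ⟨h1, h2⟩ := hj
    have h3 := hwj j
    rw [abs_le] at h3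
    have h4 : X + 2 / q ≤ ((8 * j : ℤ) : ℝ) / q := by
      rw [le_div_iff₀ hq0, add_mul, div_mul_cancel₀ _ hq0.ne']
      push_cast
      linarith
    have h5 : ((8 * j : ℤ) : ℝ) / q ≤ Y - 2 / q := by
      rw [div_le_iff₀ hq0, sub_mul, div_mul_cancel₀ _ hq0.ne']
      push_cast
      linarith
    constructor <;> linarith
  have hwsep : ∀ j j', j ≠ j' → 4 / (q : ℝ) ≤ |w j - w j'| := by
    intro j j' hjj
    have h1 := hwj j
    have h2 := hwj j'
    have h3 : (1 : ℝ) ≤ |(j : ℝ) - j'| := by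
      have h4 : j - j' ≠ 0 := sub_ne_zero.2 hjj
      have h5 := Int.one_le_abs h4
      exact_mod_cast h5
    have h4 : 8 / (q : ℝ) ≤ |((8 * j : ℤ) : ℝ) / q - ((8 * j' : ℤ) : ℝ) / q| := by
      rw [← sub_div, abs_div, abs_of_pos hq0]
      apply div_le_div_of_nonneg_right _ hq0.le
      push_cast
      rw [← mul_sub, abs_mul, abs_of_pos (by norm_num : (0:ℝ) < 8)]
      linarith
    have h5 : |((8 * j : ℤ) : ℝ) / q - ((8 * j' : ℤ) : ℝ) / q| ≤
        |w j - ((8 * j : ℤ) : ℝ) / q| + |w j - w j'| + |w j' - ((8 * j' : ℤ) : ℝ) / q| := by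
      have h6 : ((8 * j : ℤ) : ℝ) / q - ((8 * j' : ℤ) : ℝ) / q =
        -(w j - ((8 * j : ℤ) : ℝ) / q) + (w j - w j') + (w j' - ((8 * j' : ℤ) : ℝ) / q) := by ring
      rw [h6]
      refine (abs_add_le _ _).trans ?_
      have h7 := abs_add_le (-(w j - ((8 * j : ℤ) : ℝ) / q)) (w j - w j')
      rw [abs_neg] at h7
      linarith
    have h8 : 8 / (q : ℝ) = 2 / q + 4 / q + 2 / q := by ring
    linarith
  obtain ⟨Z, hZ⟩ : ∃ Z : ℤ → ℝ, Z = fun j => Real.exp (Real.log b * w j) := ⟨_, rfl⟩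
  have hZJ : ∀ j ∈ J, x ≤ Z j ∧ Z j ≤ y := by
    intro j hj
    obtain ⟨h1, h2⟩ := hwJ j hj
    rw [hX, div_le_iff₀ hβ] at h1
    rw [hY, le_div_iff₀ hβ] at h2
    rw [hZ]
    simp only
    constructor
    · rw [← Real.exp_log hx0]
      apply Real.exp_le_exp.2
      linarith
    · rw [← Real.exp_log hy0]
      apply Real.exp_le_exp.2
      linarith
  have hZsep : ∀ j ∈ J, ∀ j' ∈ J, j ≠ j' → c / (q : ℝ) ^ 1 ≤ |Z j - Z j'| := by
    intro j hj j' hj' hjj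
    have h1 := hwsep j j' hjj
    have h2 := (hZJ j hj).1
    have h3 := (hZJ j' hj').1
    rw [hZ] at h2 h3 ⊢
    simp only at h2 h3 ⊢
    have h4 := exp_gap hβ (u := u) (hux.trans h2) (hux.trans h3) hu.le
    refine le_trans ?_ h4
    calc c / (q : ℝ) ^ 1 ≤ (4 * u * Real.log b) / (q : ℝ) ^ 1 :=
          div_le_div_of_nonneg_right hc2 (by positivity)
      _ = u * (Real.log b * (4 / q)) := by rw [pow_one]; ring
      _ ≤ u * (Real.log b * |w j - w j'|) := by gcongr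
  have hinj : Set.InjOn Z J := by
    intro j hj j' hj' h
    by_contra hne
    have h1 := hZsep j hj j' hj' hne
    rw [h, sub_self, abs_zero] at h1
    have h2 : 0 < c / (q : ℝ) ^ 1 := by positivity
    linarith
  refine ⟨J.image Z, ?_, ?_, ?_⟩
  · intro z hz
    rw [Finset.mem_image] at hz
    obtain ⟨j, hj, rfl⟩ := hz
    refine ⟨?_, hZJ j hj⟩
    -- `m j` is a natural number
    have h1 := (hwJ j hj).1
    have h2 : (0 : ℝ) ≤ m j := by
      have h3 : w j = (m j : ℝ) - n j * θ := by rw [hw]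
      have h4 : (q : ℝ) ≤ n j := by exact_mod_cast hn1 j
      have h5 : (q : ℝ) * θ ≤ n j * θ := mul_le_mul_of_nonneg_right h4 hθ0.le
      linarith
    have h3 : 0 ≤ m j := by exact_mod_cast h2
    obtain ⟨M, hM⟩ := Int.eq_ofNat_of_zero_le h3
    refine ⟨n j, M, hn1 j, hn2 j, ?_⟩
    rw [hZ, hw]
    simp only
    rw [hM, hθ]
    have h4 : Real.log b * (((M : ℤ) : ℝ) - n j * (Real.log a / Real.log b)) =
        M * Real.log b - n j * Real.log a := by
      push_cast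
      field_simp
    rw [h4, Real.exp_sub, ← Real.log_pow, ← Real.log_pow, Real.exp_log (by positivity),
      Real.exp_log (by positivity)]
  · rw [Finset.card_image_of_injOn hinj, hJ, Int.card_Icc, pow_one]
    have h1 : (q * Y - 2) / 8 < (⌊(q * Y - 2) / 8⌋ : ℝ) + 1 := Int.lt_floor_add_one _
    have h2 : (⌈(q * X + 2) / 8⌉ : ℝ) < (q * X + 2) / 8 + 1 := Int.ceil_lt_add_one _
    have h3 : (⌊(q * Y - 2) / 8⌋ : ℝ) + 1 - ⌈(q * X + 2) / 8⌉ ≤
        ((⌊(q * Y - 2) / 8⌋ + 1 - ⌈(q * X + 2) / 8⌉).toNat : ℝ) := by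
      have h4 : ⌊(q * Y - 2) / 8⌋ + 1 - ⌈(q * X + 2) / 8⌉ ≤
        ((⌊(q * Y - 2) / 8⌋ + 1 - ⌈(q * X + 2) / 8⌉).toNat : ℤ) := Int.self_le_toNat _
      exact_mod_cast h4
    have h4 : c * (y - x) * q ≤ (Y - X) / 16 * q := by
      apply mul_le_mul_of_nonneg_right _ hq0.le
      calc c * (y - x) ≤ 1 / (16 * v * Real.log b) * (y - x) :=
            mul_le_mul_of_nonneg_right hc1 (by linarith)
        _ = (y - x) / v / Real.log b / 16 := by field_simp
        _ ≤ (Y - X) / 16 := div_le_div_of_nonneg_right hd (by norm_num)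
    linarith
  · intro z hz z' hz' hne
    rw [Finset.mem_image] at hz hz'
    obtain ⟨j, hj, rfl⟩ := hz
    obtain ⟨j', hj', rfl⟩ := hz'
    exact hZsep j hj j' hj' (fun h => hne (by rw [h]))

theorem dil_E {a b : ℝ} (ha : 1 < a) (x : ℝ)
    (h : ∀ k : ℕ, ∃ Q ∈ QQ (Real.log a / Real.log b), k ≤ Q ∧ ∃ z ∈ FD a b Q, |x - z| ≤
      Real.exp (-((2 * Real.log a + 1) * Q))) : Inf a b x := by
  have ha0 : 0 < a := by linarith
  have hla : 0 < Real.log a := Real.log_pos ha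
  intro X hX
  apply inf_of_unbounded
  intro k
  obtain ⟨k₀, hk₀⟩ := small_aux (2 * Real.log a) X hX
  obtain ⟨Q, hQ1, hQk, z, ⟨n, m, hn1, hn2, hz⟩, hxz⟩ := h (max k k₀)
  have hQk0 : k₀ ≤ Q := (le_max_right _ _).trans hQk
  have hQk1 : k ≤ Q := (le_max_left _ _).trans hQk
  refine ⟨(n, m), ?_, by simp only; omega⟩
  simp only [mem_ofPred_eq]
  have hQ1' : 1 ≤ Q := hQ1.1
  have hQ0 : (1 : ℝ) ≤ Q := by exact_mod_cast hQ1'
  have han : 0 < a ^ n := by positivity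
  have h1 : x * a ^ n - b ^ m = (x - z) * a ^ n := by
    rw [hz]
    field_simp
  have h2 : a ^ n ≤ a ^ (2 * Q) := pow_le_pow_right₀ ha.le (by omega)
  have h3 : a ^ (2 * Q) = Real.exp (2 * Real.log a * Q) := by
    rw [show 2 * Real.log a * Q = ((2 * Q : ℕ) : ℝ) * Real.log a by push_cast; ring,
      ← Real.log_pow, Real.exp_log (by positivity)]
  rw [h1, abs_mul, abs_of_pos han]
  calc |x - z| * a ^ n ≤ Real.exp (-((2 * Real.log a + 1) * Q)) * Real.exp (2 * Real.log a * Q) := by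
        rw [← h3]
        exact mul_le_mul hxz h2 han.le (Real.exp_pos _).le
    _ = 1 * (Real.exp (2 * Real.log a * Q) * Real.exp (-((2 * Real.log a + 1) * Q))) := by ring
    _ ≤ (2 * Q) * (Real.exp (2 * Real.log a * Q) * Real.exp (-((2 * Real.log a + 1) * Q))) :=
        mul_le_mul_of_nonneg_right (by linarith) (by positivity)
    _ = 2 * (Q : ℝ) * Real.exp (2 * Real.log a * Q) * Real.exp (-((2 * Real.log a + 1) * Q)) := by ring
    _ ≤ X := hk₀ Q hQk0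

end Pool.Agent.D0H48.LD
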