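import Mathlib
import Pool.Agent.D0H48.LD.Low
import Pool.Agent.D0H48.LD.Dil
import Pool.Agent.Results.MP_606be1_nt.DilatedNearCoincidences

/-!
The law, the category of the exceptional sets, and dependent bases
-/

set_option autoImplicit false

open MeasureTheory Filter Topology Set Asymptotics
open scoped ENNReal NNReal

namespace Pool.Agent.D0H48.LD

open Pool.Agent.Results.MP_606be1_nt.DilatedNearCoincidences

/-- the law for `a`, `b`, `c` -/
def Law0 (a b c : ℝ) : Prop :=
  (∀ x : ℝ, (pairs a b c x).Finite) ∧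
    (fun x : ℝ => (((pairs a b c x).ncard : ℕ) : ℝ)) ~[atTop]
      (fun x : ℝ => Real.log x ^ 2 / (Real.log a * Real.log b))

theorem law_of_finite {a b c : ℝ} (ha : 1 < a) (hb : 1 < b) (hc : 0 < c)
    (h : (nearMisses a b c).Finite) : Law0 a b c := by
  obtain ⟨C, hC⟩ := asym ha hb hc h
  have hla : 0 < Real.log a := Real.log_pos ha
  have hlb : 0 < Real.log b := Real.log_pos hb
  refine ⟨fun x => ?_, ?_⟩
  · refine (hC (max x 2) (le_max_right _ _)).1.subset ?_
    intro p hp
    exact le_trans hp (le_max_left x 2)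
  · have h3 : (fun x : ℝ => (((pairs a b c x).ncard : ℕ) : ℝ) - Real.log x ^ 2 / (Real.log a * Real.log b))
        =o[atTop] (fun x : ℝ => Real.log x ^ 2 / (Real.log a * Real.log b)) := by
      have h4 : (fun x : ℝ => (((pairs a b c x).ncard : ℕ) : ℝ) -
          Real.log x ^ 2 / (Real.log a * Real.log b)) =O[atTop] (fun x : ℝ => Real.log x) := by
        refine IsBigO.of_bound C ?_
        filter_upwards [eventually_ge_atTop (2 : ℝ)] with x hx
        have h5 := (hC x hx).2
        rw [Real.norm_eq_abs, Real.norm_eq_abs,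
          abs_of_nonneg (Real.log_nonneg (by linarith : (1 : ℝ) ≤ x))]
        exact h5
      refine h4.trans_isLittleO ?_
      have h6 : (fun x : ℝ => Real.log x) =o[atTop] (fun x : ℝ => Real.log x ^ 2) := by
        have h7 : (fun x : ℝ => x) =o[atTop] (fun x : ℝ => x ^ 2) := by
          have := isLittleO_pow_pow_atTop_of_lt (𝕜 := ℝ) (p := 1) (q := 2) (by norm_num)
          simpa using this
        exact h7.comp_tendsto Real.tendsto_log_atTop
      have h8 : (fun x : ℝ => Real.log x ^ 2) =O[atTop]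
          (fun x : ℝ => Real.log x ^ 2 / (Real.log a * Real.log b)) := by
        refine IsBigO.of_bound (Real.log a * Real.log b) ?_
        filter_upwards with x
        rw [norm_div, Real.norm_of_nonneg (show 0 ≤ Real.log a * Real.log b by positivity),
          mul_div_cancel₀ _ (by positivity)]
      exact h6.trans_isBigO h8
    exact h3

theorem not_law_of_inf {a b c : ℝ} (h : Inf a b c) : ¬ Law0 a b c :=
  fun hl => h 1 one_pos (hl.1 1)

/-- a condition for infinitely many near-coincidences -/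
theorem inf_of_forall {a b c : ℝ} (h : ∀ k : ℕ, ∃ n m : ℕ, k ≤ n ∧
    |c * a ^ n - b ^ m| < 1 / ((k : ℝ) + 1)) : Inf a b c := by
  intro X hX
  apply inf_of_unbounded
  intro k
  obtain ⟨k₁, hk₁⟩ := exists_nat_ge (1 / X)
  obtain ⟨n, m, h1, h2⟩ := h (max k k₁)
  refine ⟨(n, m), ?_, (le_max_left _ _).trans h1⟩
  simp only [mem_ofPred_eq]
  refine h2.le.trans ?_
  rw [div_le_iff₀ (by positivity)]
  rw [div_le_iff₀ hX] at hk₁
  have h3 : (k₁ : ℝ) ≤ ((max k k₁ : ℕ) : ℝ) := by exact_mod_cast le_max_right k k₁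
  nlinarith

theorem resid_bases {b : ℝ} (hb : 1 < b) : ∀ᶠ a in residual ℝ, 1 < a → Inf a b 1 := by
  have hb0 : 0 < b := by linarith
  obtain ⟨W, hW⟩ : ∃ W : ℕ → Set ℝ, W = fun k => Iio 1 ∪ ⋃ n : ℕ, ⋃ m : ℕ,
      {a : ℝ | k ≤ n ∧ |1 * a ^ n - b ^ m| < 1 / ((k : ℝ) + 1)} := ⟨_, rfl⟩
  have hWo : ∀ k, IsOpen (W k) := by
    intro k
    rw [hW]
    refine isOpen_Iio.union (isOpen_iUnion fun n => isOpen_iUnion fun m => ?_)
    by_cases hkn : k ≤ n
    · simp only [hkn, true_and]
      exact isOpen_lt (by fun_prop) continuous_const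
    · simp only [hkn, false_and]
      exact isOpen_empty
  have hWd : ∀ k, Dense (W k) := by
    intro k
    rw [Metric.dense_iff]
    intro x r hr
    by_cases hx : x < 1
    · exact ⟨x, Metric.mem_ball_self hr, by rw [hW]; exact Or.inl hx⟩
    · rw [not_lt] at hx
      obtain ⟨c, hc, hF⟩ := bases_F hb hx (show x < x + r / 2 by linarith)
      obtain ⟨Q₀, hQ₀⟩ := hF x (x + r / 2) le_rfl (by linarith) le_rfl
      obtain ⟨G, hG1, hG2, -⟩ := hQ₀ (max Q₀ (k + 1)) (by
        rw [mem_Ici]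
        have := le_max_right Q₀ (k + 1)
        omega) (le_max_left _ _)
      have hQ1 : k + 1 ≤ max Q₀ (k + 1) := le_max_right _ _
      have hQpos : (0 : ℝ) < ((max Q₀ (k + 1) : ℕ) : ℝ) := by
        have : 0 < max Q₀ (k + 1) := by omega
        exact_mod_cast this
      have hcard : (0 : ℝ) < G.card := by
        refine lt_of_lt_of_le ?_ hG2
        have : 0 < x + r / 2 - x := by linarith
        positivity
      obtain ⟨z, hz⟩ := Finset.card_pos.1 (by exact_mod_cast hcard)
      obtain ⟨⟨n, m, h1, h2, h3⟩, h4, h5⟩ := hG1 z hz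
      refine ⟨z, ?_, ?_⟩
      · rw [Metric.mem_ball, Real.dist_eq, abs_lt]
        constructor <;> linarith
      · rw [hW]
        right
        simp only [mem_iUnion, mem_ofPred_eq]
        refine ⟨n, m, by omega, ?_⟩
        have hn0 : (n : ℝ) ≠ 0 := by
          have : n ≠ 0 := by omega
          exact_mod_cast this
        have hzn : z ^ n = b ^ m := by
          rw [h3, ← Real.rpow_natCast, ← Real.rpow_mul hb0.le, div_mul_cancel₀ _ hn0,
            Real.rpow_natCast]
        rw [one_mul, hzn, sub_self, abs_zero]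
        positivity
  have hmem : (⋂ k, W k) ∈ residual ℝ :=
    countable_iInter_mem.2 fun k => residual_of_dense_open (hWo k) (hWd k)
  filter_upwards [hmem] with a ha ha1
  rw [mem_iInter] at ha
  refine inf_of_forall fun k => ?_
  have h1 := ha k
  rw [hW] at h1
  rcases h1 with h1 | h1
  · rw [mem_Iio] at h1
    exact absurd h1 (not_lt.2 ha1.le)
  · simp only [mem_iUnion, mem_ofPred_eq] at h1
    obtain ⟨n, m, h2, h3⟩ := h1
    exact ⟨n, m, h2, h3⟩

theorem resid_dil {a b : ℝ} (ha : 1 < a) (hb : 1 < b) (hab : Irrational (Real.log a / Real.log b)) :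
    ∀ᶠ c in residual ℝ, 0 < c → Inf a b c := by
  have hb0 : 0 < b := by linarith
  have ha0 : 0 < a := by linarith
  obtain ⟨W, hW⟩ : ∃ W : ℕ → Set ℝ, W = fun k => Iio 0 ∪ ⋃ n : ℕ, ⋃ m : ℕ,
      {c : ℝ | k ≤ n ∧ |c * a ^ n - b ^ m| < 1 / ((k : ℝ) + 1)} := ⟨_, rfl⟩
  have hWo : ∀ k, IsOpen (W k) := by
    intro k
    rw [hW]
    refine isOpen_Iio.union (isOpen_iUnion fun n => isOpen_iUnion fun m => ?_)
    by_cases hkn : k ≤ n
    · simp only [hkn, true_and]
      exact isOpen_lt (by fun_prop) continuous_const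
    · simp only [hkn, false_and]
      exact isOpen_empty
  have hWd : ∀ k, Dense (W k) := by
    intro k
    rw [Metric.dense_iff]
    intro x r hr
    by_cases hx : x < 0
    · exact ⟨x, Metric.mem_ball_self hr, by rw [hW]; exact Or.inl hx⟩
    · rw [not_lt] at hx
      obtain ⟨c, hc, hF⟩ := dil_F ha hb (show 0 < x + r / 4 by linarith)
        (show x + r / 4 < x + r / 2 by linarith)
      obtain ⟨Q₀, hQ₀⟩ := hF (x + r / 4) (x + r / 2) le_rfl (by linarith) le_rfl
      obtain ⟨Q, hQ1, hQ2⟩ := (QQ_infinite hab).exists_gt (max Q₀ (k + 1))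
      obtain ⟨G, hG1, hG2, -⟩ := hQ₀ Q hQ1 ((le_max_left _ _).trans hQ2.le)
      have hQ3 : k + 1 ≤ Q := (le_max_right _ _).trans hQ2.le
      have hQpos : (0 : ℝ) < (Q : ℝ) := by
        have : 0 < Q := by omega
        exact_mod_cast this
      have hcard : (0 : ℝ) < G.card := by
        refine lt_of_lt_of_le ?_ hG2
        have : 0 < x + r / 2 - (x + r / 4) := by linarith
        positivity
      obtain ⟨z, hz⟩ := Finset.card_pos.1 (by exact_mod_cast hcard)
      obtain ⟨⟨n, m, h1, h2, h3⟩, h4, h5⟩ := hG1 z hz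
      refine ⟨z, ?_, ?_⟩
      · rw [Metric.mem_ball, Real.dist_eq, abs_lt]
        constructor <;> linarith
      · rw [hW]
        right
        simp only [mem_iUnion, mem_ofPred_eq]
        refine ⟨n, m, by omega, ?_⟩
        have han : a ^ n ≠ 0 := by positivity
        rw [h3, div_mul_cancel₀ _ han, sub_self, abs_zero]
        positivity
  have hmem : (⋂ k, W k) ∈ residual ℝ :=
    countable_iInter_mem.2 fun k => residual_of_dense_open (hWo k) (hWd k)
  filter_upwards [hmem] with c hc hc1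
  rw [mem_iInter] at hc
  refine inf_of_forall fun k => ?_
  have h1 := hc k
  rw [hW] at h1
  rcases h1 with h1 | h1
  · rw [mem_Iio] at h1
    exact absurd h1 (not_lt.2 hc1.le)
  · simp only [mem_iUnion, mem_ofPred_eq] at h1
    obtain ⟨n, m, h2, h3⟩ := h1
    exact ⟨n, m, h2, h3⟩

/-- for each `n` there are only finitely many near misses -/
theorem near_fst_finite {a b c : ℝ} (ha : 1 < a) (hb : 1 < b) (hc : 0 < c) (N : ℕ) :
    {p ∈ nearMisses a b c | p.1 < N}.Finite := by
  obtain ⟨K, hK⟩ := lin_bound (D := 2 * c + 2) hb ha.le (by linarith)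
  refine ((Finset.range N ×ˢ Finset.range (K * (N + 1) + 1)).finite_toSet).subset ?_
  rintro p ⟨hp, hpN⟩
  obtain ⟨-, h2⟩ := near_le ha hc hp
  have h3 := hK p.1 p.2 h2
  rw [Finset.mem_coe, Finset.mem_product, Finset.mem_range, Finset.mem_range]
  refine ⟨hpN, ?_⟩
  have : K * (p.1 + 1) ≤ K * (N + 1) := Nat.mul_le_mul_left K (by omega)
  omega

/-- dependent bases: only countably many exceptional dilations -/
theorem dep_countable {a b : ℝ} (ha : 1 < a) (hb : 1 < b)
    (hab : ¬ Irrational (Real.log a / Real.log b)) :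
    {c : ℝ | 0 < c ∧ (nearMisses a b c).Infinite}.Countable := by
  have ha0 : 0 < a := by linarith
  have hla : 0 < Real.log a := Real.log_pos ha
  have hlb : 0 < Real.log b := Real.log_pos hb
  rw [Irrational, not_not] at hab
  obtain ⟨t, ht⟩ := hab
  have hq0 : (0 : ℝ) < (t.den : ℝ) := by exact_mod_cast t.pos
  obtain ⟨γ, hγ⟩ : ∃ γ : ℝ, γ = Real.log b / t.den := ⟨_, rfl⟩
  have hγ0 : 0 < γ := by rw [hγ]; positivity
  have hb' : Real.log b = t.den * γ := by rw [hγ]; field_simp
  have ha' : Real.log a = t.num * γ := by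
    have h1 : Real.log a = (t : ℝ) * Real.log b := by rw [ht]; field_simp
    rw [h1, hγ]
    have h2 : (t : ℝ) = (t.num : ℝ) / t.den := by exact_mod_cast (Rat.num_div_den t).symm
    rw [h2]
    field_simp
  refine (Set.countable_range fun j : ℤ => Real.exp (j * γ)).mono ?_
  rintro c ⟨hc, hinf⟩
  by_contra hcon
  -- the gap
  obtain ⟨j, hj⟩ : ∃ j : ℤ, j = ⌊Real.log c / γ⌋ := ⟨_, rfl⟩
  have h1 : Real.exp (j * γ) ≤ c := by
    rw [← Real.exp_log hc]
    apply Real.exp_le_exp.2
    rw [← le_div_iff₀ hγ0, hj]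
    exact Int.floor_le _
  have h1' : Real.exp (j * γ) < c := lt_of_le_of_ne h1 fun h => hcon ⟨j, h⟩
  have h2 : c < Real.exp (((j + 1 : ℤ) : ℝ) * γ) := by
    conv_lhs => rw [← Real.exp_log hc]
    apply Real.exp_lt_exp.2
    rw [← div_lt_iff₀ hγ0, hj]
    push_cast
    exact Int.lt_floor_add_one _
  obtain ⟨δ, hδ⟩ : ∃ δ : ℝ, δ = min (c - Real.exp (j * γ)) (Real.exp (((j + 1 : ℤ) : ℝ) * γ) - c) :=
    ⟨_, rfl⟩
  have hδ0 : 0 < δ := by rw [hδ]; exact lt_min (by linarith) (by linarith)
  have hgap : ∀ i : ℤ, δ ≤ |c - Real.exp (i * γ)| := by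
    intro i
    rcases le_or_gt i j with hij | hij
    · have h3 : Real.exp (i * γ) ≤ Real.exp (j * γ) := by
        apply Real.exp_le_exp.2
        have : (i : ℝ) ≤ j := by exact_mod_cast hij
        exact mul_le_mul_of_nonneg_right this hγ0.le
      have h4 : δ ≤ c - Real.exp (j * γ) := by rw [hδ]; exact min_le_left _ _
      exact (by linarith : δ ≤ c - Real.exp (i * γ)).trans (le_abs_self _)
    · have h3 : Real.exp (((j + 1 : ℤ) : ℝ) * γ) ≤ Real.exp (i * γ) := by
        apply Real.exp_le_exp.2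
        have : ((j + 1 : ℤ) : ℝ) ≤ i := by exact_mod_cast hij
        exact mul_le_mul_of_nonneg_right this hγ0.le
      have h4 : δ ≤ Real.exp (((j + 1 : ℤ) : ℝ) * γ) - c := by rw [hδ]; exact min_le_right _ _
      rw [abs_sub_comm]
      exact (by linarith : δ ≤ Real.exp (i * γ) - c).trans (le_abs_self _)
  -- the near misses are few
  have hsa : 1 < √a := by
    rw [Real.lt_sqrt (by norm_num)]
    linarith
  obtain ⟨N, hN⟩ := eventually_atTop.1
    ((tendsto_pow_atTop_atTop_of_one_lt hsa).eventually_gt_atTop (√c / δ))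
  apply hinf
  refine (near_fst_finite ha hb hc N).subset fun p hp => ⟨hp, ?_⟩
  by_contra hpN
  rw [not_lt] at hpN
  obtain ⟨h3, -⟩ := near_le ha hc hp
  have hap : 0 < a ^ p.1 := by positivity
  have h4 := hgap (p.2 * t.den - p.1 * t.num)
  have h5 : Real.exp ((((p.2 : ℤ) * (t.den : ℤ) - (p.1 : ℤ) * t.num : ℤ) : ℝ) * γ) = b ^ p.2 / a ^ p.1 := by
    have e1 : b ^ p.2 = Real.exp (p.2 * (t.den * γ)) := by
      rw [← hb', ← Real.log_pow, Real.exp_log (by positivity)]
    have e2 : a ^ p.1 = Real.exp (p.1 * (t.num * γ)) := by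
      rw [← ha', ← Real.log_pow, Real.exp_log (by positivity)]
    rw [e1, e2, ← Real.exp_sub]
    congr 1
    push_cast
    ring
  rw [h5] at h4
  have h6 : |c - b ^ p.2 / a ^ p.1| = |c * a ^ p.1 - b ^ p.2| / a ^ p.1 := by
    rw [← abs_of_pos hap, ← abs_div, abs_of_pos hap]
    congr 1
    field_simp
  rw [h6, le_div_iff₀ hap] at h4
  have h7 : √a ^ p.1 * √a ^ p.1 = a ^ p.1 := by
    rw [← mul_pow, Real.mul_self_sqrt ha0.le]
  have h8 : √c < √a ^ p.1 * δ := by
    have := hN p.1 hpN
    rwa [div_lt_iff₀ hδ0] at this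
  have h9 : δ * a ^ p.1 ≤ √c * √a ^ p.1 := h4.trans h3
  have hsp : 0 < √a ^ p.1 := by positivity
  rw [← h7] at h9
  have h10 : √a ^ p.1 * δ ≤ √c := by
    have : (√a ^ p.1 * δ) * √a ^ p.1 ≤ √c * √a ^ p.1 := by linarith
    exact le_of_mul_le_mul_right this hsp
  linarith

end Pool.Agent.D0H48.LD
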