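import Mathlib
import Pool.Agent.D0H48.LD.Crit3
import Pool.Agent.D0H48.LD.Low
import Pool.Agent.D0H48.LD.Dil

/-!
The lower bounds for the exceptional bases and for the exceptional dilations
-/

set_option autoImplicit false

open MeasureTheory Filter Topology Set
open scoped ENNReal NNReal

namespace Pool.Agent.D0H48.LD

theorem gauge_anti {s t : ℝ} (hs : 0 < s) (hst : s ≤ t) :
    gauge t ≤ᶠ[𝓝 (0 : ℝ≥0∞)] gauge s := by
  have h1 : ∀ᶠ r : ℝ≥0∞ in 𝓝 0, r < ENNReal.ofReal (Real.exp (-1)) :=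
    gt_mem_nhds (ENNReal.ofReal_pos.2 (Real.exp_pos _))
  filter_upwards [h1] with r hr
  have hrt : r.toReal ≤ Real.exp (-1) := ENNReal.toReal_le_of_le_ofReal (Real.exp_pos _).le hr.le
  rcases eq_or_lt_of_le (ENNReal.toReal_nonneg (a := r)) with h0 | h0
  · unfold gauge
    rw [← h0, div_zero, Real.log_zero, Real.zero_rpow (by linarith), Real.zero_rpow (by linarith)]
  · unfold gauge
    apply ENNReal.ofReal_le_ofReal
    have h2 : 1 ≤ Real.log (1 / r.toReal) := by
      have h3 : Real.exp 1 ≤ 1 / r.toReal := by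
        rw [le_div_iff₀ h0]
        calc Real.exp 1 * r.toReal ≤ Real.exp 1 * Real.exp (-1) :=
              mul_le_mul_of_nonneg_left hrt (Real.exp_pos _).le
          _ = 1 := by rw [← Real.exp_add]; norm_num
      calc (1 : ℝ) = Real.log (Real.exp 1) := (Real.log_exp 1).symm
        _ ≤ _ := Real.log_le_log (Real.exp_pos _) h3
    exact Real.rpow_le_rpow_of_exponent_le h2 (by linarith)

theorem top_of_le {s t : ℝ} (hs : 0 < s) (hst : s ≤ t) {E : Set ℝ}
    (h : Measure.mkMetric (gauge t) E = ⊤) : Measure.mkMetric (gauge s) E = ⊤ := by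
  refine top_le_iff.1 ?_
  rw [← h]
  exact Measure.mkMetric_mono (gauge_anti hs hst) E

theorem bases_top_crit {b : ℝ} (hb : 1 < b) {u v : ℝ} (hu : 1 ≤ u)
    (huv : u < v) : Measure.mkMetric (gauge 2) ({a | Inf a b 1} ∩ Ioo u v) = ⊤ := by
  obtain ⟨u', hu1, hu2⟩ := exists_between huv
  obtain ⟨v', hv1, hv2⟩ := exists_between hu2
  obtain ⟨c, hc, hF⟩ := bases_F hb (show 1 ≤ u' by linarith) hv1
  have hlv : 0 < Real.log (v' + 1) := Real.log_pos (by linarith)
  have h := gauge_top_crit hv1 (Ici 1) ici_infinite (FB b) (t := 2) (lam := 2 * Real.log (v' + 1) + 1) hc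
    (by positivity) (by norm_num) hF {a | Inf a b 1}
    (fun x h1 h2 h3 => bases_E hb (show 1 ≤ u' by linarith) x h1 h2 h3)
  rw [Nat.cast_ofNat] at h
  refine top_le_iff.1 ?_
  rw [← h]
  apply measure_mono
  rintro x ⟨h1, h2, h3⟩
  exact ⟨h1, by linarith, by linarith⟩

theorem dil_top_crit {a b : ℝ} (ha : 1 < a) (hb : 1 < b) (hab : Irrational (Real.log a / Real.log b))
    {u v : ℝ} (hu : 0 ≤ u)
    (huv : u < v) : Measure.mkMetric (gauge 1) ({c | Inf a b c} ∩ Ioo u v) = ⊤ := by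
  obtain ⟨u', hu1, hu2⟩ := exists_between huv
  obtain ⟨v', hv1, hv2⟩ := exists_between hu2
  obtain ⟨c, hc, hF⟩ := dil_F ha hb (show 0 < u' by linarith) hv1
  have hla : 0 < Real.log a := Real.log_pos ha
  have h := gauge_top_crit hv1 (QQ (Real.log a / Real.log b)) (QQ_infinite hab) (FD a b) (t := 1)
    (lam := 2 * Real.log a + 1) hc (by positivity) (by norm_num) hF {c | Inf a b c}
    (fun x h1 h2 h3 => dil_E ha x h3)
  rw [Nat.cast_one] at h
  refine top_le_iff.1 ?_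
  rw [← h]
  apply measure_mono
  rintro x ⟨h1, h2, h3⟩
  exact ⟨h1, by linarith, by linarith⟩

theorem bases_top' {b : ℝ} (hb : 1 < b) {s : ℝ} (hs : 0 < s) (hs2 : s ≤ 2) {u v : ℝ} (hu : 1 ≤ u)
    (huv : u < v) : Measure.mkMetric (gauge s) ({a | Inf a b 1} ∩ Ioo u v) = ⊤ :=
  top_of_le hs hs2 (bases_top_crit hb hu huv)

theorem dil_top' {a b : ℝ} (ha : 1 < a) (hb : 1 < b) (hab : Irrational (Real.log a / Real.log b))
    {s : ℝ} (hs : 0 < s) (hs1 : s ≤ 1) {u v : ℝ} (hu : 0 ≤ u)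
    (huv : u < v) : Measure.mkMetric (gauge s) ({c | Inf a b c} ∩ Ioo u v) = ⊤ :=
  top_of_le hs hs1 (dil_top_crit ha hb hab hu huv)

end Pool.Agent.D0H48.LD
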