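import Mathlib
import Pool.Agent.D0H48.LD.Gauge
import Pool.Agent.Results.MP_606be1_nt.DilatedNearCoincidences

/-!
The upper bounds for the exceptional bases and for the exceptional dilations
-/

set_option autoImplicit false

open MeasureTheory Filter Topology Set
open scoped ENNReal NNReal

namespace Pool.Agent.D0H48.LD

open Pool.Agent.Results.MP_606be1_nt.DilatedNearCoincidences

theorem summable_lin {s : ℝ} (hs : 2 < s) (K : ℕ) :
    Summable fun n : ℕ => ((Finset.range (K * (n + 1) + 1)).card : ℝ) * (n : ℝ) ^ (-s) := by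
  have h1 : Summable fun n : ℕ => (2 * (K : ℝ) + 1) * (n : ℝ) ^ (1 - s) :=
    (Real.summable_nat_rpow.2 (by linarith)).mul_left _
  refine Summable.of_nonneg_of_le (fun n => by positivity) (fun n => ?_) h1
  rw [Finset.card_range]
  rcases Nat.eq_zero_or_pos n with h0 | h0
  · subst h0
    rw [Nat.cast_zero, Real.zero_rpow (by linarith), Real.zero_rpow (by linarith)]
    simp
  · have hn : (1 : ℝ) ≤ n := by exact_mod_cast h0
    have hn0 : (0 : ℝ) < n := by linarith
    have hK : (0 : ℝ) ≤ K := Nat.cast_nonneg K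
    have h2 : (n : ℝ) ^ (1 - s) = n * (n : ℝ) ^ (-s) := by
      rw [sub_eq_add_neg, Real.rpow_add hn0, Real.rpow_one]
    rw [h2, ← mul_assoc]
    apply mul_le_mul_of_nonneg_right _ (by positivity)
    push_cast
    nlinarith

theorem bases_null {b c : ℝ} (hb : 1 < b) (hc : 0 < c) {s : ℝ} (hs : 2 < s) :
    Measure.mkMetric (gauge s) {a : ℝ | 1 < a ∧ (nearMisses a b c).Infinite} = 0 := by
  have h : ∀ k : ℕ, Measure.mkMetric (gauge s) {a : ℝ | (1 + 1 / ((k : ℝ) + 1) ≤ a ∧ a ≤ (k : ℝ) + 2) ∧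
      (nearMisses a b c).Infinite} = 0 := by
    intro k
    have hk0 : (0 : ℝ) ≤ k := Nat.cast_nonneg k
    set L : ℝ := 1 + 1 / ((k : ℝ) + 1) with hL
    have hL1 : 1 < L := by
      have : 0 < 1 / ((k : ℝ) + 1) := by positivity
      linarith
    have hsL : 1 < √L := by
      rw [Real.lt_sqrt (by norm_num)]
      linarith
    obtain ⟨K, hK⟩ := lin_bound (Y := (k : ℝ) + 2) (D := 2 * c + 2) hb (by linarith) (by linarith)
    refine gauge_null (S := fun a => nearMisses a b c) hsL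
      (A := ((k : ℝ) + 2) * (1 + √c / c)) (by positivity) (by linarith)
      (fun n => Finset.range (K * (n + 1) + 1)) (summable_lin hs K)
      (fun p => (b ^ p.2 / c) ^ (1 / (p.1 : ℝ))) ?_ (fun a ha => ha.2)
    rintro a ⟨⟨haL, hak⟩, -⟩ p hp
    have ha : 1 < a := by linarith
    have ha0 : 0 < a := by linarith
    obtain ⟨h1, h2⟩ := near_le ha hc hp
    constructor
    · rw [Finset.mem_range, Nat.lt_succ_iff]
      refine hK p.1 p.2 (h2.trans ?_)
      refine mul_le_mul_of_nonneg_left ?_ (by positivity)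
      exact pow_le_pow_left₀ ha0.le hak _
    · have hsc : 0 ≤ √c / c := by positivity
      obtain ⟨n, m⟩ := p
      change |c * a ^ n - b ^ m| ≤ √c * √a ^ n at h1
      change |(b ^ m / c) ^ (1 / (n : ℝ)) - a| * √L ^ n ≤ _
      rcases n with _ | n
      · rw [Nat.cast_zero, div_zero, Real.rpow_zero, pow_zero, mul_one, abs_le]
        constructor <;> nlinarith
      · set y : ℝ := (b ^ m / c) ^ (1 / ((n + 1 : ℕ) : ℝ)) with hy
        have hbm : 0 < b ^ m / c := by positivity
        have hy0 : 0 < y := Real.rpow_pos_of_pos hbm _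
        have hyn : y ^ (n + 1) = b ^ m / c := by
          rw [hy, ← Real.rpow_natCast, ← Real.rpow_mul hbm.le, one_div_mul_cancel (by positivity),
            Real.rpow_one]
        have h3 := pow_gap ha0 hy0 n
        rw [hyn] at h3
        have h4 : |b ^ m / c - a ^ (n + 1)| = |c * a ^ (n + 1) - b ^ m| / c := by
          rw [← abs_of_pos hc, ← abs_div, abs_of_pos hc, ← abs_neg]
          congr 1
          field_simp
          ring
        rw [h4] at h3
        have h5 : |y - a| * a ^ n ≤ √c * √a ^ (n + 1) / c :=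
          h3.trans (div_le_div_of_nonneg_right h1 hc.le)
        have h6 : √L ^ (n + 1) ≤ √a ^ (n + 1) :=
          pow_le_pow_left₀ (Real.sqrt_nonneg _) (Real.sqrt_le_sqrt haL) _
        have h7 : √a ^ (n + 1) * √a ^ (n + 1) = a * a ^ n := by
          rw [← mul_pow, Real.mul_self_sqrt ha0.le, pow_succ]
          ring
        have han : 0 < a ^ n := by positivity
        have h8 : (|y - a| * √L ^ (n + 1)) * a ^ n ≤ (√c / c * a) * a ^ n := by
          calc (|y - a| * √L ^ (n + 1)) * a ^ n = |y - a| * a ^ n * √L ^ (n + 1) := by ring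
            _ ≤ √c * √a ^ (n + 1) / c * √a ^ (n + 1) :=
                mul_le_mul h5 h6 (by positivity) (by positivity)
            _ = √c / c * (√a ^ (n + 1) * √a ^ (n + 1)) := by ring
            _ = (√c / c * a) * a ^ n := by rw [h7]; ring
        have h9 : |y - a| * √L ^ (n + 1) ≤ √c / c * a := le_of_mul_le_mul_right h8 han
        refine h9.trans ?_
        nlinarith
  have hsub : {a : ℝ | 1 < a ∧ (nearMisses a b c).Infinite} ⊆
      ⋃ k : ℕ, {a : ℝ | (1 + 1 / ((k : ℝ) + 1) ≤ a ∧ a ≤ (k : ℝ) + 2) ∧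
        (nearMisses a b c).Infinite} := by
    rintro a ⟨h1, h2⟩
    obtain ⟨k, hk⟩ := exists_nat_ge (max a (1 / (a - 1)))
    have hk1 : a ≤ k := (le_max_left _ _).trans hk
    have hk2 : 1 / (a - 1) ≤ k := (le_max_right _ _).trans hk
    refine Set.mem_iUnion.2 ⟨k, ⟨?_, by linarith⟩, h2⟩
    have ha1 : 0 < a - 1 := by linarith
    have h3 : 1 / ((k : ℝ) + 1) ≤ a - 1 := by
      rw [div_le_iff₀ (by positivity)]
      rw [div_le_iff₀ ha1] at hk2
      nlinarith
    linarith
  exact measure_mono_null hsub (measure_iUnion_null h)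

/-- the exponents `m` of the near misses lie in a short interval -/
theorem short_interval {b D : ℝ} (hb : 1 < b) (hD : 0 < D) :
    ∃ R : ℕ, ∀ A : ℝ, ∃ m₀ : ℕ, ∀ m : ℕ, A ≤ b ^ m → b ^ m ≤ D * A → m ∈ Finset.Ico m₀ (m₀ + R) := by
  classical
  obtain ⟨R, hR⟩ := pow_unbounded_of_one_lt D hb
  refine ⟨R, fun A => ?_⟩
  have hex : ∃ m : ℕ, A ≤ b ^ m := by
    obtain ⟨m, hm⟩ := pow_unbounded_of_one_lt A hb
    exact ⟨m, hm.le⟩
  refine ⟨Nat.find hex, fun m h1 h2 => ?_⟩
  rw [Finset.mem_Ico]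
  refine ⟨Nat.find_min' hex h1, ?_⟩
  have h3 := Nat.find_spec hex
  have hb0 : 0 < b := by linarith
  have h4 : b ^ m < b ^ (Nat.find hex + R) := by
    calc b ^ m ≤ D * A := h2
      _ ≤ D * b ^ Nat.find hex := mul_le_mul_of_nonneg_left h3 hD.le
      _ < b ^ R * b ^ Nat.find hex := mul_lt_mul_of_pos_right hR (by positivity)
      _ = b ^ (Nat.find hex + R) := by rw [pow_add]; ring
  exact (pow_lt_pow_iff_right₀ hb).1 h4

theorem dil_null {a b : ℝ} (ha : 1 < a) (hb : 1 < b) {s : ℝ} (hs : 1 < s) :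
    Measure.mkMetric (gauge s) {c : ℝ | 0 < c ∧ (nearMisses a b c).Infinite} = 0 := by
  have ha0 : 0 < a := by linarith
  have hsa : 1 < √a := by
    rw [Real.lt_sqrt (by norm_num)]
    linarith
  have h : ∀ k : ℕ, Measure.mkMetric (gauge s) {c : ℝ | (1 / ((k : ℝ) + 1) ≤ c ∧ c ≤ (k : ℝ) + 1) ∧
      (nearMisses a b c).Infinite} = 0 := by
    intro k
    have hk0 : (0 : ℝ) ≤ k := Nat.cast_nonneg k
    obtain ⟨R, hR⟩ := short_interval (D := (2 * ((k : ℝ) + 1) + 2) * (4 * ((k : ℝ) + 1))) hb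
      (by positivity)
    choose m₀ hm₀ using fun n : ℕ => hR (a ^ n / (4 * ((k : ℝ) + 1)))
    have hsum : Summable fun n : ℕ => ((Finset.Ico (m₀ n) (m₀ n + R)).card : ℝ) * (n : ℝ) ^ (-s) := by
      have h1 : Summable fun n : ℕ => (R : ℝ) * (n : ℝ) ^ (-s) :=
        (Real.summable_nat_rpow.2 (by linarith)).mul_left _
      refine h1.congr fun n => ?_
      rw [Nat.card_Ico, Nat.add_sub_cancel_left]
    refine gauge_null (S := fun c => nearMisses a b c) hsa
      (A := √((k : ℝ) + 1) + 1) (by positivity) (by linarith)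
      (fun n => Finset.Ico (m₀ n) (m₀ n + R)) hsum (fun p => b ^ p.2 / a ^ p.1) ?_ (fun c hc => hc.2)
    rintro c ⟨⟨hck1, hck⟩, -⟩ p hp
    have hc0 : 0 < c := lt_of_lt_of_le (by positivity) hck1
    obtain ⟨h1, h2⟩ := near_le ha hc0 hp
    have hap : 0 < a ^ p.1 := by positivity
    constructor
    · apply hm₀
      · -- the lower bound for `b ^ m`
        have h3 : c * a ^ p.1 / 4 ≤ b ^ p.2 := by
          have hbm : 1 ≤ b ^ p.2 := one_le_pow₀ hb.le
          have h4 : (√c * √a ^ p.1) ^ 2 = c * a ^ p.1 := by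
            rw [mul_pow, Real.sq_sqrt hc0.le, ← pow_mul, mul_comm p.1 2, pow_mul,
              Real.sq_sqrt ha0.le]
          have h5 : 0 ≤ √c * √a ^ p.1 := by positivity
          have h6 := (abs_le.1 h1).2
          rw [← h4] at h6 ⊢
          set w : ℝ := √c * √a ^ p.1 with hw
          by_cases hw2 : w ≤ 4 / 3
          · nlinarith
          · rw [not_le] at hw2
            nlinarith
        rw [div_le_iff₀ (by positivity)]
        have h4 : 1 ≤ c * ((k : ℝ) + 1) := by
          rwa [div_le_iff₀ (by positivity)] at hck1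
        calc a ^ p.1 = 1 * a ^ p.1 := (one_mul _).symm
          _ ≤ c * ((k : ℝ) + 1) * a ^ p.1 := mul_le_mul_of_nonneg_right h4 hap.le
          _ = c * a ^ p.1 / 4 * (4 * ((k : ℝ) + 1)) := by ring
          _ ≤ b ^ p.2 * (4 * ((k : ℝ) + 1)) := mul_le_mul_of_nonneg_right h3 (by positivity)
      · calc b ^ p.2 ≤ (2 * c + 2) * a ^ p.1 := h2
          _ ≤ (2 * ((k : ℝ) + 1) + 2) * a ^ p.1 := mul_le_mul_of_nonneg_right (by linarith) hap.le
          _ = (2 * ((k : ℝ) + 1) + 2) * (4 * ((k : ℝ) + 1)) * (a ^ p.1 / (4 * ((k : ℝ) + 1))) := by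
              field_simp
    · have h3 : b ^ p.2 / a ^ p.1 - c = -(c * a ^ p.1 - b ^ p.2) / a ^ p.1 := by
        field_simp
        ring
      rw [h3, abs_div, abs_neg, abs_of_pos hap, div_mul_eq_mul_div, div_le_iff₀ hap]
      have h4 : √a ^ p.1 * √a ^ p.1 = a ^ p.1 := by
        rw [← mul_pow, Real.mul_self_sqrt ha0.le]
      have h5 : √c ≤ √((k : ℝ) + 1) := Real.sqrt_le_sqrt hck
      calc |c * a ^ p.1 - b ^ p.2| * √a ^ p.1 ≤ √c * √a ^ p.1 * √a ^ p.1 :=
            mul_le_mul_of_nonneg_right h1 (by positivity)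
        _ = √c * a ^ p.1 := by rw [mul_assoc, h4]
        _ ≤ (√((k : ℝ) + 1) + 1) * a ^ p.1 := mul_le_mul_of_nonneg_right (by linarith) hap.le
  have hsub : {c : ℝ | 0 < c ∧ (nearMisses a b c).Infinite} ⊆
      ⋃ k : ℕ, {c : ℝ | (1 / ((k : ℝ) + 1) ≤ c ∧ c ≤ (k : ℝ) + 1) ∧
        (nearMisses a b c).Infinite} := by
    rintro c ⟨h1, h2⟩
    obtain ⟨k, hk⟩ := exists_nat_ge (max c (1 / c))
    have hk1 : c ≤ k := (le_max_left _ _).trans hk
    have hk2 : 1 / c ≤ k := (le_max_right _ _).trans hk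
    refine Set.mem_iUnion.2 ⟨k, ⟨?_, by linarith⟩, h2⟩
    rw [div_le_iff₀ (by positivity)]
    rw [div_le_iff₀ h1] at hk2
    nlinarith
  exact measure_mono_null hsub (measure_iUnion_null h)

end Pool.Agent.D0H48.LD
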